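import Pool.Agent.Lib.MP_ecc084_pr.BK.C

/-!
Duality: the equilibrium measure of a finite set.
-/

open MeasureTheory Finset Metric
open scoped InnerProductSpace

namespace Pool.Agent.Lib.MP_ecc084_pr.IN

lemma exists_least {ι H : Type*} [NormedAddCommGroup H] [InnerProductSpace ℝ H] (φ : ι → H)
    {D : Finset ι} (hD : D.Nonempty) :
    ∃ p : ι → ℝ, (∀ x ∈ D, 0 ≤ p x) ∧ ∑ x ∈ D, p x = 1 ∧
      ∀ x ∈ D, ‖∑ y ∈ D, p y • φ y‖ ^ 2 ≤ ⟪φ x, ∑ y ∈ D, p y • φ y⟫_ℝ := by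
  classical
  let L : (D → ℝ) →ₗ[ℝ] H := Fintype.linearCombination ℝ fun x : D => φ x
  have hL : ∀ p, L p = ∑ x : D, p x • φ x := fun p => Fintype.linearCombination_apply _ _ _
  have hc : IsCompact (L '' stdSimplex ℝ D) :=
    (isCompact_stdSimplex ℝ D).image L.continuous_of_finiteDimensional
  have hv : Convex ℝ (L '' stdSimplex ℝ D) := (convex_stdSimplex ℝ D).linear_image L
  have hs : ∀ x : D, φ x ∈ L '' stdSimplex ℝ D := fun x =>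
    ⟨Pi.single x 1, single_mem_stdSimplex ℝ x, by simp [L]⟩
  obtain ⟨x₀, hx₀⟩ := hD
  obtain ⟨v, hvK, hmin⟩ := exists_norm_eq_iInf_of_complete_convex ⟨_, hs ⟨x₀, hx₀⟩⟩
    hc.isComplete hv 0
  have h1 := (norm_eq_iInf_iff_real_inner_le_zero hv hvK).1 hmin
  obtain ⟨p, hp, rfl⟩ := hvK
  have h2 : ∑ y ∈ D, (if h : y ∈ D then p ⟨y, h⟩ else 0) • φ y = L p := by
    rw [hL, ← sum_coe_sort D]
    exact sum_congr rfl fun x _ => by rw [dif_pos x.2]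
  refine ⟨fun y => if h : y ∈ D then p ⟨y, h⟩ else 0, fun x hx => ?_, ?_, fun x hx => ?_⟩
  · simp only [dif_pos hx]
    exact hp.1 _
  · rw [← hp.2, ← sum_coe_sort D]
    exact sum_congr rfl fun x _ => by rw [dif_pos x.2]
  · have h3 := h1 _ (hs ⟨x, hx⟩)
    rw [zero_sub, inner_neg_left, inner_sub_right, real_inner_self_eq_norm_sq,
      real_inner_comm] at h3
    rw [h2]
    linarith

variable {d : ℕ}

/-- `p` is an equilibrium measure of `D` for the kernel `K`, with energy `e`. -/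
def Equi (K : (Fin d → ℤ) → ℝ) (D : Finset (Fin d → ℤ)) (p : (Fin d → ℤ) → ℝ) (e : ℝ) : Prop :=
  (∀ x ∈ D, 0 ≤ p x) ∧ ∑ x ∈ D, p x = 1 ∧ 0 < e ∧
    ∑ x ∈ D, ∑ y ∈ D, p x * p y * K (x - y) = e ∧ ∀ x ∈ D, e ≤ ∑ y ∈ D, p y * K (x - y)

lemma Equi.congr {K K' : (Fin d → ℤ) → ℝ} {D : Finset (Fin d → ℤ)} {p : (Fin d → ℤ) → ℝ} {e : ℝ}
    (h : Equi K D p e) (hK : ∀ x ∈ D, ∀ y ∈ D, K (x - y) = K' (x - y)) : Equi K' D p e := by
  refine ⟨h.1, h.2.1, h.2.2.1, ?_, fun x hx => ?_⟩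
  · rw [← h.2.2.2.1]
    exact sum_congr rfl fun x hx => sum_congr rfl fun y hy => by rw [hK x hx y hy]
  · exact (h.2.2.2.2 x hx).trans_eq (sum_congr rfl fun y hy => by rw [hK x hx y hy])

variable (μ : Measure (EuclideanSpace ℝ (Fin d))) [IsFiniteMeasure μ]
  (hsym : μ.map (fun l => -l) = μ) (hpos : ∀ δ : ℝ, 0 < δ → 0 < μ.real (closedBall 0 δ))

include hsym in
lemma norm_sq_chi {ι : Type*} (I : Finset ι) (c : ι → ℝ) (a : ι → Fin d → ℤ) :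
    ‖∑ i ∈ I, c i • chi μ (a i)‖ ^ 2 = ∑ i ∈ I, ∑ j ∈ I, c i * c j * Kc μ (a i - a j) := by
  rw [← real_inner_self_eq_norm_sq, inner_sum_sum]
  simp only [real_inner_chi_chi μ hsym]

omit [IsFiniteMeasure μ] in
lemma one_le_inner {ι H : Type*} [NormedAddCommGroup H] [InnerProductSpace ℝ H] {I : Finset ι}
    {c : ι → ℝ} {φ : ι → H} {g : H} (h0 : ∀ i ∈ I, 0 ≤ c i) (h1 : ∑ i ∈ I, c i = 1)
    (hg : ∀ i ∈ I, 1 ≤ ⟪φ i, g⟫_ℝ) : 1 ≤ ⟪∑ i ∈ I, c i • φ i, g⟫_ℝ := by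
  rw [sum_inner, ← h1]
  refine sum_le_sum fun i hi => ?_
  rw [real_inner_smul_left]
  exact le_mul_of_one_le_right (h0 i hi) (hg i hi)

omit [IsFiniteMeasure μ] in
lemma one_le_sq_mul {H : Type*} [NormedAddCommGroup H] [InnerProductSpace ℝ H] {v g : H}
    (h : 1 ≤ ⟪v, g⟫_ℝ) : 1 ≤ ‖g‖ ^ 2 * ‖v‖ ^ 2 := by
  rw [← mul_pow, mul_comm]
  exact one_le_pow₀ (h.trans (real_inner_le_norm v g))

include hsym hpos in
lemma one_le_cap_mul {ι : Type*} {I : Finset ι} {c : ι → ℝ} {a : ι → Fin d → ℤ}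
    {D : Finset (Fin d → ℤ)} (h0 : ∀ i ∈ I, 0 ≤ c i) (h1 : ∑ i ∈ I, c i = 1)
    (ha : ∀ i ∈ I, a i ∈ D) :
    1 ≤ cap μ D * ∑ i ∈ I, ∑ j ∈ I, c i * c j * Kc μ (a i - a j) := by
  obtain ⟨b, hb1, hb2, -, -⟩ := cap_spec μ hsym hpos D
  rw [hb2, ← norm_sq_chi μ hsym]
  exact one_le_sq_mul (one_le_inner h0 h1 fun i hi => hb1 _ (ha i hi))

include hsym hpos in
lemma cap_mono {D D' : Finset (Fin d → ℤ)} (h : D ⊆ D') : cap μ D ≤ cap μ D' := by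
  obtain ⟨b, hb1, hb2, -, -⟩ := cap_spec μ hsym hpos D'
  obtain ⟨-, -, -, h3, -⟩ := cap_spec μ hsym hpos D
  rw [hb2]
  exact h3 _ fun x hx => hb1 x (h hx)

include hsym hpos in
lemma exists_equi {D : Finset (Fin d → ℤ)} (hD : D.Nonempty) : ∃ p e, Equi (Kc μ) D p e := by
  obtain ⟨p, h0, h1, h2⟩ := exists_least (chi μ) hD
  have h3 := one_le_cap_mul μ hsym hpos (a := fun x => x) h0 h1 fun i hi => hi
  refine ⟨p, _, h0, h1, ?_, rfl, fun x hx => ?_⟩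
  · rw [← norm_sq_chi μ hsym D p fun x => x] at h3 ⊢
    refine lt_of_le_of_ne (sq_nonneg _) fun h => ?_
    rw [← h, mul_zero] at h3
    exact absurd h3 (by norm_num)
  · have h4 := h2 x hx
    rw [norm_sq_chi μ hsym D p fun x => x, inner_sum_smul] at h4
    simpa only [real_inner_chi_chi μ hsym] using h4

include hsym hpos in
lemma Equi.cap_eq {D : Finset (Fin d → ℤ)} {p : (Fin d → ℤ) → ℝ} {e : ℝ}
    (h : Equi (Kc μ) D p e) : cap μ D = 1 / e := by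
  obtain ⟨h0, h1, he, h2, h3⟩ := h
  have a1 := one_le_cap_mul μ hsym hpos (a := fun x => x) h0 h1 fun i hi => hi
  rw [h2] at a1
  obtain ⟨-, -, -, a2, -⟩ := cap_spec μ hsym hpos D
  have a3 := a2 (e⁻¹ • ∑ y ∈ D, p y • chi μ y) fun x hx => by
    rw [real_inner_smul_right, inner_sum_smul, le_inv_mul_iff₀ he, mul_one]
    simpa only [real_inner_chi_chi μ hsym] using h3 x hx
  rw [norm_smul, mul_pow, norm_sq_chi μ hsym D p fun x => x, h2, Real.norm_eq_abs, sq_abs] at a3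
  refine le_antisymm (a3.trans_eq ?_) ((div_le_iff₀ he).2 a1)
  field_simp

include hsym hpos in
lemma Equi.pot_eq {D : Finset (Fin d → ℤ)} {p : (Fin d → ℤ) → ℝ} {e : ℝ}
    (h : Equi (Kc μ) D p e) {u : (Fin d → ℤ) → ℝ} (hu : IsEqPot μ D u) (x : Fin d → ℤ) :
    u x = (∑ y ∈ D, p y * Kc μ (x - y)) / e := by
  have hc := h.cap_eq μ hsym hpos
  obtain ⟨h0, h1, he, h2, -⟩ := h
  obtain ⟨g, hg, hcap⟩ := hu
  have hre : ∀ y, ⟪chi μ y, g⟫_ℝ = u y := fun y => by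
    rw [real_inner_eq_re, ← fourierOf_eq_inner, hg.1 y, Complex.ofReal_re]
  have a1 := one_le_inner (φ := chi μ) (g := g) h0 h1 fun y hy => by
    rw [hre]; exact hg.2 y hy
  have a2 : ‖g - e⁻¹ • ∑ y ∈ D, p y • chi μ y‖ ^ 2 ≤ 0 := by
    rw [norm_sub_sq_real, norm_smul, mul_pow, norm_sq_chi μ hsym D p fun x => x, h2,
      Real.norm_eq_abs, sq_abs, hcap, hc, real_inner_smul_right, real_inner_comm]
    have a3 : e⁻¹ ^ 2 * e = e⁻¹ := by field_simp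
    have a4 := le_mul_of_one_le_right (inv_pos.2 he).le a1
    rw [a3, one_div]
    linarith
  have a5 : g = e⁻¹ • ∑ y ∈ D, p y • chi μ y :=
    sub_eq_zero.1 (norm_eq_zero.1 (pow_eq_zero_iff two_ne_zero |>.1
      (le_antisymm a2 (sq_nonneg _))))
  rw [← hre, a5, real_inner_smul_right, inner_sum_smul, div_eq_inv_mul]
  simp only [real_inner_chi_chi μ hsym]

end Pool.Agent.Lib.MP_ecc084_pr.IN
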