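import Pool.Agent.Lib.MP_ecc084_pr.IN.A

/-!
Trigonometric sums, window averages and two counting lemmas.
-/

open MeasureTheory Finset Real Filter
open scoped InnerProductSpace

namespace Pool.Agent.Lib.MP_ecc084_pr.IN

/-- The point of the unit circle with argument `t`. -/
noncomputable def ex (t : ℝ) : ℂ := Complex.exp (Complex.I * t)

lemma norm_ex (t : ℝ) : ‖ex t‖ = 1 := Complex.norm_exp_I_mul_ofReal t

lemma ex_add (s t : ℝ) : ex (s + t) = ex s * ex t := by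
  rw [ex, ex, ex, ← Complex.exp_add]
  push_cast
  rw [mul_add]

lemma continuous_ex : Continuous ex := by
  unfold ex
  fun_prop

lemma norm_ex_sub (s t : ℝ) : ‖ex s - ex t‖ ≤ |s - t| := by
  have h : ex s - ex t = ex t * (ex (s - t) - 1) := by
    rw [mul_sub, ← ex_add, mul_one, add_sub_cancel]
  rw [h, norm_mul, norm_ex, one_mul]
  exact Real.norm_exp_I_mul_ofReal_sub_one_le

lemma ex_re (t : ℝ) : (ex t).re = cos t := by
  rw [ex, mul_comm, Complex.exp_ofReal_mul_I_re]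

lemma ex_im (t : ℝ) : (ex t).im = sin t := by
  rw [ex, mul_comm, Complex.exp_ofReal_mul_I_im]

lemma inner_cx (a b : ℂ) : ⟪a, b⟫_ℝ = a.re * b.re + a.im * b.im := by
  rw [Complex.inner, Complex.mul_re, Complex.conj_re, Complex.conj_im]
  ring

lemma inner_ex (s t : ℝ) : ⟪ex s, ex t⟫_ℝ = cos (s - t) := by
  rw [inner_cx, ex_re, ex_re, ex_im, ex_im, cos_sub]

lemma inner_ex_add (s : ℝ) (a b : ℂ) :
    ⟪ex s * a, b⟫_ℝ + ⟪ex (-s) * a, b⟫_ℝ = 2 * (cos s * ⟪a, b⟫_ℝ) := by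
  simp only [inner_cx, Complex.mul_re, Complex.mul_im, ex_re, ex_im, cos_neg, sin_neg]
  ring

variable {ι κ : Type*}

/-- The Fourier transform of a finite family of weighted points. -/
noncomputable def tr (I : Finset ι) (c a : ι → ℝ) (t : ℝ) : ℂ := ∑ x ∈ I, c x • ex (t * a x)

lemma continuous_tr (I : Finset ι) (c a : ι → ℝ) : Continuous (tr I c a) := by
  have := continuous_ex
  unfold tr
  fun_prop

lemma inner_tr (I : Finset ι) (c a : ι → ℝ) (J : Finset κ) (d b : κ → ℝ) (t : ℝ) :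
    ⟪tr I c a t, tr J d b t⟫_ℝ = ∑ x ∈ I, ∑ y ∈ J, c x * d y * cos (t * (a x - b y)) := by
  rw [tr, tr, inner_sum_sum]
  simp only [inner_ex, mul_sub]

lemma norm_tr_sub_le {I : Finset ι} {c a b : ι → ℝ} (h0 : ∀ x ∈ I, 0 ≤ c x)
    (h1 : ∑ x ∈ I, c x = 1) {s t r : ℝ} (h : ∀ x ∈ I, |s * a x - t * b x| ≤ r) :
    ‖tr I c a s - tr I c b t‖ ≤ r := by
  rw [tr, tr, ← sum_sub_distrib, ← one_mul r, ← h1, sum_mul]
  refine norm_sum_le_of_le _ fun x hx => ?_
  rw [← smul_sub, norm_smul, Real.norm_of_nonneg (h0 x hx)]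
  exact mul_le_mul_of_nonneg_left ((norm_ex_sub _ _).trans (h x hx)) (h0 x hx)

lemma norm_tr_le {I : Finset ι} {c : ι → ℝ} (a : ι → ℝ) (h0 : ∀ x ∈ I, 0 ≤ c x)
    (h1 : ∑ x ∈ I, c x = 1) (t : ℝ) : ‖tr I c a t‖ ≤ 1 := by
  rw [tr, ← h1]
  refine norm_sum_le_of_le _ fun x hx => ?_
  rw [norm_smul, Real.norm_of_nonneg (h0 x hx), norm_ex, mul_one]

lemma le_norm_tr {I : Finset ι} {c a : ι → ℝ} (h0 : ∀ x ∈ I, 0 ≤ c x)
    (h1 : ∑ x ∈ I, c x = 1) {t r : ℝ} (h : ∀ x ∈ I, |t * a x| ≤ r) : 1 - r ≤ ‖tr I c a t‖ := by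
  have h2 := norm_tr_sub_le (a := a) (b := a) h0 h1 (s := 0) (t := t) (r := r) fun x hx => by
    simpa using h x hx
  have h3 : tr I c a 0 = 1 := by
    simp only [tr, zero_mul, ex, Complex.ofReal_zero, mul_zero, Complex.exp_zero]
    rw [← sum_smul, h1, one_smul]
  rw [h3] at h2
  have h4 := norm_sub_norm_le (1 : ℂ) (tr I c a t)
  rw [norm_one] at h4
  linarith

lemma tr_prod (I : Finset ι) (c a : ι → ℝ) (J : Finset κ) (d b : κ → ℝ) (t : ℝ) :
    tr (I ×ˢ J) (fun x => c x.1 * d x.2) (fun x => a x.1 + b x.2) t = tr I c a t * tr J d b t := by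
  rw [tr, tr, tr, sum_mul_sum, sum_product]
  refine sum_congr rfl fun x _ => sum_congr rfl fun y _ => ?_
  rw [mul_add, ex_add, smul_mul_smul_comm]

lemma tr_shift (I : Finset ι) (c a : ι → ℝ) (s t : ℝ) :
    tr I c (fun x => a x + s) t = ex (t * s) * tr I c a t := by
  rw [tr, tr, mul_sum]
  refine sum_congr rfl fun x _ => ?_
  rw [mul_add, ex_add, mul_smul_comm, mul_comm]

/-- The symbol of the average over a window of `W` points. -/
noncomputable def Dw (W : ℕ) : ℝ → ℂ := tr (range W) (fun _ => (W : ℝ)⁻¹) fun i => i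

lemma continuous_Dw (W : ℕ) : Continuous (Dw W) := continuous_tr _ _ _

lemma sum_win {W : ℕ} (hW : 1 ≤ W) : ∑ _i ∈ range W, (W : ℝ)⁻¹ = 1 := by
  rw [sum_const, card_range, nsmul_eq_mul, mul_inv_cancel₀]
  exact_mod_cast (show W ≠ 0 by omega)

lemma norm_Dw_le {W : ℕ} (hW : 1 ≤ W) (t : ℝ) : ‖Dw W t‖ ≤ 1 :=
  norm_tr_le _ (fun _ _ => by positivity) (sum_win hW) t

lemma Dw_far {W : ℕ} (hW : 1 ≤ W) {t : ℝ} (ht : |t| ≤ π) : |t| * ‖Dw W t‖ ≤ π / W := by
  have hW' : (0 : ℝ) < W := by exact_mod_cast hW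
  have h1 : ∀ n : ℕ, (ex t - 1) * ∑ i ∈ range n, ex (t * i) = ex (t * n) - 1 := by
    intro n
    induction n with
    | zero => simp [ex]
    | succ n ih =>
      rw [sum_range_succ, mul_add, ih, Nat.cast_succ, mul_add, mul_one, ex_add]
      ring
  have h2 : ‖ex t - 1‖ * ‖∑ i ∈ range W, ex (t * i)‖ ≤ 2 := by
    rw [← norm_mul, h1]
    refine (norm_sub_le _ _).trans ?_
    rw [norm_ex, norm_one]
    norm_num
  have h3 : 2 / π * |t| ≤ ‖ex t - 1‖ := by
    have h4 := mul_abs_le_abs_sin (x := t / 2) (by rw [abs_div, abs_two]; linarith)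
    rw [ex, Complex.norm_exp_I_mul_ofReal_sub_one, Real.norm_eq_abs, abs_mul, abs_two]
    rw [abs_div, abs_two] at h4
    linarith
  have h5 : ‖Dw W t‖ = (W : ℝ)⁻¹ * ‖∑ i ∈ range W, ex (t * i)‖ := by
    rw [Dw, tr, ← smul_sum, norm_smul, Real.norm_of_nonneg (by positivity)]
  have h6 := (mul_le_mul_of_nonneg_right h3 (norm_nonneg _)).trans h2
  rw [h5, le_div_iff₀ hW']
  have h7 : |t| * ‖∑ i ∈ range W, ex (t * i)‖ ≤ π := by
    have h8 := mul_le_mul_of_nonneg_left h6 (show 0 ≤ π / 2 by positivity)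
    have h9 : π / 2 * (2 / π * |t| * ‖∑ i ∈ range W, ex (t * i)‖) =
        |t| * ‖∑ i ∈ range W, ex (t * i)‖ := by field_simp
    linarith
  refine le_of_eq_of_le ?_ h7
  field_simp

variable (ν : Measure ℝ) [IsFiniteMeasure ν]

lemma integral_inner_tr (I : Finset ι) (c a : ι → ℝ) (J : Finset κ) (d b : κ → ℝ) :
    ∫ t, ⟪tr I c a t, tr J d b t⟫_ℝ ∂ν =
      ∑ x ∈ I, ∑ y ∈ J, c x * d y * ∫ t, cos (t * (a x - b y)) ∂ν := by
  simp only [inner_tr]
  rw [integral_finsetSum _ fun x _ => integrable_finsetSum _ fun y _ =>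
    (BK.integrable_cos ν _).const_mul _]
  refine sum_congr rfl fun x _ => ?_
  rw [integral_finsetSum _ fun y _ => (BK.integrable_cos ν _).const_mul _]
  simp only [integral_const_mul]

lemma sum_Kc (I : Finset ι) (c : ι → ℝ) (a : ι → Fin 1 → ℤ) (J : Finset κ) (d : κ → ℝ)
    (b : κ → Fin 1 → ℤ) : ∑ x ∈ I, ∑ y ∈ J, c x * d y * Kc (BK.sy ν) (a x - b y) =
      2 * ∫ t, ⟪tr I c (fun x => a x 0) t, tr J d (fun y => b y 0) t⟫_ℝ ∂ν := by
  rw [integral_inner_tr, mul_sum]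
  refine sum_congr rfl fun x _ => ?_
  rw [mul_sum]
  refine sum_congr rfl fun y _ => ?_
  rw [BK.Kc_sy, Pi.sub_apply, Int.cast_sub]
  ring

lemma integral_Dw {W : ℕ} (hW : 1 ≤ W)
    (h : ∀ z : ℤ, z ≠ 0 → |z| < W → ∫ t, cos (t * z) ∂ν = 0) :
    ∫ t, ‖Dw W t‖ ^ 2 ∂ν = ν.real Set.univ / W := by
  have hW' : (W : ℝ) ≠ 0 := by exact_mod_cast (show W ≠ 0 by omega)
  simp only [← real_inner_self_eq_norm_sq]
  rw [Dw, integral_inner_tr]
  have h1 : ∀ i ∈ range W, ∑ j ∈ range W, (W : ℝ)⁻¹ * (W : ℝ)⁻¹ *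
      ∫ t, cos (t * ((i : ℝ) - j)) ∂ν = (W : ℝ)⁻¹ * (W : ℝ)⁻¹ * ν.real Set.univ := by
    intro i hi
    rw [sum_eq_single i]
    · simp
    · intro j hj hji
      have := mem_range.1 hi
      have := mem_range.1 hj
      have h2 := h (i - j) (by omega) (by rw [abs_lt]; omega)
      push_cast at h2
      rw [h2, mul_zero]
    · exact fun hh => absurd hi hh
  rw [sum_congr rfl h1, sum_const, card_range, nsmul_eq_mul]
  field_simp

lemma sum_cos_grid {M : ℕ} (hM : 1 ≤ M) (a : ℝ) (z : ℤ) :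
    ∑ j ∈ range M, cos ((a - 2 * π / M * j) * z) =
      if (M : ℤ) ∣ z then M * cos (a * z) else 0 := by
  have hM' : (M : ℝ) ≠ 0 := by exact_mod_cast (show M ≠ 0 by omega)
  split_ifs with hz
  · obtain ⟨k, rfl⟩ := hz
    have h1 : ∀ j ∈ range M, cos ((a - 2 * π / M * j) * ((M : ℤ) * k : ℤ)) =
        cos (a * ((M : ℤ) * k : ℤ)) := by
      intro j _
      rw [← cos_sub_int_mul_two_pi (a * ((M : ℤ) * k : ℤ)) (j * k)]
      congr 1
      push_cast
      field_simp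
    rw [sum_congr rfl h1, sum_const, card_range, nsmul_eq_mul]
  · have h1 := BK.tel (2 * π / M * z) (a * M / (2 * π)) M
    have h2 : 2 * π / M * z * (a * M / (2 * π) - M + 1 / 2) =
        2 * π / M * z * (a * M / (2 * π) + 1 / 2) - z * (2 * π) := by
      field_simp
      ring
    have h3 : ∀ j ∈ range M, cos (2 * π / M * z * (a * M / (2 * π) - j)) =
        cos ((a - 2 * π / M * j) * z) := by
      intro j _
      congr 1
      field_simp
    rw [h2, sin_sub_int_mul_two_pi, sub_self, sum_congr rfl h3] at h1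
    refine (mul_eq_zero.1 h1).resolve_left (mul_ne_zero two_ne_zero fun h4 => hz ?_)
    obtain ⟨n, hn⟩ := sin_eq_zero_iff.1 h4
    refine ⟨n, ?_⟩
    have h5 : (z : ℝ) = M * n := by
      field_simp at hn
      linarith
    exact_mod_cast h5

lemma sum_inv_sq_nat {J : ℕ} (hJ : 1 ≤ J) (n : ℕ) :
    ∑ i ∈ range n, (if J ≤ i then ((i : ℝ) ^ 2)⁻¹ else 0) ≤ 2 / J - 2 / (max n J : ℕ) := by
  induction n with
  | zero => simp
  | succ n ih =>
    rw [sum_range_succ]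
    split_ifs with h
    · rw [max_eq_left h] at ih
      rw [max_eq_left (h.trans (Nat.le_succ n))]
      have h1 : (1 : ℝ) ≤ n := by exact_mod_cast hJ.trans h
      have h2 : ((n : ℝ) ^ 2)⁻¹ ≤ 2 / n - 2 / (n + 1 : ℕ) := by
        push_cast
        rw [div_sub_div _ _ (by positivity) (by positivity), inv_eq_one_div,
          div_le_div_iff₀ (by positivity) (by positivity)]
        nlinarith
      linarith
    · rw [max_eq_right (by omega : n ≤ J)] at ih
      rw [max_eq_right (by omega : n + 1 ≤ J)]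
      linarith

lemma sum_inv_sq {J : ℕ} (hJ : 1 ≤ J) (S : Finset ℤ) :
    ∑ z ∈ S, (if (J : ℤ) ≤ |z| then ((z : ℝ) ^ 2)⁻¹ else 0) ≤ 4 / J := by
  classical
  obtain ⟨n, hn⟩ : ∃ n : ℕ, ∀ z ∈ S, z.natAbs < n :=
    ⟨S.sup Int.natAbs + 1, fun z hz => Nat.lt_succ_of_le (le_sup (f := Int.natAbs) hz)⟩
  set f : ℤ → ℝ := fun z => if (J : ℤ) ≤ |z| then ((z : ℝ) ^ 2)⁻¹ else 0 with hf
  have h0 : ∀ z, 0 ≤ f z := fun z => by
    simp only [hf]
    split_ifs <;> positivity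
  have h1 : S ⊆ (range n).image (fun i : ℕ => (i : ℤ)) ∪ (range n).image fun i : ℕ => -(i : ℤ) := by
    intro z hz
    rw [mem_union, mem_image, mem_image]
    rcases Int.natAbs_eq z with h | h
    · exact Or.inl ⟨_, mem_range.2 (hn z hz), h.symm⟩
    · exact Or.inr ⟨_, mem_range.2 (hn z hz), h.symm⟩
  have h2 := sum_union_inter (s₁ := (range n).image fun i : ℕ => (i : ℤ))
    (s₂ := (range n).image fun i : ℕ => -(i : ℤ)) (f := f)
  rw [sum_image fun a _ b _ h => by exact_mod_cast h,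
    sum_image fun a _ b _ h => by simpa using h] at h2
  have h3 : ∑ i ∈ range n, f (i : ℤ) ≤ 2 / J := by
    have h4 := sum_inv_sq_nat hJ n
    have h5 : (0 : ℝ) ≤ 2 / (max n J : ℕ) := by positivity
    refine le_trans (le_of_eq (sum_congr rfl fun i _ => ?_)) (h4.trans (by linarith))
    simp [hf]
  have h6 : ∑ i ∈ range n, f (-(i : ℤ)) = ∑ i ∈ range n, f (i : ℤ) :=
    sum_congr rfl fun i _ => by simp [hf]
  have h7 := sum_le_sum_of_subset_of_nonneg h1 fun z _ _ => h0 z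
  have h8 := sum_nonneg fun z (_ : z ∈ ((range n).image fun i : ℕ => (i : ℤ)) ∩
    (range n).image fun i : ℕ => -(i : ℤ)) => h0 z
  have h9 : (4 : ℝ) / J = 2 / J + 2 / J := by ring
  linarith

lemma count_le (S : Finset ℤ) {a d v r : ℝ} (hd : 0 < d) (hr : 0 ≤ r) :
    ∑ z ∈ S, (Set.Icc (v - r) (v + r)).indicator (1 : ℝ → ℝ) (a + d * z) ≤ 2 * r / d + 1 := by
  classical
  have h1 : ∑ z ∈ S, (Set.Icc (v - r) (v + r)).indicator (1 : ℝ → ℝ) (a + d * z) =
      ((S.filter fun z : ℤ => a + d * z ∈ Set.Icc (v - r) (v + r)).card : ℝ) := by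
    rw [card_filter]
    push_cast
    exact sum_congr rfl fun z _ => by rw [Set.indicator_apply]; rfl
  have h2 : (S.filter fun z : ℤ => a + d * z ∈ Set.Icc (v - r) (v + r)) ⊆
      Finset.Icc ⌈(v - r - a) / d⌉ ⌊(v + r - a) / d⌋ := by
    intro z hz
    obtain ⟨h3, h4⟩ := (mem_filter.1 hz).2
    rw [Finset.mem_Icc, Int.ceil_le, Int.le_floor, div_le_iff₀ hd, le_div_iff₀ hd]
    constructor <;> linarith
  have h3 := card_le_card h2
  rw [Int.card_Icc] at h3
  have h4 : (((⌊(v + r - a) / d⌋ + 1 - ⌈(v - r - a) / d⌉).toNat : ℤ) : ℝ) ≤ 2 * r / d + 1 := by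
    rw [Int.toNat_eq_max]
    push_cast
    refine max_le ?_ (by positivity)
    have h5 := Int.floor_le ((v + r - a) / d)
    have h6 := Int.le_ceil ((v - r - a) / d)
    have h7 : (v + r - a) / d - (v - r - a) / d = 2 * r / d := by ring
    linarith
  rw [h1]
  exact le_trans (by exact_mod_cast h3) h4

end Pool.Agent.Lib.MP_ecc084_pr.IN
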