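import Pool.Agent.Lib.MP_ecc084_pr.IN.B

/-!
Smeared atoms: the law of `l * t` where `t` has density `(n + 1) t ^ n` on `(0, 1]`, and finite
mixtures of such laws.
-/

open MeasureTheory Finset Real Filter

namespace Pool.Agent.Lib.MP_ecc084_pr.IN

/-- Bounded measurable functions. -/
def Bd (F : ℝ → ℝ) : Prop := Measurable F ∧ ∃ C, ∀ t, |F t| ≤ C

lemma Bd.integrable {F : ℝ → ℝ} (h : Bd F) (ν : Measure ℝ) [IsFiniteMeasure ν] :
    Integrable F ν := by
  obtain ⟨C, hC⟩ := h.2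
  exact Integrable.of_bound h.1.aestronglyMeasurable C (Eventually.of_forall hC)

lemma Bd.comp {F g : ℝ → ℝ} (h : Bd F) (hg : Measurable g) : Bd fun t => F (g t) :=
  ⟨h.1.comp hg, h.2.imp fun _ hC _ => hC _⟩

lemma bd_ind (a b : ℝ) : Bd ((Set.Icc a b).indicator 1) :=
  ⟨measurable_one.indicator measurableSet_Icc, 1, fun t => by
    rw [Set.indicator_apply]
    split_ifs <;> simp⟩

lemma bd_sq {P : ℝ → ℂ} (hP : Continuous P) (h : ∀ t, ‖P t‖ ≤ 1) : Bd fun t => ‖P t‖ ^ 2 :=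
  ⟨(hP.norm.pow 2).measurable, 1, fun t => by
    rw [abs_of_nonneg (sq_nonneg _)]
    exact pow_le_one₀ (norm_nonneg _) (h t)⟩

lemma bd_cos (z : ℝ) : Bd fun t => cos (t * z) :=
  ⟨by fun_prop, 1, fun _ => abs_cos_le_one _⟩

lemma bd_one : Bd fun _ => 1 := ⟨measurable_const, 1, fun _ => by simp⟩

lemma ind_nonneg (a b t : ℝ) : 0 ≤ (Set.Icc a b).indicator (1 : ℝ → ℝ) t :=
  Set.indicator_nonneg (fun _ _ => zero_le_one) t

lemma real_Icc (ν : Measure ℝ) (a b : ℝ) :
    ν.real (Set.Icc a b) = ∫ t, (Set.Icc a b).indicator (1 : ℝ → ℝ) t ∂ν :=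
  (integral_indicator_one measurableSet_Icc).symm

/-- The law with density `(n + 1) t ^ n` on `(0, 1]`. -/
noncomputable def Bt (n : ℕ) : Measure ℝ :=
  (volume.restrict (Set.Ioc 0 1)).withDensity fun t => ENNReal.ofReal ((n + 1) * t ^ n)

lemma integral_Bt' (n : ℕ) (F : ℝ → ℝ) :
    ∫ t, F t ∂Bt n = ∫ t in Set.Ioc (0 : ℝ) 1, (n + 1) * t ^ n * F t := by
  rw [Bt, integral_withDensity_eq_integral_toReal_smul (by fun_prop)
    (Eventually.of_forall fun _ => ENNReal.ofReal_lt_top)]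
  refine setIntegral_congr_fun measurableSet_Ioc fun t ht => ?_
  have := ht.1.le
  simp only [smul_eq_mul]
  rw [ENNReal.toReal_ofReal (by positivity)]

lemma integral_Bt (n : ℕ) (F : ℝ → ℝ) :
    ∫ t, F t ∂Bt n = ∫ t in (0 : ℝ)..1, (n + 1) * t ^ n * F t := by
  rw [integral_Bt', intervalIntegral.integral_of_le zero_le_one]

lemma ae_Bt (n : ℕ) : ∀ᵐ t ∂Bt n, t ∈ Set.Ioc (0 : ℝ) 1 :=
  (withDensity_absolutelyContinuous _ _).ae_le (ae_restrict_mem measurableSet_Ioc)

lemma Bt_le' (n : ℕ) : Bt n ≤ ENNReal.ofReal (n + 1) • volume.restrict (Set.Ioc 0 1) := by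
  rw [Bt, ← withDensity_const]
  refine withDensity_mono ?_
  filter_upwards [ae_restrict_mem measurableSet_Ioc] with t ht
  exact ENNReal.ofReal_le_ofReal
    (mul_le_of_le_one_right (by positivity) (pow_le_one₀ ht.1.le ht.2))

lemma Bt_le (n : ℕ) : Bt n ≤ ENNReal.ofReal (n + 1) • volume := fun S =>
  (Bt_le' n S).trans (by
    simp only [Measure.smul_apply, smul_eq_mul]
    exact mul_le_mul_right (Measure.restrict_le_self S) _)

instance (n : ℕ) : IsFiniteMeasure (Bt n) where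
  measure_univ_lt_top := lt_of_le_of_lt (Bt_le' n Set.univ) (by
    simp only [Measure.smul_apply, smul_eq_mul]
    exact ENNReal.mul_lt_top ENNReal.ofReal_lt_top (measure_lt_top _ _))

instance (n : ℕ) : IsProbabilityMeasure (Bt n) := by
  have h := integral_Bt n fun _ => 1
  simp only [mul_one, integral_const, smul_eq_mul, intervalIntegral.integral_const_mul,
    integral_pow, one_pow] at h
  rw [zero_pow (Nat.succ_ne_zero n), sub_zero, mul_one_div_cancel (by positivity)] at h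
  exact isProbabilityMeasure_iff_real.2 h

lemma integral_Bt_le (n : ℕ) {G : ℝ → ℝ} {a b : ℝ} (ha : 0 ≤ a) (hG : Bd G)
    (h : ∀ t ∈ Set.Ioc (0 : ℝ) 1, G t ≤ b + a * (1 - t)) : ∫ t, G t ∂Bt n ≤ b + a / (n + 1) := by
  have hi : Integrable (fun t : ℝ => a * (1 - t)) (Bt n) :=
    Integrable.of_bound (by fun_prop) a (by
      filter_upwards [ae_Bt n] with t ht
      rw [Real.norm_of_nonneg (mul_nonneg ha (by linarith [ht.2]))]
      exact mul_le_of_le_one_right ha (by linarith [ht.1]))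
  have h1 := integral_mono_ae (hG.integrable _) ((integrable_const b).add hi)
    ((ae_Bt n).mono h)
  refine h1.trans ?_
  simp only [Pi.add_apply]
  rw [integral_add (integrable_const b) hi, integral_const, probReal_univ, one_smul,
    integral_const_mul, integral_Bt]
  have h2 : ∫ t in (0 : ℝ)..1, (n + 1) * t ^ n * (1 - t) = 1 / (n + 2) := by
    have h3 : ∀ t : ℝ, (n + 1) * t ^ n * (1 - t) = (n + 1) * t ^ n - (n + 1) * t ^ (n + 1) :=
      fun t => by ring
    simp only [h3]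
    rw [intervalIntegral.integral_sub (by apply Continuous.intervalIntegrable; fun_prop)
      (by apply Continuous.intervalIntegrable; fun_prop)]
    simp only [intervalIntegral.integral_const_mul, integral_pow, one_pow]
    rw [zero_pow (Nat.succ_ne_zero _), zero_pow (Nat.succ_ne_zero _)]
    push_cast
    field_simp
    ring
  rw [h2, mul_one_div]
  gcongr
  norm_num

lemma integral_Bt_inv (k : ℕ) {G : ℝ → ℝ} {a : ℝ} (ha : 0 ≤ a) (h0 : ∀ t, 0 ≤ G t)
    (h : ∀ t ∈ Set.Ioc (0 : ℝ) 1, G t ≤ a / t + 1) : ∫ t, G t ∂Bt (k + 1) ≤ 2 * a + 1 := by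
  rw [integral_Bt']
  have hc : Continuous fun t : ℝ => a * (k + 2) * t ^ k + (k + 2) * t ^ (k + 1) := by fun_prop
  refine (integral_mono_of_nonneg ?_ (hc.intervalIntegrable 0 1).1 ?_).trans ?_
  · filter_upwards [ae_restrict_mem measurableSet_Ioc] with t ht
    have := ht.1.le
    have := h0 t
    positivity
  · filter_upwards [ae_restrict_mem measurableSet_Ioc] with t ht
    have h1 := ht.1
    refine (mul_le_mul_of_nonneg_left (h t ht) (by positivity)).trans (le_of_eq ?_)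
    push_cast
    field_simp
    ring
  · rw [← intervalIntegral.integral_of_le zero_le_one,
      intervalIntegral.integral_add (by apply Continuous.intervalIntegrable; fun_prop)
      (by apply Continuous.intervalIntegrable; fun_prop)]
    simp only [intervalIntegral.integral_const_mul, integral_pow, one_pow]
    rw [zero_pow (Nat.succ_ne_zero _), zero_pow (Nat.succ_ne_zero _)]
    have h1 : ((k : ℝ) + 2) * ((1 - 0) / ((k + 1 : ℕ) + 1)) = 1 := by
      push_cast
      field_simp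
      ring
    have h2 : ((k : ℝ) + 2) * ((1 - 0) / (k + 1)) ≤ 2 := by
      rw [sub_zero, mul_one_div, div_le_iff₀ (by positivity)]
      linarith [Nat.cast_nonneg (α := ℝ) k]
    rw [h1, mul_assoc]
    nlinarith

lemma Bt_dil (n : ℕ) {F : ℝ → ℝ} (hF : Continuous F) (h0 : ∀ t, 0 ≤ F t) {θ : ℝ} (h1 : 0 < θ)
    (h2 : θ ≤ 1) : θ ^ (n + 1) * ∫ t, F (θ * t) ∂Bt n ≤ ∫ t, F t ∂Bt n := by
  have h3 := intervalIntegral.smul_integral_comp_mul_left (a := 0) (b := 1)
    (f := fun t : ℝ => (n + 1) * t ^ n * F t) θ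
  rw [mul_zero, mul_one, smul_eq_mul] at h3
  have h4 : θ ^ (n + 1) * ∫ t, F (θ * t) ∂Bt n = ∫ t in (0 : ℝ)..θ, (n + 1) * t ^ n * F t := by
    rw [← h3, integral_Bt, pow_succ', mul_assoc, ← intervalIntegral.integral_const_mul]
    congr 2
    funext t
    ring
  rw [h4, integral_Bt]
  refine intervalIntegral.integral_mono_interval le_rfl h1.le h2 ?_
    (by apply Continuous.intervalIntegrable; fun_prop)
  filter_upwards [ae_restrict_mem measurableSet_Ioc] with t ht
  have := ht.1.le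
  have := h0 t
  positivity

/-- The law of `l * t`. -/
noncomputable def V (l : ℝ) (n : ℕ) : Measure ℝ := (Bt n).map fun t => l * t

instance (l : ℝ) (n : ℕ) : IsProbabilityMeasure (V l n) :=
  Measure.isProbabilityMeasure_map (by fun_prop)

lemma integral_V (l : ℝ) (n : ℕ) {F : ℝ → ℝ} (hF : Measurable F) :
    ∫ x, F x ∂V l n = ∫ t, F (l * t) ∂Bt n :=
  integral_map (by fun_prop) hF.aestronglyMeasurable

lemma ae_V (l : ℝ) (n : ℕ) : ∀ᵐ x ∂V l n, |x| ≤ |l| := by
  rw [V, ae_map_iff (by fun_prop) (measurableSet_le (by fun_prop) measurable_const)]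
  filter_upwards [ae_Bt n] with t ht
  rw [abs_mul, abs_of_pos ht.1]
  exact mul_le_of_le_one_right (abs_nonneg l) ht.2

lemma V_le {l H : ℝ} {n : ℕ} (h : (n + 1 : ℝ) ≤ H * |l|) :
    V l n ≤ ENNReal.ofReal H • volume := by
  have hl : l ≠ 0 := by
    rintro rfl
    rw [abs_zero, mul_zero] at h
    linarith [Nat.cast_nonneg (α := ℝ) n]
  refine (Measure.map_mono (Bt_le n) (by fun_prop)).trans ?_
  rw [Measure.map_smul, Real.map_volume_mul_left hl, smul_smul,
    ← ENNReal.ofReal_mul (by positivity)]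
  intro S
  simp only [Measure.smul_apply, smul_eq_mul]
  refine mul_le_mul_left (ENNReal.ofReal_le_ofReal ?_) _
  rwa [abs_inv, ← div_eq_mul_inv, div_le_iff₀ (abs_pos.2 hl)]

lemma V_zero_ge {l δ : ℝ} (hl : 0 < l) (h0 : 0 ≤ δ) :
    min 1 (δ / l) ≤ ∫ t, (Set.Icc (-δ) δ).indicator (1 : ℝ → ℝ) (l * t) ∂Bt 0 := by
  have h1 : 0 ≤ min 1 (δ / l) := le_min zero_le_one (by positivity)
  have h2 : ∫ t, (Set.Icc 0 (min 1 (δ / l))).indicator (1 : ℝ → ℝ) t ∂Bt 0 = min 1 (δ / l) := by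
    rw [integral_Bt']
    simp only [Nat.cast_zero, zero_add, pow_zero, one_mul]
    rw [integral_indicator_one measurableSet_Icc, measureReal_restrict_apply measurableSet_Icc]
    have h3 : Set.Icc 0 (min 1 (δ / l)) ∩ Set.Ioc 0 1 = Set.Ioc 0 (min 1 (δ / l)) := by
      ext t
      exact ⟨fun h => ⟨h.2.1, h.1.2⟩, fun h => ⟨⟨h.1.le, h.2⟩, h.1, h.2.trans (min_le_left _ _)⟩⟩
    rw [h3, Real.volume_real_Ioc_of_le h1, sub_zero]
  rw [← h2]
  refine integral_mono ((bd_ind _ _).integrable _)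
    (((bd_ind _ _).comp (by fun_prop)).integrable _) fun t => ?_
  by_cases ht : t ∈ Set.Icc 0 (min 1 (δ / l))
  · have h3 := (le_div_iff₀ hl).1 (ht.2.trans (min_le_right _ _))
    have h4 := mul_nonneg hl.le ht.1
    have h5 : l * t ∈ Set.Icc (-δ) δ := ⟨by linarith, by linarith⟩
    simp only [Set.indicator_of_mem ht, Set.indicator_of_mem h5, Pi.one_apply, le_refl]
  · simp only [Set.indicator_of_notMem ht]
    exact ind_nonneg _ _ _

variable {ι : Type*}

/-- A finite mixture of smeared atoms. -/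
noncomputable def mix (I : Finset ι) (c l : ι → ℝ) (n : ℕ) : Measure ℝ :=
  ∑ x ∈ I, ENNReal.ofReal (c x) • V (l x) n

instance (I : Finset ι) (c l : ι → ℝ) (n : ℕ) : IsFiniteMeasure (mix I c l n) where
  measure_univ_lt_top := by
    rw [mix, Measure.finsetSum_apply]
    refine ENNReal.sum_lt_top.2 fun x _ => ?_
    simp

variable {I : Finset ι} {c l : ι → ℝ} {n : ℕ}

lemma integral_mix (hc : ∀ x ∈ I, 0 ≤ c x) {F : ℝ → ℝ} (hF : Bd F) :
    ∫ x, F x ∂mix I c l n = ∑ x ∈ I, c x * ∫ t, F (l x * t) ∂Bt n := by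
  rw [mix, integral_finsetSum_measure fun x _ =>
    (hF.integrable _).smul_measure ENNReal.ofReal_ne_top]
  refine sum_congr rfl fun x hx => ?_
  rw [integral_smul_measure, ENNReal.toReal_ofReal (hc x hx), integral_V _ _ hF.1, smul_eq_mul]

lemma mix_univ (hc : ∀ x ∈ I, 0 ≤ c x) : (mix I c l n).real Set.univ = ∑ x ∈ I, c x := by
  simpa using integral_mix (l := l) (n := n) hc bd_one

lemma ae_mix {r : ℝ} (h : ∀ x ∈ I, |l x| ≤ r) : ∀ᵐ y ∂mix I c l n, |y| ≤ r := by
  rw [ae_iff, mix, Measure.finsetSum_apply]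
  refine sum_eq_zero fun x hx => ?_
  have h1 : ∀ᵐ y ∂V (l x) n, |y| ≤ r := (ae_V _ _).mono fun y hy => hy.trans (h x hx)
  rw [Measure.smul_apply, ae_iff.1 h1, smul_zero]

lemma mix_le (hc : ∀ x ∈ I, 0 ≤ c x) {H : ℝ} (h : ∀ x ∈ I, (n + 1 : ℝ) ≤ H * |l x|) :
    mix I c l n ≤ ENNReal.ofReal ((∑ x ∈ I, c x) * H) • volume := by
  intro S
  rw [mix, Measure.finsetSum_apply, ENNReal.ofReal_mul (sum_nonneg hc),
    ENNReal.ofReal_sum_of_nonneg hc, Measure.smul_apply, smul_eq_mul, sum_mul, sum_mul]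
  refine sum_le_sum fun x hx => ?_
  rw [Measure.smul_apply, smul_eq_mul, mul_assoc]
  exact mul_le_mul_right (V_le (h x hx) S) _

lemma mix_dil (hc : ∀ x ∈ I, 0 ≤ c x) {F : ℝ → ℝ} (hF : Continuous F) (hB : Bd F)
    (h0 : ∀ t, 0 ≤ F t) {θ : ℝ} (h1 : 0 < θ) (h2 : θ ≤ 1) :
    θ ^ (n + 1) * ∫ x, F (θ * x) ∂mix I c l n ≤ ∫ x, F x ∂mix I c l n := by
  rw [integral_mix hc hB, integral_mix hc (hB.comp (by fun_prop)), mul_sum]
  refine sum_le_sum fun x hx => ?_
  have h3 := Bt_dil n (F := fun t => F (l x * t)) (by fun_prop) (fun t => h0 _) h1 h2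
  simp only [mul_left_comm (l x) θ] at h3
  rw [mul_left_comm]
  exact mul_le_mul_of_nonneg_left h3 (hc x hx)

lemma real_Icc_le {X : Measure ℝ} {H : ℝ} (hH : 0 ≤ H) (h : X ≤ ENNReal.ofReal H • volume)
    (v : ℝ) {δ : ℝ} (hδ : 0 ≤ δ) : X.real (Set.Icc (v - δ) (v + δ)) ≤ H * (2 * δ) := by
  refine ENNReal.toReal_le_of_le_ofReal (by positivity) ((h _).trans (le_of_eq ?_))
  rw [Measure.smul_apply, smul_eq_mul, Real.volume_Icc, ← ENNReal.ofReal_mul hH]
  congr 2
  ring

lemma integral_Dw_le {X : Measure ℝ} [IsFiniteMeasure X] {H : ℝ} (hH : 0 ≤ H)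
    (h : X ≤ ENNReal.ofReal H • volume) (hs : ∀ᵐ t ∂X, |t| ≤ π) {W : ℕ} (hW : 1 ≤ W) :
    ∫ t, ‖Dw W t‖ ^ 2 ∂X ≤ 2 * π * H / W := by
  have hB := bd_sq (continuous_Dw W) (norm_Dw_le hW)
  have h1 : X ≤ ENNReal.ofReal (2 * π * H) • BK.wh := by
    have h2 : X.restrict (Set.Icc (-π) π) = X :=
      Measure.restrict_eq_self_of_ae_mem (hs.mono fun t ht => abs_le.1 ht)
    have h3 := Measure.restrict_mono (Set.Subset.refl (Set.Icc (-π) π)) h
    rw [h2, Measure.restrict_smul] at h3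
    rw [BK.wh, smul_smul, ← ENNReal.ofReal_mul (by positivity)]
    have h4 : 2 * π * H * (2 * π)⁻¹ = H := by field_simp
    rw [h4]
    exact h3
  refine (integral_mono_measure h1 (Eventually.of_forall fun _ => sq_nonneg _)
    ((hB.integrable _).smul_measure ENNReal.ofReal_ne_top)).trans ?_
  rw [integral_smul_measure, ENNReal.toReal_ofReal (by positivity), smul_eq_mul,
    integral_Dw _ hW fun z hz _ => by rw [BK.wh_cos, if_neg hz], probReal_univ, mul_one_div]

end Pool.Agent.Lib.MP_ecc084_pr.IN
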