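import Pool.Agent.Lib.MP_ecc084_pr.IN.C

/-!
Periodisation of a measure carried by a small interval.
-/

open MeasureTheory Finset Real Filter

namespace Pool.Agent.Lib.MP_ecc084_pr.IN

lemma sum_label (c : ℤ) (M : ℕ) (f : ℤ → ℝ) :
    ∑ j ∈ range M, f (c - j) = ∑ z ∈ (range M).image fun j : ℕ => c - j, f z :=
  (sum_image fun a _ b _ h => by
    have : (a : ℤ) = b := sub_right_injective h
    exact_mod_cast this).symm

/-- The translation vectors. -/
noncomputable def sh (h j : ℕ) : ℝ := 2 * π / (2 * h + 1 : ℕ) * (((h : ℤ) - j : ℤ) : ℝ)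

/-- The sum of the `2 h + 1` translates of `κ` by the multiples of `2 π / (2 h + 1)`. -/
noncomputable def Per (h : ℕ) (κ : Measure ℝ) : Measure ℝ :=
  ∑ j ∈ range (2 * h + 1), κ.map fun x => x + sh h j

variable (h : ℕ) (κ : Measure ℝ) [IsFiniteMeasure κ]

instance : IsFiniteMeasure (Per h κ) where
  measure_univ_lt_top := by
    rw [Per, Measure.finsetSum_apply]
    exact ENNReal.sum_lt_top.2 fun x _ => measure_lt_top _ _

lemma integral_Per {F : ℝ → ℝ} (hF : Bd F) :
    ∫ x, F x ∂Per h κ = ∑ j ∈ range (2 * h + 1), ∫ x, F (x + sh h j) ∂κ := by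
  rw [Per, integral_finsetSum_measure fun x _ => hF.integrable _]
  exact sum_congr rfl fun j _ => integral_map (by fun_prop) hF.1.aestronglyMeasurable

lemma Per_univ : (Per h κ).real Set.univ = (2 * h + 1 : ℕ) * κ.real Set.univ := by
  simpa using integral_Per h κ bd_one

omit [IsFiniteMeasure κ] in
lemma le_Per : κ ≤ Per h κ := by
  intro S
  rw [Per, Measure.finsetSum_apply]
  refine le_trans (le_of_eq ?_) (single_le_sum (f := fun j => (κ.map fun x => x + sh h j) S)
    (fun _ _ => zero_le) (mem_range.2 (show h < 2 * h + 1 by omega)))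
  simp [sh]

lemma Per_cos {z : ℤ} (h0 : z ≠ 0) (hz : |z| < (2 * h + 1 : ℕ)) :
    ∫ t, cos (t * z) ∂Per h κ = 0 := by
  rw [integral_Per h κ (bd_cos _), ← integral_finsetSum _ fun j _ =>
    ((bd_cos (z : ℝ)).comp (by fun_prop)).integrable κ]
  have h1 : ∀ x : ℝ, ∑ j ∈ range (2 * h + 1), cos ((x + sh h j) * z) = 0 := by
    intro x
    have h2 := sum_cos_grid (show 1 ≤ 2 * h + 1 by omega) (x + 2 * π / (2 * h + 1 : ℕ) * h) z
    rw [if_neg fun hd => h0 (Int.eq_zero_of_abs_lt_dvd hd hz)] at h2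
    rw [← h2]
    refine sum_congr rfl fun j _ => ?_
    congr 2
    rw [sh, Int.cast_sub, Int.cast_natCast, Int.cast_natCast]
    ring
  simp only [h1, integral_zero]

omit [IsFiniteMeasure κ] in
lemma Per_le {H : ℝ} (hH : κ ≤ ENNReal.ofReal H • volume) :
    Per h κ ≤ ENNReal.ofReal ((2 * h + 1 : ℕ) * H) • volume := by
  intro S
  rw [Per, Measure.finsetSum_apply, ENNReal.ofReal_mul (Nat.cast_nonneg _), ENNReal.ofReal_natCast,
    Measure.smul_apply, smul_eq_mul, mul_assoc]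
  refine (sum_le_card_nsmul _ _ (ENNReal.ofReal H * volume S) fun j _ => ?_).trans ?_
  · have h1 := Measure.map_mono hH (show Measurable fun x => x + sh h j by fun_prop)
    rw [Measure.map_smul, map_add_right_eq_self volume] at h1
    exact h1 S
  · rw [card_range, nsmul_eq_mul]

lemma abs_sh (j : ℕ) :
    |sh h j| = 2 * (π / (2 * h + 1 : ℕ)) * |(((h : ℤ) - j : ℤ) : ℝ)| := by
  rw [sh, abs_mul, abs_of_pos (by positivity), mul_div_assoc]

lemma add_sh_le {j : ℕ} (hj : j ∈ range (2 * h + 1)) {x : ℝ} (hx : |x| ≤ π / (2 * h + 1 : ℕ)) :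
    |x + sh h j| ≤ π := by
  have h1 : |(((h : ℤ) - j : ℤ) : ℝ)| ≤ h := by
    have := mem_range.1 hj
    have h2 : |(h : ℤ) - j| ≤ h := by rw [abs_le]; omega
    exact_mod_cast h2
  have h2 := abs_add_le x (sh h j)
  have h3 : (0 : ℝ) < π / (2 * h + 1 : ℕ) := by positivity
  have h4 : π / (2 * h + 1 : ℕ) * (2 * h + 1) = π := by
    push_cast
    field_simp
  rw [abs_sh] at h2
  nlinarith

variable {h κ} (hs : ∀ᵐ x ∂κ, |x| ≤ π / (2 * h + 1 : ℕ))

omit [IsFiniteMeasure κ] in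
include hs in
lemma ae_Per : ∀ᵐ t ∂Per h κ, |t| ≤ π := by
  rw [ae_iff, Per, Measure.finsetSum_apply]
  refine sum_eq_zero fun j hj => ae_iff.1 ?_
  rw [ae_map_iff (by fun_prop) (measurableSet_le (by fun_prop) measurable_const)]
  exact hs.mono fun x hx => add_sh_le h hj hx

include hs in
lemma Per_Icc {δ S : ℝ} (hδ : 0 ≤ δ) (hS : ∀ v, κ.real (Set.Icc (v - δ) (v + δ)) ≤ S) (v : ℝ) :
    (Per h κ).real (Set.Icc (v - δ) (v + δ)) ≤
      δ / π * (Per h κ).real Set.univ + 2 * S := by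
  have hM : (0 : ℝ) < (2 * h + 1 : ℕ) := by positivity
  set r := π / (2 * h + 1 : ℕ) with hr
  have hr0 : 0 < r := by positivity
  have hm : 0 ≤ min (κ.real Set.univ) S := le_min measureReal_nonneg (measureReal_nonneg.trans (hS 0))
  have h1 : ∀ j ∈ range (2 * h + 1),
      ∫ x, (Set.Icc (v - δ) (v + δ)).indicator (1 : ℝ → ℝ) (x + sh h j) ∂κ ≤
        (Set.Icc (v - (δ + r)) (v + (δ + r))).indicator (1 : ℝ → ℝ) (sh h j) *
          min (κ.real Set.univ) S := by
    intro j _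
    by_cases hj : sh h j ∈ Set.Icc (v - (δ + r)) (v + (δ + r))
    · have h2 : ∀ x, (Set.Icc (v - δ) (v + δ)).indicator (1 : ℝ → ℝ) (x + sh h j) =
          (Set.Icc (v - sh h j - δ) (v - sh h j + δ)).indicator (1 : ℝ → ℝ) x := by
        intro x
        simp only [Set.indicator_apply, Set.mem_Icc, Pi.one_apply]
        refine if_congr ?_ rfl rfl
        constructor <;> rintro ⟨a, b⟩ <;> constructor <;> linarith
      simp only [h2]
      rw [← real_Icc, Set.indicator_of_mem hj, Pi.one_apply, one_mul]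
      exact le_min (measureReal_mono (Set.subset_univ _) (measure_ne_top _ _)) (hS _)
    · rw [Set.indicator_of_notMem hj, zero_mul]
      refine (integral_eq_zero_of_ae (hs.mono fun x hx => ?_)).le
      refine Set.indicator_of_notMem (fun hh => hj ?_) _
      obtain ⟨a, b⟩ := abs_le.1 hx
      exact ⟨by linarith [hh.1], by linarith [hh.2]⟩
  have h2 := count_le ((range (2 * h + 1)).image fun j : ℕ => (h : ℤ) - j) (a := 0) (d := 2 * r)
    (v := v) (r := δ + r) (by positivity) (by positivity)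
  rw [← sum_label h (2 * h + 1) fun z =>
    (Set.Icc (v - (δ + r)) (v + (δ + r))).indicator (1 : ℝ → ℝ) (0 + 2 * r * z)] at h2
  have h3 : ∀ j : ℕ, 0 + 2 * r * (((h : ℤ) - j : ℤ) : ℝ) = sh h j := fun j => by
    rw [sh, hr, zero_add, mul_div_assoc]
  have h4 : 2 * (δ + r) / (2 * r) + 1 = δ / π * (2 * h + 1 : ℕ) + 2 := by
    rw [hr]
    field_simp
    ring
  simp only [h3] at h2
  rw [h4] at h2
  rw [real_Icc, integral_Per h κ (bd_ind _ _), Per_univ]
  refine (sum_le_sum h1).trans ?_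
  rw [← sum_mul]
  refine (mul_le_mul_of_nonneg_right h2 hm).trans ?_
  have h5 := mul_le_mul_of_nonneg_left (min_le_left (κ.real Set.univ) S)
    (show 0 ≤ δ / π * (2 * h + 1 : ℕ) by positivity)
  linarith [min_le_right (κ.real Set.univ) S]

include hs in
lemma Per_far {F : ℝ → ℝ} (hF : Bd F) {W : ℝ} (hW : 0 < W)
    (h1 : ∀ t, |t| ≤ π → t ^ 2 * F t ≤ (π / W) ^ 2) :
    ∫ t, F t ∂Per h κ ≤ ∫ t, F t ∂κ + 4 * (2 * h + 1 : ℕ) / W ^ 2 * (Per h κ).real Set.univ := by
  have hM : (0 : ℝ) < (2 * h + 1 : ℕ) := by positivity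
  have h2 : ∀ j ∈ range (2 * h + 1), ∫ x, F (x + sh h j) ∂κ ≤
      (if j = h then ∫ t, F t ∂κ else 0) + ((2 * h + 1 : ℕ) / W) ^ 2 * κ.real Set.univ *
        if ((1 : ℕ) : ℤ) ≤ |(h : ℤ) - j| then (((((h : ℤ) - j : ℤ) : ℝ)) ^ 2)⁻¹ else 0 := by
    intro j hj
    by_cases hjh : j = h
    · simp [hjh, sh]
    · have h3 : ((1 : ℕ) : ℤ) ≤ |(h : ℤ) - j| := Int.one_le_abs (by omega)
      have h4 : (1 : ℝ) ≤ |(((h : ℤ) - j : ℤ) : ℝ)| := by exact_mod_cast h3
      rw [if_neg hjh, if_pos h3, zero_add, mul_right_comm, mul_comm, ← smul_eq_mul,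
        ← integral_const]
      refine integral_mono_ae ((hF.comp (by fun_prop)).integrable κ) (integrable_const _)
        (hs.mono fun x hx => ?_)
      have h5 := h1 _ (add_sh_le h hj hx)
      have h6 := abs_sub_abs_le_abs_sub (sh h j) (-x)
      rw [abs_neg, sub_neg_eq_add, add_comm, abs_sh] at h6
      set g := (((h : ℤ) - j : ℤ) : ℝ)
      have h7 : π / (2 * h + 1 : ℕ) * |g| ≤ |x + sh h j| := by
        have : (0 : ℝ) < π / (2 * h + 1 : ℕ) := by positivity
        nlinarith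
      have h8 := pow_le_pow_left₀ (by positivity) h7 2
      rw [sq_abs, mul_pow, sq_abs] at h8
      have h9 : 0 < g ^ 2 := by rw [← sq_abs]; positivity
      show F (x + sh h j) ≤ ((2 * h + 1 : ℕ) / W) ^ 2 * (g ^ 2)⁻¹
      rcases le_total (F (x + sh h j)) 0 with h0 | h0
      · exact h0.trans (by positivity)
      · have h10 := (mul_le_mul_of_nonneg_right h8 h0).trans h5
        rw [← le_div_iff₀' (by positivity)] at h10
        refine h10.trans (le_of_eq ?_)
        field_simp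
  have h3 := sum_inv_sq le_rfl ((range (2 * h + 1)).image fun j : ℕ => (h : ℤ) - j)
  rw [← sum_label h (2 * h + 1) fun z =>
    if ((1 : ℕ) : ℤ) ≤ |z| then ((z : ℝ) ^ 2)⁻¹ else 0] at h3
  rw [integral_Per h κ hF, Per_univ]
  refine (sum_le_sum h2).trans ?_
  rw [sum_add_distrib, sum_ite_eq' , if_pos (mem_range.2 (by omega)), ← mul_sum]
  refine add_le_add le_rfl ((mul_le_mul_of_nonneg_left h3
    (mul_nonneg (sq_nonneg _) measureReal_nonneg)).trans (le_of_eq ?_))
  rw [Nat.cast_one]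
  field_simp

end Pool.Agent.Lib.MP_ecc084_pr.IN
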