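import Pool.Agent.Lib.MP_ecc084_pr.IN.D

/-!
The frequency comb.
-/

open MeasureTheory Finset Real Filter
open scoped InnerProductSpace

namespace Pool.Agent.Lib.MP_ecc084_pr.IN

/-- The positions of the teeth. -/
noncomputable def lam (u : ℝ) (T : ℕ) (z : ℤ) : ℝ := (u + 2 * π * z) / T

/-- The kernel of the full comb. -/
noncomputable def kk (u : ℝ) (T : ℕ) (z : ℤ) : ℝ := if (T : ℤ) ∣ z then T * cos (u * z / T) else 0

variable {ι κ : Type*} {u : ℝ} {T : ℕ}

lemma grid_cos (hT : 1 ≤ T) (c z : ℤ) :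
    ∑ j ∈ range T, cos (lam u T (c - j) * z) = kk u T z := by
  have hT' : (T : ℝ) ≠ 0 := by exact_mod_cast (show T ≠ 0 by omega)
  have h1 : ∀ j ∈ range T, cos (lam u T (c - j) * z) = cos ((lam u T c - 2 * π / T * j) * z) := by
    intro j _
    congr 2
    rw [lam, lam]
    push_cast
    ring
  rw [sum_congr rfl h1, sum_cos_grid hT, kk]
  split_ifs with h
  · obtain ⟨k, rfl⟩ := h
    rw [← cos_add_int_mul_two_pi (u * ((T : ℤ) * k : ℤ) / T) (c * k), lam]
    congr 2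
    push_cast
    field_simp
  · rfl

lemma grid_inner (hT : 1 ≤ T) (g : ℤ) (I : Finset ι) (c : ι → ℝ) (a : ι → ℤ) (J : Finset κ)
    (d : κ → ℝ) (b : κ → ℤ) :
    ∑ j ∈ range T, ⟪tr I c (fun x => a x) (lam u T (g - j)), tr J d (fun y => b y)
      (lam u T (g - j))⟫_ℝ = ∑ x ∈ I, ∑ y ∈ J, c x * d y * kk u T (a x - b y) := by
  simp only [inner_tr]
  rw [sum_comm]
  refine sum_congr rfl fun x _ => ?_
  rw [sum_comm]
  refine sum_congr rfl fun y _ => ?_
  rw [← mul_sum, ← grid_cos hT g, Int.cast_sub]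

lemma kk_zero : kk u T 0 = T := by simp [kk]

lemma kk_small {z : ℤ} (h0 : z ≠ 0) (hz : |z| < T) : kk u T z = 0 :=
  if_neg fun hd => h0 (Int.eq_zero_of_abs_lt_dvd hd hz)

lemma kk_T (hT : 1 ≤ T) : kk u T T = T * cos u ∧ kk u T (-T) = T * cos u := by
  have hT' : (T : ℝ) ≠ 0 := by exact_mod_cast (show T ≠ 0 by omega)
  constructor
  · rw [kk, if_pos dvd_rfl, Int.cast_natCast, mul_div_cancel_right₀ _ hT']
  · rw [kk, if_pos (dvd_neg.2 dvd_rfl), Int.cast_neg, Int.cast_natCast, mul_neg, neg_div,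
      mul_div_cancel_right₀ _ hT', cos_neg]

lemma kk_nonneg (hT : 1 ≤ T) (hu : 0 ≤ cos u) {z : ℤ} (hz : |z| < 2 * T) : 0 ≤ kk u T z := by
  by_cases h : (T : ℤ) ∣ z
  · obtain ⟨k, rfl⟩ := h
    have h1 : |k| < 2 := by
      rw [abs_mul, Nat.abs_cast, mul_comm] at hz
      exact lt_of_mul_lt_mul_right hz (by positivity)
    have h2 : k = 0 ∨ k = 1 ∨ k = -1 := by
      rw [abs_lt] at h1
      omega
    rcases h2 with rfl | rfl | rfl
    · rw [mul_zero, kk_zero]
      positivity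
    · rw [mul_one, (kk_T hT).1]
      positivity
    · rw [mul_neg_one, (kk_T hT).2]
      positivity
  · rw [kk, if_neg h]

lemma strip (hT : 1 ≤ T) (g a b : ℤ) (hab : a ≤ b) (h : b - a ≤ T) (w : ℝ) :
    ∑ j ∈ range T, ‖tr (Finset.Ico a b) (fun _ => w) (fun y => y) (lam u T (g - j))‖ ^ 2 =
      w ^ 2 * T * (b - a) := by
  simp only [← real_inner_self_eq_norm_sq]
  rw [grid_inner hT g _ _ (fun y => y) _ _ fun y => y]
  have h1 : ∀ x ∈ Finset.Ico a b, ∑ y ∈ Finset.Ico a b, w * w * kk u T (x - y) = w ^ 2 * T := by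
    intro x hx
    rw [sum_eq_single x]
    · rw [sub_self, kk_zero, sq]
    · intro y hy hyx
      rw [Finset.mem_Ico] at hx hy
      rw [kk_small (by omega) (by rw [abs_lt]; omega), mul_zero]
    · exact fun hh => absurd hx hh
  rw [sum_congr rfl h1, sum_const, Int.card_Ico, nsmul_eq_mul, mul_comm]
  congr 1
  have := Int.toNat_of_nonneg (sub_nonneg.2 hab)
  exact_mod_cast this

lemma grid_lower {A W : ℕ} (hA : 1 ≤ A) (hW : 1 ≤ W) (hT : T = 4 * A ^ 2 * W)
    (hu : A * cos u = 1) (g : ℤ) {I : Finset ι} {c : ι → ℝ} {a : ι → ℤ} (h0 : ∀ x ∈ I, 0 ≤ c x)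
    (h1 : ∑ x ∈ I, c x = 1) (ha : ∀ x ∈ I, -(T : ℤ) - W ≤ a x ∧ a x < T + 2 * W) :
    1 / 9 ≤ ∑ j ∈ range T, ‖tr I c (fun x => a x) (lam u T (g - j))‖ ^ 2 := by
  have hW3 : 4 * W ≤ T := by
    rw [hT]
    exact Nat.mul_le_mul_right _ (Nat.le_mul_of_pos_right _ (by positivity))
  have hT1 : 1 ≤ T := by omega
  have hT' : (0 : ℝ) < T := by exact_mod_cast hT1
  have hA' : (1 : ℝ) ≤ A := by exact_mod_cast hA
  have hc : 0 ≤ cos u := by
    by_contra hh
    nlinarith [not_le.1 hh]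
  have key : ∀ (s t : ℤ) (w : ℝ), s ≤ t → t - s ≤ T → w ^ 2 * (t - s) ≤ T →
      6 * T * ∑ x ∈ I, ∑ y ∈ Finset.Ico s t, c x * w * kk u T (a x - y) ≤
        9 * T ^ 2 * ∑ j ∈ range T, ‖tr I c (fun x => a x) (lam u T (g - j))‖ ^ 2 + T ^ 2 := by
    intro s t w hst h2 h3
    have h4 := strip (u := u) hT1 g s t hst h2 w
    have h5 := mul_le_mul_of_nonneg_left h3 hT'.le
    rw [← grid_inner hT1 g I c a _ _ fun y => y, mul_sum, mul_sum]
    refine le_trans ?_ (add_le_add le_rfl (show _ ≤ (T : ℝ) ^ 2 from h4.le.trans (by linarith)))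
    rw [← sum_add_distrib]
    refine sum_le_sum fun j _ => ?_
    generalize tr I c (fun x => a x) (lam u T (g - j)) = P
    generalize tr (Finset.Ico s t) (fun _ => w) (fun y => y) (lam u T (g - j)) = Q
    have h6 := mul_le_mul_of_nonneg_left (real_inner_le_norm P Q) (show 0 ≤ 6 * (T : ℝ) by positivity)
    nlinarith [sq_nonneg (3 * T * ‖P‖ - ‖Q‖)]
  have k1 := key (2 * W - T) (-W) 1 (by omega) (by omega) (by
    push_cast; linarith [Nat.cast_nonneg (α := ℝ) W])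
  have k2 := key (-W) (2 * W) A (by omega) (by omega) (by
    rw [hT]; push_cast; nlinarith [Nat.cast_nonneg (α := ℝ) W, sq_nonneg (A : ℝ)])
  have k3 := key (2 * W) (T - W) 1 (by omega) (by omega) (by
    push_cast; linarith [Nat.cast_nonneg (α := ℝ) W])
  have h2 : (T : ℝ) ≤ ∑ x ∈ I, ∑ y ∈ Finset.Ico (2 * W - T : ℤ) (-W), c x * 1 * kk u T (a x - y) +
      ∑ x ∈ I, ∑ y ∈ Finset.Ico (-W : ℤ) (2 * W), c x * A * kk u T (a x - y) +
      ∑ x ∈ I, ∑ y ∈ Finset.Ico (2 * W : ℤ) (T - W), c x * 1 * kk u T (a x - y) := by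
    have h3 : (T : ℝ) = ∑ x ∈ I, c x * T := by rw [← sum_mul, h1, one_mul]
    rw [← sum_add_distrib, ← sum_add_distrib]
    refine le_of_eq_of_le h3 (sum_le_sum fun x hx => ?_)
    obtain ⟨a1, a2⟩ := ha x hx
    have hcx := h0 x hx
    have n1 : ∀ y ∈ Finset.Ico (2 * W - T : ℤ) (-W), 0 ≤ c x * 1 * kk u T (a x - y) := by
      intro y hy
      rw [Finset.mem_Ico] at hy
      have := kk_nonneg hT1 hc (z := a x - y) (by rw [abs_lt]; omega)
      positivity
    have n2 : ∀ y ∈ Finset.Ico (-W : ℤ) (2 * W), 0 ≤ c x * A * kk u T (a x - y) := by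
      intro y hy
      rw [Finset.mem_Ico] at hy
      have := kk_nonneg hT1 hc (z := a x - y) (by rw [abs_lt]; omega)
      positivity
    have n3 : ∀ y ∈ Finset.Ico (2 * W : ℤ) (T - W), 0 ≤ c x * 1 * kk u T (a x - y) := by
      intro y hy
      rw [Finset.mem_Ico] at hy
      have := kk_nonneg hT1 hc (z := a x - y) (by rw [abs_lt]; omega)
      positivity
    have s1 := sum_nonneg n1
    have s2 := sum_nonneg n2
    have s3 := sum_nonneg n3
    have e1 : c x * A * (T * cos u) = c x * T := by linear_combination c x * T * hu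
    by_cases b1 : a x < 2 * W - T
    · have := single_le_sum n2 (a := a x + T) (Finset.mem_Ico.2 ⟨by omega, by omega⟩)
      rw [sub_add_cancel_left, (kk_T hT1).2, e1] at this
      linarith
    by_cases b2 : a x < -W
    · have := single_le_sum n1 (a := a x) (Finset.mem_Ico.2 ⟨by omega, by omega⟩)
      rw [sub_self, kk_zero] at this
      linarith
    by_cases b3 : a x < 2 * W
    · have := single_le_sum n2 (a := a x) (Finset.mem_Ico.2 ⟨by omega, by omega⟩)
      rw [sub_self, kk_zero] at this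
      nlinarith [mul_nonneg (mul_nonneg hcx hT'.le) (sub_nonneg.2 hA')]
    by_cases b4 : a x < T - W
    · have := single_le_sum n3 (a := a x) (Finset.mem_Ico.2 ⟨by omega, by omega⟩)
      rw [sub_self, kk_zero] at this
      linarith
    · have := single_le_sum n2 (a := a x - T) (Finset.mem_Ico.2 ⟨by omega, by omega⟩)
      rw [sub_sub_cancel, (kk_T hT1).1, e1] at this
      linarith
  have h3 := mul_le_mul_of_nonneg_left h2 (show 0 ≤ 6 * (T : ℝ) by positivity)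
  refine le_of_mul_le_mul_left ?_ (show 0 < 27 * (T : ℝ) ^ 2 by positivity)
  nlinarith

lemma abs_lam_le (hu1 : 1 ≤ u) (hu2 : u ≤ π / 2) {J : ℕ} (hJ : 1 ≤ J) {z : ℤ} (hz : |z| ≤ J) :
    |u + 2 * π * z| ≤ 8 * J := by
  have h1 : |(z : ℝ)| ≤ J := by exact_mod_cast hz
  have h2 : (1 : ℝ) ≤ J := by exact_mod_cast hJ
  have h3 := abs_add_le u (2 * π * z)
  rw [abs_mul, abs_of_pos (by positivity : 0 < 2 * π), abs_of_pos (by linarith : 0 < u)] at h3
  have h4 := mul_le_mul_of_nonneg_left h1 (by positivity : 0 ≤ 2 * π)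
  nlinarith [pi_lt_d2]

lemma le_abs_lam (hu1 : 1 ≤ u) (hu2 : u ≤ π / 2) (z : ℤ) :
    1 ≤ |u + 2 * π * z| ∧ π * |(z : ℝ)| ≤ |u + 2 * π * z| := by
  have hp := two_le_pi
  rcases le_or_gt 0 z with h | h
  · have h1 : (0 : ℝ) ≤ z := by exact_mod_cast h
    have h2 : 0 ≤ π * z := by positivity
    rw [abs_of_nonneg h1, abs_of_nonneg (by linarith)]
    constructor <;> linarith
  · have h1 : (z : ℝ) ≤ -1 := by exact_mod_cast (show z ≤ -1 by omega)
    have h2 : π * z ≤ -π := by nlinarith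
    rw [abs_of_neg (show (z : ℝ) < 0 by linarith), abs_of_neg (by linarith)]
    constructor <;> linarith

lemma abs_lam (z : ℤ) : |lam u T z| = |u + 2 * π * z| / T := by
  rw [lam, abs_div, Nat.abs_cast]

/-- The energy carried by the teeth. -/
lemma teeth_lower {A W J : ℕ} (hA : 1 ≤ A) (hW : 1 ≤ W) (hT : T = 4 * A ^ 2 * W)
    (hJ : J = 200 * (4 * A ^ 2) ^ 2) (hu1 : 1 ≤ u) (hu2 : u ≤ π / 2)
    (hu : A * cos u = 1) {I : Finset ι} {c : ι → ℝ} {a : ι → ℤ} (h0 : ∀ x ∈ I, 0 ≤ c x)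
    (h1 : ∑ x ∈ I, c x = 1) (ha : ∀ x ∈ I, |a x| ≤ T + W) :
    9 / 100 ≤ ∑ z ∈ Finset.Icc (-J : ℤ) J, ‖tr I c (fun x => a x) (lam u T z)‖ ^ 2 := by
  classical
  have hW' : (0 : ℝ) < W := by exact_mod_cast hW
  have hA' : (0 : ℝ) < A := by exact_mod_cast hA
  have hT' : (T : ℝ) = 4 * A ^ 2 * W := by rw [hT]; push_cast; ring
  have hT0 : (0 : ℝ) < T := by rw [hT']; positivity
  have hJ1 : 1 ≤ J := by rw [hJ]; exact Nat.succ_le_of_lt (by positivity)
  set h : ℕ := 2 * A ^ 2 * W with hh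
  have hTh : T = 2 * h := by rw [hT, hh]; ring
  have h2 := grid_lower hA hW hT hu ((h : ℤ) - 1) (I := I ×ˢ range W)
    (c := fun x => c x.1 * (W : ℝ)⁻¹) (a := fun x => a x.1 + x.2)
    (fun x hx => mul_nonneg (h0 _ (mem_product.1 hx).1) (by positivity))
    (by rw [sum_product, ← h1]; exact sum_congr rfl fun x _ => by
          simp only [← mul_sum, sum_win hW, mul_one])
    (fun x hx => by
      have b1 := abs_le.1 (ha _ (mem_product.1 hx).1)
      have b2 := mem_range.1 (mem_product.1 hx).2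
      constructor <;> omega)
  set P := tr I c fun x => (a x : ℝ) with hP
  have h3 : ∀ j ∈ range T, ‖tr (I ×ˢ range W) (fun x => c x.1 * (W : ℝ)⁻¹)
      (fun x => ((a x.1 + x.2 : ℤ) : ℝ)) (lam u T ((h : ℤ) - 1 - j))‖ ^ 2 ≤
      (if (h : ℤ) - 1 - j ∈ Finset.Icc (-J : ℤ) J then ‖P (lam u T ((h : ℤ) - 1 - j))‖ ^ 2 else 0) +
        (4 * A ^ 2) ^ 2 * if (J : ℤ) ≤ |(h : ℤ) - 1 - j| then
          ((((h : ℤ) - 1 - j : ℤ) : ℝ) ^ 2)⁻¹ else 0 := by
    intro j hj
    have hj' := mem_range.1 hj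
    set z := (h : ℤ) - 1 - j with hz
    have e1 := tr_prod I c (fun x => (a x : ℝ)) (range W) (fun _ => (W : ℝ)⁻¹) (fun i => (i : ℝ))
      (lam u T z)
    simp only [Int.cast_add, Int.cast_natCast]
    rw [e1, norm_mul, mul_pow]
    have b1 : ‖P (lam u T z)‖ ≤ 1 := norm_tr_le _ h0 h1 _
    have b2 : ‖Dw W (lam u T z)‖ ≤ 1 := norm_Dw_le hW _
    show ‖P (lam u T z)‖ ^ 2 * ‖Dw W (lam u T z)‖ ^ 2 ≤ _
    by_cases hzJ : z ∈ Finset.Icc (-J : ℤ) J
    · rw [if_pos hzJ]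
      refine le_add_of_le_of_nonneg (mul_le_of_le_one_right (sq_nonneg _)
        (pow_le_one₀ (norm_nonneg _) b2)) (mul_nonneg (by positivity) ?_)
      split_ifs <;> positivity
    · have b3 : (J : ℤ) ≤ |z| := by
        rw [Finset.mem_Icc, ← abs_le] at hzJ
        omega
      have b4 : (1 : ℝ) ≤ |(z : ℝ)| := by exact_mod_cast (show (1 : ℤ) ≤ |z| by omega)
      have b5 : |lam u T z| ≤ π := by
        have c1 : (z : ℝ) ≤ h - 1 := by exact_mod_cast (show z ≤ h - 1 by omega)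
        have c2 : -(h : ℝ) ≤ z := by exact_mod_cast (show -(h : ℤ) ≤ z by omega)
        rw [abs_lam, div_le_iff₀ hT0, hTh, abs_le]
        push_cast
        constructor <;> nlinarith [pi_pos]
      have b6 := Dw_far hW b5
      have b7 : π * |(z : ℝ)| / T ≤ |lam u T z| := by
        rw [abs_lam]
        exact div_le_div_of_nonneg_right (le_abs_lam hu1 hu2 z).2 hT0.le
      have b8 := (mul_le_mul_of_nonneg_right b7 (norm_nonneg _)).trans b6
      have b9 : ‖Dw W (lam u T z)‖ ≤ 4 * A ^ 2 / |(z : ℝ)| := by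
        rw [← le_div_iff₀' (by positivity)] at b8
        refine b8.trans (le_of_eq ?_)
        rw [hT']
        field_simp
      rw [if_neg hzJ, if_pos b3, zero_add, ← div_eq_mul_inv, ← sq_abs (z : ℝ), ← div_pow]
      exact (mul_le_of_le_one_left (sq_nonneg _) (pow_le_one₀ (norm_nonneg _) b1)).trans
        (pow_le_pow_left₀ (norm_nonneg _) b9 2)
  have h4 := h2.trans (sum_le_sum h3)
  rw [sum_add_distrib, ← mul_sum, sum_label ((h : ℤ) - 1) T fun z =>
      if z ∈ Finset.Icc (-J : ℤ) J then ‖P (lam u T z)‖ ^ 2 else 0,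
    sum_label ((h : ℤ) - 1) T fun z => if (J : ℤ) ≤ |z| then ((z : ℝ) ^ 2)⁻¹ else 0,
    sum_ite_mem] at h4
  have h5 := sum_le_sum_of_subset_of_nonneg (f := fun z => ‖P (lam u T z)‖ ^ 2)
    (inter_subset_right (s₁ := (range T).image fun j : ℕ => (h : ℤ) - 1 - j)
      (s₂ := Finset.Icc (-J : ℤ) J)) fun _ _ _ => sq_nonneg _
  have h6 := mul_le_mul_of_nonneg_left
    (sum_inv_sq hJ1 ((range T).image fun j : ℕ => (h : ℤ) - 1 - j))
    (show (0 : ℝ) ≤ (4 * A ^ 2) ^ 2 by positivity)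
  have h7 : (4 * (A : ℝ) ^ 2) ^ 2 * (4 / J) = 1 / 50 := by
    rw [hJ]
    push_cast
    field_simp
    norm_num
  linarith

/-- The comb. -/
noncomputable def comb (u : ℝ) (T J n : ℕ) (m : ℝ) : Measure ℝ :=
  mix (Finset.Icc (-J : ℤ) J) (fun _ => m) (lam u T) n

instance (J n : ℕ) (m : ℝ) : IsFiniteMeasure (comb u T J n m) := by
  unfold comb
  infer_instance

lemma sum_teeth (J : ℕ) (x : ℝ) : ∑ _z ∈ Finset.Icc (-J : ℤ) J, x = (2 * J + 1) * x := by
  have h : ((J : ℤ) + 1 - -J).toNat = 2 * J + 1 := by omega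
  rw [sum_const, Int.card_Icc, h, nsmul_eq_mul]
  push_cast
  rfl

variable {J n : ℕ} {m : ℝ}

lemma comb_energy {A W : ℕ} (hA : 1 ≤ A) (hW : 1 ≤ W) (hT : T = 4 * A ^ 2 * W)
    (hJ : J = 200 * (4 * A ^ 2) ^ 2) (hn : 10 ^ 4 * (J : ℝ) ^ 2 ≤ n + 1) (hm : 0 ≤ m)
    (hu1 : 1 ≤ u) (hu2 : u ≤ π / 2)
    (hu : A * cos u = 1) {I : Finset ι} {c : ι → ℝ} {a : ι → ℤ} (h0 : ∀ x ∈ I, 0 ≤ c x)
    (h1 : ∑ x ∈ I, c x = 1) (ha : ∀ x ∈ I, |a x| ≤ T + W) :
    2 / 25 * m ≤ ∫ t, ‖tr I c (fun x => a x) t‖ ^ 2 ∂comb u T J n m := by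
  have h2 := teeth_lower hA hW hT hJ hu1 hu2 hu h0 h1 ha
  have hJ1 : 1 ≤ J := by rw [hJ]; exact Nat.succ_le_of_lt (by positivity)
  have hJ' : (1 : ℝ) ≤ J := by exact_mod_cast hJ1
  have hWT : W ≤ T := by
    rw [hT]
    exact Nat.le_mul_of_pos_left _ (by positivity)
  have hT0 : (0 : ℝ) < T := by exact_mod_cast hW.trans hWT
  set P := tr I c fun x => (a x : ℝ) with hP
  have hP1 : ∀ t, ‖P t‖ ≤ 1 := norm_tr_le _ h0 h1
  have hB := bd_sq (continuous_tr I c fun x => (a x : ℝ)) hP1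
  have h3 : ∀ z ∈ Finset.Icc (-J : ℤ) J, m * (‖P (lam u T z)‖ ^ 2 - 32 * J / (n + 1)) ≤
      m * ∫ t, ‖P (lam u T z * t)‖ ^ 2 ∂Bt n := by
    intro z hz
    refine mul_le_mul_of_nonneg_left ?_ hm
    have b1 := abs_lam_le hu1 hu2 hJ1 (abs_le.2 (Finset.mem_Icc.1 hz))
    have hB' := hB.comp (g := fun t => lam u T z * t) (by fun_prop)
    have b2 := integral_Bt_le n (G := fun t => -‖P (lam u T z * t)‖ ^ 2) (a := 32 * J)
      (b := -‖P (lam u T z)‖ ^ 2) (by positivity)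
      ⟨hB'.1.neg, hB'.2.imp fun C hC t => by rw [abs_neg]; exact hC t⟩ fun t ht => by
        have c1 : ‖P (lam u T z) - P (lam u T z * t)‖ ≤ 16 * J * (1 - t) :=
          norm_tr_sub_le h0 h1 fun x hx => by
            have d1 : |(a x : ℝ)| ≤ 2 * T := by
              exact_mod_cast (show |a x| ≤ 2 * T by have := ha x hx; omega)
            have d2 : lam u T z * a x - lam u T z * t * a x = lam u T z * a x * (1 - t) := by ring
            rw [d2, abs_mul, abs_mul, abs_of_nonneg (sub_nonneg.2 ht.2), abs_lam]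
            refine mul_le_mul_of_nonneg_right ?_ (sub_nonneg.2 ht.2)
            rw [div_mul_eq_mul_div, div_le_iff₀ hT0]
            nlinarith [mul_le_mul b1 d1 (abs_nonneg _) (by positivity)]
        have c2 := norm_sub_norm_le (P (lam u T z)) (P (lam u T z * t))
        have c3 := hP1 (lam u T z)
        have c4 := hP1 (lam u T z * t)
        have c5 := norm_nonneg (P (lam u T z))
        have c6 := norm_nonneg (P (lam u T z * t))
        have c7 := norm_nonneg (P (lam u T z) - P (lam u T z * t))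
        nlinarith
    rw [integral_neg] at b2
    linarith
  rw [comb, integral_mix (fun _ _ => hm) hB]
  refine le_trans ?_ (sum_le_sum h3)
  rw [← mul_sum, sum_sub_distrib, sum_teeth, mul_comm]
  refine mul_le_mul_of_nonneg_left ?_ hm
  have h4 : (2 * (J : ℝ) + 1) * (32 * J / (n + 1)) ≤ 1 / 100 := by
    rw [← mul_div_assoc, div_le_iff₀ (by positivity)]
    nlinarith
  linarith

lemma comb_err {A : ℝ} (hA : 0 < A) (hT : 1 ≤ T) (hJ : 1 ≤ J)
    (hn : 192 * A ^ 2 * (J : ℝ) ^ 3 ≤ n + 1) (hm : 0 ≤ m) (hu1 : 1 ≤ u) (hu2 : u ≤ π / 2)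
    (hu : A * cos u = 1) : ∫ t, (1 - A * cos (t * T)) ^ 2 ∂comb u T J n m ≤ m := by
  have hT0 : (0 : ℝ) < T := by exact_mod_cast hT
  have hJ' : (1 : ℝ) ≤ J := by exact_mod_cast hJ
  have hB : Bd fun t => (1 - A * cos (t * T)) ^ 2 := ⟨by fun_prop, (1 + A) ^ 2, fun t => by
    rw [abs_of_nonneg (sq_nonneg _)]
    have h1 := mul_le_mul_of_nonneg_left (cos_le_one (t * T)) hA.le
    have h2 := mul_le_mul_of_nonneg_left (neg_one_le_cos (t * T)) hA.le
    exact sq_le_sq' (by linarith) (by linarith)⟩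
  have h3 : ∀ z ∈ Finset.Icc (-J : ℤ) J, m * ∫ t, (1 - A * cos (lam u T z * t * T)) ^ 2 ∂Bt n ≤
      m * (64 * A ^ 2 * J ^ 2 / (n + 1)) := by
    intro z hz
    refine mul_le_mul_of_nonneg_left ?_ hm
    have b1 := abs_lam_le hu1 hu2 hJ (abs_le.2 (Finset.mem_Icc.1 hz))
    refine (integral_Bt_le n (b := 0) (a := 64 * A ^ 2 * J ^ 2) (by positivity)
      (hB.comp (g := fun t => lam u T z * t) (by fun_prop)) fun t ht => ?_).trans (by rw [zero_add])
    have c1 : lam u T z * t * T = (u + 2 * π * z) * t := by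
      rw [lam]
      field_simp
    have c2 : cos (u + 2 * π * z) = cos u := by
      rw [← cos_add_int_mul_two_pi u z, mul_comm]
    have c3 := abs_cos_sub_cos_le (u + 2 * π * z) ((u + 2 * π * z) * t)
    have c4 : u + 2 * π * z - (u + 2 * π * z) * t = (u + 2 * π * z) * (1 - t) := by ring
    have c5 := sub_nonneg.2 ht.2
    rw [c4, abs_mul, abs_of_nonneg c5, c2] at c3
    have c6 := pow_le_pow_left₀ (abs_nonneg _) (c3.trans (mul_le_mul_of_nonneg_right b1 c5)) 2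
    have c7 : 1 - A * cos ((u + 2 * π * z) * t) = A * (cos u - cos ((u + 2 * π * z) * t)) := by
      rw [mul_sub, hu]
    have c8 : (1 - t) ^ 2 ≤ 1 - t := by nlinarith [ht.1]
    have c9 := mul_le_mul_of_nonneg_left c8 (show 0 ≤ 64 * (J : ℝ) ^ 2 by positivity)
    rw [sq_abs] at c6
    rw [c1, c7, mul_pow, zero_add]
    nlinarith [mul_le_mul_of_nonneg_left (c6.trans (show (8 * J * (1 - t)) ^ 2 ≤
      64 * (J : ℝ) ^ 2 * (1 - t) by linarith)) (sq_nonneg A)]
  rw [comb, integral_mix (fun _ _ => hm) hB]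
  refine (sum_le_sum h3).trans ?_
  rw [sum_teeth, mul_left_comm]
  refine mul_le_of_le_one_right hm ?_
  rw [← mul_div_assoc, div_le_one (by positivity)]
  nlinarith [mul_le_mul_of_nonneg_left hJ' (show 0 ≤ 64 * A ^ 2 * (J : ℝ) ^ 2 by positivity)]

lemma comb_univ (hm : 0 ≤ m) : (comb u T J n m).real Set.univ = (2 * J + 1) * m := by
  rw [comb, mix_univ fun _ _ => hm, sum_teeth]

lemma comb_count (hT : 1 ≤ T) (hm : 0 ≤ m) (v : ℝ) {δ : ℝ} (hδ : 0 ≤ δ) :
    (comb u T J (n + 1) m).real (Set.Icc (v - δ) (v + δ)) ≤ m * (δ * T + 1) := by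
  have hT0 : (0 : ℝ) < T := by exact_mod_cast hT
  rw [real_Icc, comb, integral_mix (fun _ _ => hm) (bd_ind _ _), ← mul_sum,
    ← integral_finsetSum _ fun z _ => ((bd_ind _ _).comp (by fun_prop)).integrable _]
  refine mul_le_mul_of_nonneg_left ((integral_Bt_inv n (a := δ * T / π) (by positivity)
    (fun t => sum_nonneg fun z _ => ind_nonneg _ _ _) fun t ht => ?_).trans ?_) hm
  · have h1 := ht.1
    have h2 := count_le (Finset.Icc (-J : ℤ) J) (a := u * t / T) (d := 2 * π * t / T) (v := v)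
      (r := δ) (by positivity) hδ
    refine le_trans (le_of_eq (sum_congr rfl fun z _ => ?_)) (h2.trans (le_of_eq ?_))
    · congr 1
      rw [lam]
      ring
    · field_simp
  · have h1 : δ * T / π ≤ δ * T / 2 := div_le_div_of_nonneg_left (by positivity) two_pos two_le_pi
    linarith

lemma comb_lower (hT : 1 ≤ T) (hm : 0 ≤ m) (hu1 : 1 ≤ u) (hu2 : u ≤ π / 2) {δ : ℝ} {r : ℕ}
    (h1 : r ≤ J) (h2 : 8 * (r : ℝ) ≤ δ * T) :
    m * r ≤ (comb u T J n m).real (Set.Icc (-δ) δ) := by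
  have hT0 : (0 : ℝ) < T := by exact_mod_cast hT
  rw [real_Icc, comb, integral_mix (fun _ _ => hm) (bd_ind _ _), ← mul_sum]
  refine mul_le_mul_of_nonneg_left (le_trans ?_ (sum_le_sum_of_subset_of_nonneg
    (Finset.Icc_subset_Icc (show (-J : ℤ) ≤ 1 by omega) (show (r : ℤ) ≤ J by omega))
    fun _ _ _ => integral_nonneg fun _ => ind_nonneg _ _ _)) hm
  have h3 : ∀ z ∈ Finset.Icc (1 : ℤ) r,
      ∫ t, (Set.Icc (-δ) δ).indicator (1 : ℝ → ℝ) (lam u T z * t) ∂Bt n = 1 := by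
    intro z hz
    rw [Finset.mem_Icc] at hz
    have b1 := abs_lam_le hu1 hu2 (J := r) (by omega) (z := z) (by rw [abs_le]; omega)
    have b2 : |lam u T z| ≤ δ := by
      rw [abs_lam, div_le_iff₀ hT0]
      linarith
    rw [integral_congr_ae (g := fun _ => 1) ((ae_Bt n).mono fun t ht => ?_), integral_const,
      probReal_univ, one_smul]
    have b3 : |lam u T z * t| ≤ δ := by
      rw [abs_mul, abs_of_pos ht.1]
      exact (mul_le_of_le_one_right (abs_nonneg _) ht.2).trans b2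
    exact Set.indicator_of_mem (show lam u T z * t ∈ Set.Icc (-δ) δ from abs_le.1 b3) _
  rw [sum_congr rfl h3, sum_const, Int.card_Icc, nsmul_eq_mul, mul_one]
  simp

lemma comb_O (hT : 1 ≤ T) (hm : 0 ≤ m) (hu1 : 1 ≤ u) (hu2 : u ≤ π / 2) (v : ℝ) {δ : ℝ}
    (hδ : 0 ≤ δ) : (comb u T J (n + 1) m).real (Set.Icc (v - δ) (v + δ)) ≤
      8 * (comb u T J (n + 1) m).real (Set.Icc (-δ) δ) + 9 * m := by
  have h0 : 0 ≤ δ * T / 8 := by positivity
  have h1 := Nat.floor_le h0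
  rcases le_total J ⌊δ * T / 8⌋₊ with h | h
  · have h2 : (J : ℝ) ≤ ⌊δ * T / 8⌋₊ := by exact_mod_cast h
    have h3 := comb_lower (n := n + 1) (δ := δ) hT hm hu1 hu2 (le_refl J) (by linarith)
    have h4 : (comb u T J (n + 1) m).real (Set.Icc (v - δ) (v + δ)) ≤ _ :=
      measureReal_mono (Set.subset_univ _) (measure_ne_top _ _)
    rw [comb_univ hm] at h4
    nlinarith [mul_nonneg hm (Nat.cast_nonneg (α := ℝ) J)]
  · have h3 := comb_lower (n := n + 1) (δ := δ) hT hm hu1 hu2 h (by linarith)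
    have h4 := comb_count (u := u) (J := J) (n := n) hT hm v hδ
    have h5 := mul_le_mul_of_nonneg_left (Nat.lt_floor_add_one (δ * T / 8)).le hm
    linarith

end Pool.Agent.Lib.MP_ecc084_pr.IN
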