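import Pool.Agent.Lib.MP_ecc084_pr.IN.E

/-!
The parameters of the construction.
-/

open Finset Real Filter Topology

namespace Pool.Agent.Lib.MP_ecc084_pr.IN

/-- The height parameter. -/
def AA (k : ℕ) : ℕ := 10 ^ 4 * 8 ^ k

/-- The number of teeth on each side. -/
def JJ (k : ℕ) : ℕ := 200 * (4 * AA k ^ 2) ^ 2

/-- The smearing exponent. -/
def NN (k : ℕ) : ℕ := 10 ^ 5 * AA k ^ 2 * JJ k ^ 3

/-- A bound for all the constants of stage `k`. -/
def cc (k : ℕ) : ℕ := 3 * JJ k * (NN k + 2) * (4 * AA k ^ 2)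

/-- The first index of stage `k`. -/
def ss : ℕ → ℕ
  | 0 => 2
  | k + 1 => 4 * ((k + 1) * (2 * cc k + 6) + 2 * ss k + (2 * cc k + 6)) + k + 5

/-- The last index before the gap. -/
def pp (k : ℕ) : ℕ := (k + 1) * (2 * cc k + 6) + 2 * ss k

/-- The first index after the gap. -/
def qq (k : ℕ) : ℕ := pp k + (2 * cc k + 6)

/-- The window length. -/
def WW (k : ℕ) : ℕ := 16 ^ (pp k + cc k + 6)

/-- The period of the comb. -/
def TT (k : ℕ) : ℕ := 4 * AA k ^ 2 * WW k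

/-- The number of translates on each side. -/
def hh : ℕ → ℕ
  | 0 => 0
  | k + 1 => 2 * TT k

lemma ss_succ (k : ℕ) : ss (k + 1) = 4 * qq k + k + 5 := rfl

lemma hh_succ (k : ℕ) : hh (k + 1) = 2 * TT k := rfl

lemma one_le_AA (k : ℕ) : 1 ≤ AA k := Nat.succ_le_of_lt (by unfold AA; positivity)

lemma one_le_JJ (k : ℕ) : 1 ≤ JJ k := Nat.succ_le_of_lt (by
  have := one_le_AA k
  unfold JJ
  positivity)

lemma one_le_WW (k : ℕ) : 1 ≤ WW k := Nat.succ_le_of_lt (by unfold WW; positivity)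

lemma one_le_RR (k : ℕ) : 1 ≤ 4 * AA k ^ 2 := Nat.succ_le_of_lt (by
  have := one_le_AA k
  positivity)

lemma WW_le_TT (k : ℕ) : WW k ≤ TT k := Nat.le_mul_of_pos_left _ (one_le_RR k)

lemma one_le_TT (k : ℕ) : 1 ≤ TT k := (one_le_WW k).trans (WW_le_TT k)

lemma NN_spec (k : ℕ) : 10 ^ 4 * (JJ k : ℝ) ^ 2 ≤ (NN k + 1 : ℕ) + 1 ∧
    192 * (AA k : ℝ) ^ 2 * (JJ k : ℝ) ^ 3 ≤ (NN k + 1 : ℕ) + 1 := by
  have h1 : (1 : ℝ) ≤ AA k := by exact_mod_cast one_le_AA k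
  have h2 : (1 : ℝ) ≤ JJ k := by exact_mod_cast one_le_JJ k
  have h3 : (NN k : ℝ) = 10 ^ 5 * (AA k ^ 2 * JJ k ^ 3) := by
    rw [NN]
    push_cast
    ring
  have h4 : (JJ k : ℝ) ^ 2 ≤ JJ k ^ 3 := pow_le_pow_right₀ h2 (by norm_num)
  have h5 : (JJ k : ℝ) ^ 3 ≤ AA k ^ 2 * JJ k ^ 3 :=
    le_mul_of_one_le_left (by positivity) (one_le_pow₀ h1)
  have h6 : (0 : ℝ) ≤ JJ k ^ 2 := by positivity
  push_cast
  rw [h3, mul_assoc]
  constructor <;> linarith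

lemma le_cc (k : ℕ) : 3 * JJ k ≤ cc k ∧ NN k + 2 ≤ cc k ∧ 4 * AA k ^ 2 ≤ cc k := by
  have h1 := one_le_JJ k
  have h2 := one_le_RR k
  unfold cc
  refine ⟨?_, ?_, Nat.le_mul_of_pos_left _ (by positivity)⟩
  · exact (Nat.le_mul_of_pos_right _ (by positivity)).trans (Nat.le_mul_of_pos_right _ h2)
  · exact (Nat.le_mul_of_pos_left _ (by positivity)).trans (Nat.le_mul_of_pos_right _ h2)

lemma idx (k : ℕ) : 2 * ss k + (2 * cc k + 6) ≤ pp k ∧ pp k + (2 * cc k + 6) = qq k ∧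
    (k + 1) * cc k + k ≤ qq k ∧ (k + 1) * (2 * cc k + 6) ≤ pp k := by
  refine ⟨?_, rfl, ?_, Nat.le_add_right _ _⟩
  · unfold pp
    nlinarith [Nat.zero_le (k * (2 * cc k + 6))]
  · unfold qq pp
    nlinarith [Nat.zero_le (k * cc k), Nat.zero_le (ss k)]

lemma ss_mono : StrictMono ss := strictMono_nat_of_lt_succ fun k => by
  have := idx k
  rw [ss_succ]
  omega

lemma cc_le (k : ℕ) : cc k ≤ 2 ^ cc k := Nat.lt_two_pow_self.le

lemma inv_ss (k : ℕ) : 3 * (2 * hh k + 1) * 2 ^ k ≤ 2 ^ ss k := by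
  cases k with
  | zero => exact (by norm_num : 3 * (2 * 0 + 1) * 2 ^ 0 ≤ 2 ^ 2)
  | succ k =>
    have h1 := one_le_TT k
    have h2 : TT k ≤ 2 ^ cc k * 2 ^ (4 * (pp k + cc k + 6)) := by
      rw [TT, WW, pow_mul]
      exact Nat.mul_le_mul_right _ ((le_cc k).2.2.trans (cc_le k))
    have h3 : 3 * (2 * hh (k + 1) + 1) ≤ 2 ^ 4 * TT k := by
      rw [hh_succ]
      omega
    refine (Nat.mul_le_mul_right _ (h3.trans (Nat.mul_le_mul_left _ h2))).trans ?_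
    rw [← pow_add, ← pow_add, ← pow_add]
    refine Nat.pow_le_pow_right two_pos ?_
    have := (idx k).2.1
    rw [ss_succ]
    omega

lemma MM_le (k : ℕ) : 2 * hh k + 1 ≤ 2 ^ ss k :=
  le_trans ((Nat.le_mul_of_pos_left _ three_pos).trans
    (Nat.le_mul_of_pos_right _ (by positivity))) (inv_ss k)

lemma two_pow_le {a b : ℕ} (h : a ≤ 4 * b) : 2 ^ a ≤ 16 ^ b := by
  rw [show 16 = 2 ^ 4 by norm_num, ← pow_mul]
  exact Nat.pow_le_pow_right two_pos h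

lemma cc_WW (k : ℕ) : 8 * (cc k * WW k) ≤ 16 ^ qq k := by
  have h1 : 8 * cc k ≤ 16 ^ cc k := by
    have h2 := (le_cc k).1
    have h3 := one_le_JJ k
    refine le_trans ?_ (two_pow_le (show 3 + cc k ≤ 4 * cc k by omega))
    rw [pow_add]
    exact Nat.mul_le_mul_left _ (cc_le k)
  rw [← mul_assoc, WW]
  refine (Nat.mul_le_mul_right _ h1).trans ?_
  rw [← pow_add]
  have := (idx k).2.1
  exact Nat.pow_le_pow_right (by norm_num) (by omega)

lemma JJ_pp (k : ℕ) : 8 * JJ k * 16 ^ pp k ≤ WW k := by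
  have h1 : 8 * JJ k ≤ 16 ^ (cc k + 6) := by
    have h2 := (le_cc k).1
    have h3 := cc_le k
    refine le_trans ?_ (two_pow_le (show 3 + cc k ≤ 4 * (cc k + 6) by omega))
    rw [pow_add]
    omega
  rw [WW, add_assoc, pow_add, mul_comm]
  exact Nat.mul_le_mul_left _ h1

lemma MM_le_pp (k : ℕ) : 2 * hh k + 1 ≤ 16 ^ pp k :=
  (MM_le k).trans (two_pow_le (by have := (idx k).1; omega))

lemma MM_le_WW (k : ℕ) : 2 * hh k + 1 ≤ WW k :=
  (MM_le_pp k).trans (Nat.pow_le_pow_right (by norm_num) (by omega))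

lemma hh_mono : Monotone hh := monotone_nat_of_le_succ fun k => by
  have h1 := MM_le_WW k
  have h2 := WW_le_TT k
  rw [hh_succ]
  omega

lemma TT_le_hh {k j : ℕ} (h : k < j) : 2 * TT k ≤ hh j := hh_mono (Nat.succ_le_of_lt h)

lemma le_AA (k : ℕ) : k + 1 ≤ 4 * AA k ^ 2 := by
  have h1 : k < 8 ^ k := Nat.lt_pow_self (by norm_num)
  have h2 : AA k ≤ AA k ^ 2 := Nat.le_self_pow two_ne_zero _
  have h3 : AA k = 10 ^ 4 * 8 ^ k := rfl
  omega

/-- The phase of the comb. -/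
noncomputable def uu (k : ℕ) : ℝ := arccos (AA k : ℝ)⁻¹

lemma uu_spec (k : ℕ) : 1 ≤ uu k ∧ uu k ≤ π / 2 ∧ (AA k : ℝ) * cos (uu k) = 1 := by
  have h1 : (2 : ℝ) ≤ AA k := by
    have h2 : 1 ≤ 8 ^ k := Nat.one_le_pow _ _ (by norm_num)
    have h3 : AA k = 10 ^ 4 * 8 ^ k := rfl
    exact_mod_cast (show 2 ≤ AA k by omega)
  have h2 : (AA k : ℝ)⁻¹ ≤ 1 / 2 := by
    rw [one_div]
    exact inv_anti₀ two_pos h1
  have h3 : (0 : ℝ) < (AA k : ℝ)⁻¹ := by positivity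
  refine ⟨?_, arccos_le_pi_div_two.2 h3.le, ?_⟩
  · have h4 : (AA k : ℝ)⁻¹ ≤ cos 1 := by
      have := one_sub_sq_div_two_le_cos (x := 1)
      linarith
    have h5 := arccos_le_arccos h4
    rwa [arccos_cos zero_le_one (by linarith [two_le_pi])] at h5
  · rw [uu, cos_arccos (by linarith) (by linarith), mul_inv_cancel₀ (by linarith)]

/-- The digits of the exponent. -/
noncomputable def dg (σ : ℕ → Bool) (i : ℕ) : ℝ := if σ i then (1 / 4) ^ i else 0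

/-- The exponent used at stage `k`. -/
noncomputable def al (σ : ℕ → Bool) (k : ℕ) : ℝ := 1 / 4 + (∑ i ∈ range k, dg σ i) / 8

/-- The limiting exponent. -/
noncomputable def alI (σ : ℕ → Bool) : ℝ := 1 / 4 + (∑' i, dg σ i) / 8

lemma dg_mem (σ : ℕ → Bool) (i : ℕ) : 0 ≤ dg σ i ∧ dg σ i ≤ (1 / 4) ^ i := by
  unfold dg
  split_ifs
  · exact ⟨by positivity, le_rfl⟩
  · exact ⟨le_rfl, by positivity⟩

lemma hasSum_quarter : HasSum (fun i : ℕ => (1 / 4 : ℝ) ^ i) (4 / 3) := by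
  have h := hasSum_geometric_of_lt_one (r := (1 / 4 : ℝ)) (by norm_num) (by norm_num)
  norm_num at h
  simpa using h

lemma summable_dg (σ : ℕ → Bool) : Summable (dg σ) :=
  .of_nonneg_of_le (fun i => (dg_mem σ i).1) (fun i => (dg_mem σ i).2) hasSum_quarter.summable

lemma al_mem (σ : ℕ → Bool) (k : ℕ) : 1 / 4 ≤ al σ k ∧ al σ k ≤ alI σ ∧ alI σ ≤ 5 / 12 := by
  have h1 := sum_nonneg fun i (_ : i ∈ range k) => (dg_mem σ i).1
  have h2 := (summable_dg σ).sum_le_tsum (range k) fun i _ => (dg_mem σ i).1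
  have h3 := hasSum_le (fun i => (dg_mem σ i).2) (summable_dg σ).hasSum hasSum_quarter
  unfold al alI
  refine ⟨?_, ?_, ?_⟩ <;> linarith

lemma tendsto_al (σ : ℕ → Bool) : Tendsto (al σ) atTop (𝓝 (alI σ)) :=
  ((summable_dg σ).hasSum.tendsto_sum_nat.div_const 8).const_add _

lemma al_congr {σ τ : ℕ → Bool} {k j : ℕ} (h : ∀ i < k, σ i = τ i) (hj : j ≤ k) :
    al σ j = al τ j := by
  rw [al, al, sum_congr rfl fun i hi => ?_]
  rw [dg, dg, h i ((mem_range.1 hi).trans_le hj)]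

lemma alI_gap {σ τ : ℕ → Bool} {k : ℕ} (h : ∀ i < k, σ i = τ i) (h1 : σ k = true)
    (h2 : τ k = false) : alI τ + (1 / 4) ^ k / 12 ≤ alI σ := by
  have a1 := (summable_dg σ).sum_le_tsum (range (k + 1)) fun i _ => (dg_mem σ i).1
  have a2 := (summable_dg τ).sum_add_tsum_nat_add (k + 1)
  have a3 : ∑' i, dg τ (i + (k + 1)) ≤ (1 / 4) ^ (k + 1) * (4 / 3) :=
    hasSum_le (fun i => (dg_mem τ _).2.trans_eq (by ring))
      ((summable_nat_add_iff (k + 1)).2 (summable_dg τ)).hasSum (hasSum_quarter.mul_left _)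
  have a4 : ∑ i ∈ range k, dg σ i = ∑ i ∈ range k, dg τ i :=
    sum_congr rfl fun i hi => by rw [dg, dg, h i (mem_range.1 hi)]
  have a5 : dg σ k = (1 / 4) ^ k := by simp [dg, h1]
  have a6 : dg τ k = 0 := by simp [dg, h2]
  rw [sum_range_succ] at a1 a2
  rw [pow_succ] at a3
  unfold alI
  linarith

/-- The ratio of consecutive weights at stage `k`. -/
noncomputable def rho (σ : ℕ → Bool) (k : ℕ) : ℝ := 16 ^ (-al σ k)

lemma rho_mem (σ : ℕ → Bool) (k : ℕ) : 1 / 4 ≤ rho σ k ∧ rho σ k ≤ 1 / 2 := by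
  obtain ⟨h1, h2, h3⟩ := al_mem σ k
  have e1 : (16 : ℝ) ^ (-(1 / 2 : ℝ)) = 1 / 4 := by
    rw [show (16 : ℝ) = 4 ^ (2 : ℝ) by norm_num, ← rpow_mul (by norm_num)]
    norm_num
  have e2 : (16 : ℝ) ^ (-(1 / 4 : ℝ)) = 1 / 2 := by
    rw [show (16 : ℝ) = 2 ^ (4 : ℝ) by norm_num, ← rpow_mul (by norm_num)]
    norm_num
  rw [← e1, ← e2]
  exact ⟨rpow_le_rpow_of_exponent_le (by norm_num) (by linarith),
    rpow_le_rpow_of_exponent_le (by norm_num) (by linarith)⟩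

/-- Two exponents that differ by `4 ^ (-k) / 12` cannot both give a height above `64 * 8 ^ k` up to
`2 ^ k`. -/
lemma ratio_contra (k : ℕ) {E a b L H : ℝ} (ha : 0 < a) (ha1 : a ≤ 3 / 4)
    (hgap : a + (1 / 4) ^ k / 12 ≤ b) (hH : 64 * 8 ^ k ≤ H)
    (h1 : |(√(2 * 6 * a * L))⁻¹ * E - H| < 2 ^ k)
    (h2 : |(√(2 * 6 * b * L))⁻¹ * E - H| < 2 ^ k) : False := by
  have hx : (1 : ℝ) ≤ 2 ^ k := one_le_pow₀ (by norm_num)
  have hA : (8 : ℝ) ^ k = (2 ^ k) ^ 3 := by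
    rw [← pow_mul, mul_comm k 3, pow_mul]
    norm_num
  have hB : (1 / 4 : ℝ) ^ k * (2 ^ k) ^ 2 = 1 := by
    rw [← pow_mul, mul_comm k 2, pow_mul, ← mul_pow]
    norm_num
  have hg : (0 : ℝ) < (1 / 4) ^ k := by positivity
  rw [hA] at hH
  generalize (2 : ℝ) ^ k = x at *
  generalize (1 / 4 : ℝ) ^ k = g at *
  have hx3 : x ≤ x ^ 3 := le_self_pow₀ hx (by norm_num)
  rw [abs_lt] at h1 h2
  have hL : 0 < L := by
    by_contra hL
    rw [sqrt_eq_zero_of_nonpos (mul_nonpos_of_nonneg_of_nonpos (by positivity) (not_lt.1 hL))] at h1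
    simp only [inv_zero, zero_mul] at h1
    linarith [h1.1]
  have hb : 0 < b := by linarith
  have hs : 0 < √(2 * 6 * a * L) := sqrt_pos.2 (by positivity)
  have hs' : 0 < √(2 * 6 * b * L) := sqrt_pos.2 (by positivity)
  have a1 : E < √(2 * 6 * a * L) * (H + x) := by
    rw [← inv_mul_lt_iff₀ hs]
    linarith [h1.2]
  have a2 : √(2 * 6 * b * L) * (H - x) < E := by
    rw [← lt_inv_mul_iff₀ hs']
    linarith [h2.1]
  have a3 := pow_lt_pow_left₀ (a2.trans a1) (mul_nonneg hs'.le (by linarith)) two_ne_zero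
  rw [mul_pow, mul_pow, sq_sqrt (by positivity), sq_sqrt (by positivity)] at a3
  have a4 : b * (H - x) ^ 2 < a * (H + x) ^ 2 := by
    refine lt_of_mul_lt_mul_left ?_ (show 0 ≤ 2 * 6 * L by positivity)
    linarith
  have a5 := mul_le_mul_of_nonneg_right hgap (sq_nonneg (H - x))
  have hH0 : 0 < H := by linarith
  have a6 : 4 * (H * x) * a ≤ 4 * (H * x) * (3 / 4) :=
    mul_le_mul_of_nonneg_left ha1 (by positivity)
  have a7 : (7 / 8 * H) ^ 2 ≤ (H - x) ^ 2 := pow_le_pow_left₀ (by positivity) (by linarith) 2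
  have a8 : 64 * x ≤ g * H := by
    have := mul_le_mul_of_nonneg_left hH hg.le
    nlinarith
  have a9 := mul_le_mul_of_nonneg_left a7 hg.le
  have a10 := mul_le_mul_of_nonneg_left a8 hH0.le
  have a11 : 0 < H * x := by positivity
  nlinarith

end Pool.Agent.Lib.MP_ecc084_pr.IN
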