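import Pool.Agent.Lib.MP_ecc084_pr.IN.F

/-!
The measure added at one stage.
-/

open MeasureTheory Finset Real Filter

namespace Pool.Agent.Lib.MP_ecc084_pr.IN

lemma geo_le {r : ℝ} (h0 : 0 ≤ r) (h1 : r < 1) {I : Finset ℕ} {a : ℕ} (h : ∀ i ∈ I, a ≤ i) :
    ∑ i ∈ I, r ^ i ≤ r ^ a / (1 - r) :=
  (sum_le_sum_of_subset_of_nonneg (t := Finset.Ico a (I.sup id + 1))
    (fun i hi => Finset.mem_Ico.2 ⟨h i hi, Nat.lt_succ_of_le (le_sup (f := id) hi)⟩)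
    fun _ _ _ => pow_nonneg h0 _).trans (geom_sum_Ico_le_of_lt_one h0 h1)

lemma geo_le' {x : ℝ} (hx : 2 ≤ x) {I : Finset ℕ} {b : ℕ} (h : ∀ i ∈ I, i ≤ b) :
    ∑ i ∈ I, x ^ i ≤ 2 * x ^ b := by
  have h0 : 0 ≤ x := by linarith
  refine (sum_le_sum_of_subset_of_nonneg (t := range (b + 1))
    (fun i hi => mem_range.2 (Nat.lt_succ_of_le (h i hi))) fun _ _ _ => pow_nonneg h0 _).trans ?_
  clear h
  induction b with
  | zero => simp
  | succ b ih =>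
    rw [sum_range_succ, pow_succ]
    nlinarith [pow_nonneg h0 b]

lemma min_le_rpow {x γ : ℝ} (hx : 0 ≤ x) (h0 : 0 ≤ γ) (h1 : γ ≤ 1) : min 1 x ≤ x ^ γ := by
  rcases le_total x 1 with h | h
  · exact (min_le_right _ _).trans (Real.self_le_rpow_of_le_one hx h h1)
  · exact (min_le_left _ _).trans (Real.one_le_rpow h h0)

lemma add_le_vol {X Y : Measure ℝ} {a b : ℝ} (ha : 0 ≤ a) (hb : 0 ≤ b)
    (hX : X ≤ ENNReal.ofReal a • volume) (hY : Y ≤ ENNReal.ofReal b • volume) :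
    X + Y ≤ ENNReal.ofReal (a + b) • volume := by
  rw [ENNReal.ofReal_add ha hb, add_smul]
  exact add_le_add hX hY

lemma mono_vol {X : Measure ℝ} {a b : ℝ} (h : a ≤ b) (hX : X ≤ ENNReal.ofReal a • volume) :
    X ≤ ENNReal.ofReal b • volume := fun S => (hX S).trans (by
  simp only [Measure.smul_apply, smul_eq_mul]
  exact mul_le_mul_left (ENNReal.ofReal_le_ofReal h) _)

/-- Uniform laws on `(0, 16 ^ (-i)]` with weights `ρ ^ i`. -/
noncomputable def um (ρ : ℝ) (I : Finset ℕ) : Measure ℝ :=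
  mix I (fun i => ρ ^ i) (fun i => (1 / 16) ^ i) 0

variable {ρ : ℝ} {I : Finset ℕ}

instance : IsFiniteMeasure (um ρ I) := by
  unfold um
  infer_instance

lemma um_univ (h0 : 0 ≤ ρ) : (um ρ I).real Set.univ = ∑ i ∈ I, ρ ^ i :=
  mix_univ fun _ _ => pow_nonneg h0 _

lemma um_univ_le (h0 : 0 ≤ ρ) (h1 : ρ ≤ 1 / 2) {a : ℕ} (h : ∀ i ∈ I, a ≤ i) :
    (um ρ I).real Set.univ ≤ 2 * ρ ^ a := by
  rw [um_univ h0]
  refine (geo_le h0 (by linarith) h).trans ?_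
  rw [div_le_iff₀ (by linarith)]
  nlinarith [pow_nonneg h0 a]

lemma ae_um {a : ℕ} (h : ∀ i ∈ I, a ≤ i) : ∀ᵐ y ∂um ρ I, |y| ≤ (1 / 16) ^ a :=
  ae_mix fun i hi => by
    rw [abs_of_pos (by positivity)]
    exact pow_le_pow_of_le_one (by norm_num) (by norm_num) (h i hi)

lemma dens_one {i b : ℕ} (h : i ≤ b) : ((0 : ℕ) + 1 : ℝ) ≤ 16 ^ b * |(1 / 16 : ℝ) ^ i| := by
  rw [abs_of_pos (by positivity), Nat.cast_zero, zero_add, one_div_pow, mul_one_div,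
    one_le_div (by positivity)]
  exact pow_le_pow_right₀ (by norm_num) h

lemma um_le (h0 : 0 ≤ ρ) {b : ℕ} (h : ∀ i ∈ I, i ≤ b) :
    um ρ I ≤ ENNReal.ofReal ((um ρ I).real Set.univ * 16 ^ b) • volume := by
  rw [um_univ h0]
  exact mix_le (fun _ _ => pow_nonneg h0 _) fun i hi => dens_one (h i hi)

lemma um_Icc (h0 : 0 ≤ ρ) (v : ℝ) {δ : ℝ} (hδ : 0 ≤ δ) :
    (um ρ I).real (Set.Icc (v - δ) (v + δ)) ≤ ∑ i ∈ I, ρ ^ i * min 1 (2 * δ * 16 ^ i) := by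
  rw [real_Icc, um, integral_mix (fun _ _ => pow_nonneg h0 _) (bd_ind _ _)]
  refine sum_le_sum fun i _ => mul_le_mul_of_nonneg_left ?_ (pow_nonneg h0 _)
  rw [← integral_V _ _ (bd_ind _ _).1, ← real_Icc]
  exact le_min measureReal_le_one
    ((real_Icc_le (by positivity) (V_le (dens_one le_rfl)) v hδ).trans_eq (mul_comm _ _))

lemma um_ge (h0 : 0 ≤ ρ) {δ : ℝ} (hδ : 0 ≤ δ) :
    ∑ i ∈ I, ρ ^ i * min 1 (δ * 16 ^ i) ≤ (um ρ I).real (Set.Icc (-δ) δ) := by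
  rw [real_Icc, um, integral_mix (fun _ _ => pow_nonneg h0 _) (bd_ind _ _)]
  refine sum_le_sum fun i _ => mul_le_mul_of_nonneg_left ?_ (pow_nonneg h0 _)
  have h := V_zero_ge (l := (1 / 16) ^ i) (by positivity) hδ
  rwa [one_div_pow, div_div_eq_mul_div, div_one, ← one_div_pow] at h

lemma um_ge_one (h0 : 0 ≤ ρ) {δ : ℝ} (hδ : 0 ≤ δ) {i : ℕ} (hi : i ∈ I) :
    ρ ^ i * min 1 (δ * 16 ^ i) ≤ (um ρ I).real (Set.Icc (-δ) δ) :=
  (single_le_sum (f := fun i => ρ ^ i * min 1 (δ * 16 ^ i))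
    (fun _ _ => mul_nonneg (pow_nonneg h0 _) (le_min zero_le_one (by positivity))) hi).trans
    (um_ge h0 hδ)

lemma um_O (h0 : 0 ≤ ρ) (v : ℝ) {δ : ℝ} (hδ : 0 ≤ δ) :
    (um ρ I).real (Set.Icc (v - δ) (v + δ)) ≤ 2 * (um ρ I).real (Set.Icc (-δ) δ) := by
  refine (um_Icc h0 v hδ).trans (le_trans ?_ (mul_le_mul_of_nonneg_left (um_ge h0 hδ) zero_le_two))
  rw [mul_sum]
  refine sum_le_sum fun i _ => ?_
  rw [mul_left_comm]
  refine mul_le_mul_of_nonneg_left ?_ (pow_nonneg h0 _)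
  rw [mul_min_of_nonneg _ _ zero_le_two, mul_assoc]
  exact min_le_min_right _ (by norm_num)

lemma um_up (h0 : 0 ≤ ρ) (v : ℝ) {δ γ : ℝ} (hδ : 0 ≤ δ) (g0 : 0 ≤ γ) (g1 : γ ≤ 1) :
    (um ρ I).real (Set.Icc (v - δ) (v + δ)) ≤ (2 * δ) ^ γ * ∑ i ∈ I, (ρ * 16 ^ γ) ^ i := by
  refine (um_Icc h0 v hδ).trans ?_
  rw [mul_sum]
  refine sum_le_sum fun i _ => (mul_le_mul_of_nonneg_left (min_le_rpow (by positivity) g0 g1)
    (pow_nonneg h0 _)).trans (le_of_eq ?_)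
  rw [mul_rpow (by positivity) (by positivity), mul_pow, ← rpow_pow_comm (by norm_num)]
  ring

lemma um_Dw (h0 : 1 / 4 ≤ ρ) {b : ℕ} (h : ∀ i ∈ I, i ≤ b) {W : ℕ} (hW : 1 ≤ W) :
    ∫ t, ‖Dw W t‖ ^ 2 ∂um ρ I ≤ 4 * π * ((16 * ρ) ^ b / W) := by
  have h1 : 0 ≤ ρ := by linarith
  have hB := bd_sq (continuous_Dw W) (norm_Dw_le hW)
  have h2 := mul_le_mul_of_nonneg_left (geo_le' (show 2 ≤ 16 * ρ by linarith) h)
    (show 0 ≤ 2 * π / W by positivity)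
  rw [um, integral_mix (fun _ _ => pow_nonneg h1 _) hB]
  refine le_trans ?_ (h2.trans_eq (by ring))
  rw [mul_sum]
  refine sum_le_sum fun i _ => ?_
  rw [← integral_V _ _ hB.1]
  refine (mul_le_mul_of_nonneg_left (integral_Dw_le (by positivity) (V_le (dens_one le_rfl))
    ((ae_V _ _).mono fun t ht => ht.trans ?_) hW) (pow_nonneg h1 _)).trans (le_of_eq ?_)
  · rw [abs_of_pos (by positivity)]
    exact (pow_le_one₀ (by norm_num) (by norm_num)).trans (by linarith [two_le_pi])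
  · rw [mul_pow]
    ring

/-- The pieces before the gap. -/
noncomputable def top (ρ : ℝ) (k : ℕ) : Measure ℝ := um ρ (Finset.Icc (ss k) (pp k))

/-- The pieces after the gap. -/
noncomputable def low (ρ : ℝ) (k : ℕ) : Measure ℝ := um ρ (Finset.Ico (qq k) (ss (k + 1)))

/-- The comb of stage `k`. -/
noncomputable def cmb (ρ : ℝ) (k : ℕ) : Measure ℝ :=
  comb (uu k) (TT k) (JJ k) (NN k + 1) (ρ ^ qq k)

/-- The central measure of stage `k`. -/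
noncomputable def ka (ρ : ℝ) (k : ℕ) : Measure ℝ := top ρ k + (low ρ k + cmb ρ k)

variable {k : ℕ}

instance : IsFiniteMeasure (top ρ k) := by
  unfold top
  infer_instance

instance : IsFiniteMeasure (low ρ k) := by
  unfold low
  infer_instance

instance : IsFiniteMeasure (cmb ρ k) := by
  unfold cmb
  infer_instance

instance : IsFiniteMeasure (ka ρ k) := by
  unfold ka
  infer_instance

lemma ka_real (S : Set ℝ) :
    (ka ρ k).real S = (top ρ k).real S + ((low ρ k).real S + (cmb ρ k).real S) := by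
  rw [ka, measureReal_add_apply, measureReal_add_apply]

lemma integral_ka {F : ℝ → ℝ} (hF : Bd F) :
    ∫ t, F t ∂ka ρ k = ∫ t, F t ∂top ρ k + (∫ t, F t ∂low ρ k + ∫ t, F t ∂cmb ρ k) := by
  rw [ka, integral_add_measure (hF.integrable _) (hF.integrable _),
    integral_add_measure (hF.integrable _) (hF.integrable _)]

lemma qq_mem (k : ℕ) : qq k ∈ Finset.Ico (qq k) (ss (k + 1)) :=
  Finset.mem_Ico.2 ⟨le_rfl, by rw [ss_succ]; omega⟩

lemma ae_cmb : ∀ᵐ y ∂cmb ρ k, |y| ≤ (1 / 16) ^ pp k := by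
  refine ae_mix fun z hz => ?_
  have h1 : (0 : ℝ) < TT k := by exact_mod_cast one_le_TT k
  have h2 : 8 * (JJ k : ℝ) * 16 ^ pp k ≤ TT k := by exact_mod_cast (JJ_pp k).trans (WW_le_TT k)
  have h3 := abs_lam_le (uu_spec k).1 (uu_spec k).2.1 (one_le_JJ k) (abs_le.2 (Finset.mem_Icc.1 hz))
  rw [abs_lam, one_div_pow, div_le_div_iff₀ h1 (by positivity), one_mul]
  exact (mul_le_mul_of_nonneg_right h3 (by positivity)).trans h2

lemma ae_ka' : ∀ᵐ y ∂ka ρ k, |y| ≤ (1 / 16) ^ ss k := by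
  have h1 := idx k
  rw [ka, ae_add_measure_iff, ae_add_measure_iff]
  refine ⟨ae_um fun i hi => (Finset.mem_Icc.1 hi).1,
    ae_um fun i hi => le_trans (by omega) (Finset.mem_Ico.1 hi).1, ae_cmb.mono fun y hy => ?_⟩
  exact hy.trans (pow_le_pow_of_le_one (by norm_num) (by norm_num) (by omega))

lemma ae_ka : ∀ᵐ y ∂ka ρ k, |y| ≤ π / (2 * hh k + 1 : ℕ) := by
  refine ae_ka'.mono fun y hy => hy.trans ?_
  have h1 : ((2 * hh k + 1 : ℕ) : ℝ) ≤ 16 ^ ss k := by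
    exact_mod_cast (MM_le k).trans (two_pow_le (by omega))
  rw [one_div_pow]
  exact div_le_div₀ pi_pos.le (by linarith [two_le_pi]) (by positivity) h1

lemma cmb_univ (h0 : 0 ≤ ρ) : (cmb ρ k).real Set.univ = (2 * JJ k + 1) * ρ ^ qq k :=
  comb_univ (pow_nonneg h0 _)

lemma cmb_le' (h0 : 0 ≤ ρ) :
    cmb ρ k ≤ ENNReal.ofReal ((cmb ρ k).real Set.univ * ((NN k + 2) * TT k)) • volume := by
  have h1 : (0 : ℝ) < TT k := by exact_mod_cast one_le_TT k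
  rw [cmb_univ h0, ← sum_teeth]
  refine mix_le (fun _ _ => pow_nonneg h0 _) fun z _ => ?_
  have h2 := (le_abs_lam (uu_spec k).1 (uu_spec k).2.1 z).1
  rw [abs_lam, mul_assoc, mul_div_cancel₀ _ h1.ne']
  push_cast
  nlinarith [Nat.cast_nonneg (α := ℝ) (NN k)]

lemma dens_cmb (k : ℕ) : 3 * (JJ k : ℝ) * ((NN k + 2) * TT k) ≤ 16 ^ qq k := by
  have h1 : 3 * JJ k * ((NN k + 2) * TT k) = cc k * WW k := by
    rw [cc, TT]
    ring
  have h2 := cc_WW k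
  exact_mod_cast (show 3 * JJ k * ((NN k + 2) * TT k) ≤ 16 ^ qq k by omega)

lemma cmb_Icc (h0 : 0 ≤ ρ) (v : ℝ) {δ : ℝ} (hδ : 0 ≤ δ) :
    (cmb ρ k).real (Set.Icc (v - δ) (v + δ)) ≤ ρ ^ qq k * 16 ^ qq k * (2 * δ) := by
  refine real_Icc_le (by positivity) (mono_vol ?_ (cmb_le' h0)) v hδ
  have h1 : (1 : ℝ) ≤ JJ k := by exact_mod_cast one_le_JJ k
  rw [cmb_univ h0, mul_right_comm, mul_comm]
  refine mul_le_mul_of_nonneg_left (le_trans ?_ (dens_cmb k)) (pow_nonneg h0 _)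
  exact mul_le_mul_of_nonneg_right (by linarith) (by positivity)

lemma ka_le (h0 : 0 ≤ ρ) :
    ka ρ k ≤ ENNReal.ofReal ((ka ρ k).real Set.univ * 16 ^ ss (k + 1)) • volume := by
  have h1 := idx k
  have h2 := ss_succ k
  rw [ka_real, add_mul, add_mul]
  refine add_le_vol (by positivity) (by positivity)
    (um_le h0 fun i hi => (Finset.mem_Icc.1 hi).2.trans (by omega))
    (add_le_vol (by positivity) (by positivity) (um_le h0 fun i hi => (Finset.mem_Ico.1 hi).2.le)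
      (mono_vol (mul_le_mul_of_nonneg_left ?_ measureReal_nonneg) (cmb_le' h0)))
  have h3 : (1 : ℝ) ≤ JJ k := by exact_mod_cast one_le_JJ k
  exact (le_mul_of_one_le_left (by positivity) (by linarith)).trans ((dens_cmb k).trans
    (pow_le_pow_right₀ (by norm_num) (by omega)))

lemma low_univ (h0 : 0 ≤ ρ) (h1 : ρ ≤ 1 / 2) : (low ρ k).real Set.univ ≤ 2 * ρ ^ qq k :=
  um_univ_le h0 h1 fun _ hi => (Finset.mem_Ico.1 hi).1

lemma Per_ka_univ (h0 : 0 ≤ ρ) (h1 : ρ ≤ 1 / 2) :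
    (Per (hh k) (ka ρ k)).real Set.univ ≤ (1 / 2) ^ k := by
  have a1 : (top ρ k).real Set.univ ≤ 2 * ρ ^ ss k :=
    um_univ_le h0 h1 fun _ hi => (Finset.mem_Icc.1 hi).1
  have a2 := pow_le_pow_left₀ h0 h1 (ss k)
  have a3 := pow_le_pow_left₀ h0 h1 (qq k)
  have a4 : (2 * JJ k + 3 : ℝ) * (1 / 2) ^ qq k ≤ (1 / 2) ^ ss k := by
    have b1 := idx k
    have b2 := (le_cc k).1
    have b3 := cc_le k
    have b4 := one_le_JJ k
    have b5 : (2 * JJ k + 3) * 2 ^ ss k ≤ 2 ^ qq k :=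
      (Nat.mul_le_mul_right _ (show _ ≤ 2 ^ (cc k + 1) by rw [pow_succ]; omega)).trans (by
        rw [← pow_add]
        exact Nat.pow_le_pow_right two_pos (by omega))
    rw [one_div_pow, one_div_pow, mul_one_div, div_le_div_iff₀ (by positivity) (by positivity),
      one_mul]
    exact_mod_cast b5
  have a5 := mul_le_mul_of_nonneg_left a3 (show (0 : ℝ) ≤ 2 * JJ k + 3 by positivity)
  have a6 : (ka ρ k).real Set.univ ≤ 3 * (1 / 2) ^ ss k := by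
    rw [ka_real, cmb_univ h0]
    linarith [low_univ (k := k) h0 h1]
  have a7 : 3 * ((2 * hh k + 1 : ℕ) : ℝ) * 2 ^ k ≤ 2 ^ ss k := by exact_mod_cast inv_ss k
  rw [Per_univ]
  refine (mul_le_mul_of_nonneg_left a6 (Nat.cast_nonneg _)).trans ?_
  rw [one_div_pow, one_div_pow, mul_one_div, ← mul_div_assoc,
    div_le_div_iff₀ (by positivity) (by positivity)]
  linarith

lemma ka_O (h0 : 0 ≤ ρ) (v : ℝ) {δ : ℝ} (hδ : 0 ≤ δ) :
    (ka ρ k).real (Set.Icc (v - δ) (v + δ)) ≤ 11 * (ka ρ k).real (Set.Icc (-δ) δ) := by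
  have a1 : (top ρ k).real _ ≤ 2 * (top ρ k).real _ := um_O h0 v hδ
  have a2 : (low ρ k).real _ ≤ 2 * (low ρ k).real _ := um_O h0 v hδ
  have a3 : (cmb ρ k).real _ ≤ 8 * (cmb ρ k).real _ + 9 * ρ ^ qq k :=
    comb_O (one_le_TT k) (pow_nonneg h0 _) (uu_spec k).1 (uu_spec k).2.1 v hδ
  have a4 := cmb_Icc (k := k) h0 v hδ
  have a5 : _ ≤ (low ρ k).real _ := um_ge_one h0 hδ (qq_mem k)
  have a6 : 0 ≤ (top ρ k).real (Set.Icc (-δ) δ) := measureReal_nonneg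
  have a7 : 0 ≤ (low ρ k).real (Set.Icc (-δ) δ) := measureReal_nonneg
  have a8 : 0 ≤ (cmb ρ k).real (Set.Icc (-δ) δ) := measureReal_nonneg
  rw [ka_real, ka_real]
  rcases le_total 1 (δ * 16 ^ qq k) with h | h
  · rw [min_eq_left h] at a5
    linarith
  · rw [min_eq_right h] at a5
    linarith

/-- The constant in the upper bound for the mass of intervals. -/
noncomputable def wt (r : ℝ) (k : ℕ) : ℝ :=
  ∑ i ∈ Finset.Icc (ss k) (pp k), r ^ i + (∑ i ∈ Finset.Ico (qq k) (ss (k + 1)), r ^ i +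
    3 * JJ k * r ^ qq k)

lemma ka_up (h0 : 0 ≤ ρ) (v : ℝ) {δ γ : ℝ} (hδ : 0 ≤ δ) (g0 : 0 ≤ γ) (g1 : γ ≤ 1) :
    (ka ρ k).real (Set.Icc (v - δ) (v + δ)) ≤ (2 * δ) ^ γ * wt (ρ * 16 ^ γ) k := by
  have h1 : (1 : ℝ) ≤ JJ k := by exact_mod_cast one_le_JJ k
  rw [ka_real, wt, mul_add, mul_add]
  refine add_le_add (um_up h0 v hδ g0 g1) (add_le_add (um_up h0 v hδ g0 g1) ?_)
  have a1 := cmb_Icc (k := k) h0 v hδ
  have a2 : (cmb ρ k).real (Set.Icc (v - δ) (v + δ)) ≤ _ :=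
    measureReal_mono (Set.subset_univ _) (measure_ne_top _ _)
  rw [cmb_univ h0] at a2
  have a3 := mul_le_mul_of_nonneg_left
    (min_le_rpow (show 0 ≤ 2 * δ * 16 ^ qq k by positivity) g0 g1)
    (show 0 ≤ 3 * JJ k * ρ ^ qq k by positivity)
  have a4 := pow_nonneg h0 (qq k)
  refine le_trans ?_ (a3.trans_eq ?_)
  · rw [mul_min_of_nonneg _ _ (by positivity)]
    refine le_min (by nlinarith) (a1.trans ?_)
    nlinarith [show 0 ≤ ρ ^ qq k * 16 ^ qq k * (2 * δ) by positivity]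
  · rw [mul_rpow (by positivity) (by positivity), mul_pow, ← rpow_pow_comm (by norm_num)]
    ring

lemma wt_nonneg {r : ℝ} (h0 : 0 ≤ r) (k : ℕ) : 0 ≤ wt r k := by
  unfold wt
  positivity

lemma wt_le {r r' : ℝ} (h0 : 0 ≤ r) (h1 : r ≤ r') (h2 : r' < 1) (h3 : r' ^ (k + 1) ≤ 1 / 2) :
    wt r k ≤ (2 / (1 - r') + 1) * r' ^ k := by
  have b1 := idx k
  have b2 : k ≤ ss k := ss_mono.le_apply
  have h4 := h0.trans h1
  have a1 : ∀ I : Finset ℕ, (∀ i ∈ I, k ≤ i) → ∑ i ∈ I, r ^ i ≤ r' ^ k / (1 - r') := fun I h =>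
    (sum_le_sum fun i _ => pow_le_pow_left₀ h0 h1 i).trans (geo_le h4 h2 h)
  have a2 := a1 (Finset.Icc (ss k) (pp k)) fun i hi => b2.trans (Finset.mem_Icc.1 hi).1
  have a3 := a1 (Finset.Ico (qq k) (ss (k + 1))) fun i hi =>
    le_trans (by omega) (Finset.mem_Ico.1 hi).1
  have a4 : r ^ qq k ≤ (1 / 2) ^ cc k * r' ^ k := by
    refine (pow_le_pow_left₀ h0 h1 _).trans ((pow_le_pow_of_le_one h4 h2.le b1.2.2.1).trans ?_)
    rw [pow_add, pow_mul]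
    exact mul_le_mul_of_nonneg_right (pow_le_pow_left₀ (by positivity) h3 _) (by positivity)
  have a5 : 3 * (JJ k : ℝ) * (1 / 2) ^ cc k ≤ 1 := by
    rw [one_div_pow, mul_one_div, div_le_one (by positivity)]
    exact_mod_cast (le_cc k).1.trans (cc_le k)
  have a6 := mul_le_mul_of_nonneg_left a4 (show (0 : ℝ) ≤ 3 * JJ k by positivity)
  have a7 := mul_le_mul_of_nonneg_right a5 (pow_nonneg h4 k)
  have a8 : (2 / (1 - r') + 1) * r' ^ k = r' ^ k / (1 - r') + (r' ^ k / (1 - r') + r' ^ k) := by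
    ring
  rw [wt, a8]
  linarith

lemma ka_low (h0 : 0 ≤ ρ) {δ : ℝ} {i : ℕ} (hδ : 1 ≤ δ * 16 ^ i) (i1 : ss k ≤ i)
    (i2 : i < ss (k + 1)) : ∃ j : ℕ, (k + 1) * j ≤ (k + 2) * i ∧
      ρ ^ j ≤ (ka ρ k).real (Set.Icc (-δ) δ) := by
  have b1 := idx k
  have d0 : 0 ≤ δ := by
    by_contra hh
    nlinarith [not_le.1 hh, show (0 : ℝ) < 16 ^ i by positivity]
  have a6 : 0 ≤ (top ρ k).real (Set.Icc (-δ) δ) := measureReal_nonneg
  have a7 : 0 ≤ (low ρ k).real (Set.Icc (-δ) δ) := measureReal_nonneg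
  have a8 : 0 ≤ (cmb ρ k).real (Set.Icc (-δ) δ) := measureReal_nonneg
  rw [ka_real]
  by_cases c1 : i ≤ pp k
  · have a1 : _ ≤ (top ρ k).real _ := um_ge_one h0 d0 (Finset.mem_Icc.2 ⟨i1, c1⟩)
    rw [min_eq_left hδ] at a1
    exact ⟨i, Nat.mul_le_mul_right _ (by omega), by linarith⟩
  by_cases c2 : qq k ≤ i
  · have a1 : _ ≤ (low ρ k).real _ := um_ge_one h0 d0 (Finset.mem_Ico.2 ⟨c2, i2⟩)
    rw [min_eq_left hδ] at a1
    exact ⟨i, Nat.mul_le_mul_right _ (by omega), by linarith⟩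
  · have a1 : _ ≤ (low ρ k).real _ := um_ge_one h0 d0 (qq_mem k)
    rw [min_eq_left (hδ.trans (mul_le_mul_of_nonneg_left
      (pow_le_pow_right₀ (by norm_num) (by omega)) d0))] at a1
    refine ⟨qq k, ?_, by linarith⟩
    have c3 : (k + 2) * pp k ≤ (k + 2) * i := Nat.mul_le_mul_left _ (by omega)
    rw [← b1.2.1]
    nlinarith [b1.2.2.2]

end Pool.Agent.Lib.MP_ecc084_pr.IN
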