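import Pool.Agent.Lib.MP_ecc084_pr.IN.G

/-!
The spectral measure, and the conditions (S), (D), (O).
-/

open MeasureTheory Finset Real Filter Topology

namespace Pool.Agent.Lib.MP_ecc084_pr.IN

/-- The periodised measure of stage `k`. -/
noncomputable def st (σ : ℕ → Bool) (k : ℕ) : Measure ℝ := Per (hh k) (ka (rho σ k) k)

/-- The mass of stage `k`. -/
noncomputable def bs (σ : ℕ → Bool) (k : ℕ) : ℝ := (st σ k).real Set.univ

/-- The mass of the white noise. -/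
noncomputable def bw (σ : ℕ → Bool) : ℝ := 3 - ∑' k, bs σ k

/-- The measure on the line. -/
noncomputable def nu (σ : ℕ → Bool) : Measure ℝ :=
  ENNReal.ofReal (bw σ) • BK.wh + Measure.sum (st σ)

variable (σ : ℕ → Bool)

instance (k : ℕ) : IsFiniteMeasure (st σ k) := by
  unfold st
  infer_instance

lemma rho_nonneg (k : ℕ) : 0 ≤ rho σ k := le_trans (by norm_num) (rho_mem σ k).1

lemma bs_nonneg (k : ℕ) : 0 ≤ bs σ k := measureReal_nonneg

lemma bs_le (k : ℕ) : bs σ k ≤ (1 / 2) ^ k := Per_ka_univ (rho_nonneg σ k) (rho_mem σ k).2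

lemma summable_bs : Summable (bs σ) :=
  .of_nonneg_of_le (bs_nonneg σ) (bs_le σ) summable_geometric_two

lemma one_le_bw : 1 ≤ bw σ := by
  have h := hasSum_le (bs_le σ) (summable_bs σ).hasSum hasSum_geometric_two
  unfold bw
  linarith

instance : IsFiniteMeasure (Measure.sum (st σ)) where
  measure_univ_lt_top := by
    rw [Measure.sum_apply _ MeasurableSet.univ]
    refine lt_of_le_of_lt (ENNReal.tsum_le_tsum (g := fun k => ENNReal.ofReal (bs σ k))
      fun k => (ofReal_measureReal (measure_ne_top _ _)).ge) ?_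
    rw [← ENNReal.ofReal_tsum_of_nonneg (bs_nonneg σ) (summable_bs σ)]
    exact ENNReal.ofReal_lt_top

instance : IsFiniteMeasure (ENNReal.ofReal (bw σ) • BK.wh) where
  measure_univ_lt_top := by simp

instance : IsFiniteMeasure (nu σ) := by
  unfold nu
  infer_instance

lemma hasSum_nu {F : ℝ → ℝ} (hF : Bd F) :
    HasSum (fun k => ∫ t, F t ∂st σ k) (∫ t, F t ∂nu σ - bw σ * ∫ t, F t ∂BK.wh) := by
  rw [nu, integral_add_measure (hF.integrable _) (hF.integrable _), integral_smul_measure,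
    ENNReal.toReal_ofReal (zero_le_one.trans (one_le_bw σ)), smul_eq_mul, add_sub_cancel_left]
  exact hasSum_integral_measure (hF.integrable _)

lemma integral_nu_le {F : ℝ → ℝ} (hF : Bd F) {y G : ℝ} {g : ℕ → ℝ} (hg : HasSum g G)
    (h0 : ∫ t, F t ∂BK.wh ≤ y) (h : ∀ k, ∫ t, F t ∂st σ k ≤ bs σ k * y + g k) :
    ∫ t, F t ∂nu σ ≤ 3 * y + G := by
  have h1 := hasSum_le h (hasSum_nu σ hF) (((summable_bs σ).hasSum.mul_right y).add hg)
  have h2 := mul_le_mul_of_nonneg_left h0 (zero_le_one.trans (one_le_bw σ))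
  have h3 : bw σ * y = 3 * y - (∑' k, bs σ k) * y := by rw [bw, sub_mul]
  linarith

lemma nu_univ : (nu σ).real Set.univ = 3 := by
  have h := hasSum_nu σ bd_one
  simp only [integral_const, smul_eq_mul, mul_one, probReal_univ] at h
  have h2 := h.unique (summable_bs σ).hasSum
  unfold bw at h2
  linarith

lemma wh_le_nu : BK.wh ≤ nu σ := by
  refine le_trans ?_ (Measure.le_add_right le_rfl)
  intro S
  rw [Measure.smul_apply, smul_eq_mul]
  exact le_mul_of_one_le_left zero_le (ENNReal.one_le_ofReal.2 (one_le_bw σ))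

lemma ka_le_nu (k : ℕ) : ka (rho σ k) k ≤ nu σ :=
  (le_Per _ _).trans ((Measure.le_sum (st σ) k).trans (Measure.le_add_left le_rfl))

lemma st_le (k : ℕ) : st σ k ≤ ENNReal.ofReal (bs σ k * 16 ^ ss (k + 1)) • volume := by
  have h := Per_le (hh k) _ (ka_le (k := k) (rho_nonneg σ k))
  rwa [← mul_assoc, ← Per_univ] at h

lemma ae_st (k : ℕ) : ∀ᵐ t ∂st σ k, |t| ≤ π := ae_Per ae_ka

lemma nu_ac : nu σ ≪ volume :=
  (BK.wh_ac.smul_left _).add_left (Measure.absolutelyContinuous_sum_left fun k =>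
    Measure.absolutelyContinuous_of_le_smul (st_le σ k))

lemma nu_supp : nu σ (Set.Icc (-π) π)ᶜ = 0 := by
  rw [nu, Measure.add_apply, Measure.smul_apply, BK.wh_compl, smul_zero, zero_add,
    Measure.sum_apply_eq_zero]
  exact fun k => (ae_st σ k).mono fun t ht => abs_le.1 ht

lemma st_cos (k : ℕ) {z : ℤ} (h0 : z ≠ 0) (hz : |z| < (2 * hh k + 1 : ℕ)) :
    ∫ t, cos (t * z) ∂st σ k = 0 := Per_cos _ _ h0 hz

lemma cos_nu_eq {σ τ : ℕ → Bool} {k : ℕ} (h : ∀ i < k, σ i = τ i) {z : ℤ}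
    (hz : |z| ≤ 4 * TT k) : ∫ t, cos (t * z) ∂nu σ = ∫ t, cos (t * z) ∂nu τ := by
  by_cases h0 : z = 0
  · simp [h0, nu_univ]
  have h1 := hasSum_nu σ (bd_cos z)
  have h2 := hasSum_nu τ (bd_cos z)
  rw [BK.wh_cos, if_neg h0, mul_zero, sub_zero] at h1 h2
  have e : (fun j => ∫ t, cos (t * z) ∂st σ j) = fun j => ∫ t, cos (t * z) ∂st τ j := by
    funext j
    rcases le_or_gt j k with hj | hj
    · rw [st, st, rho, rho, al_congr h hj]
    · have := TT_le_hh hj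
      rw [st_cos σ j h0 (by omega), st_cos τ j h0 (by omega)]
  rw [e] at h1
  exact h1.unique h2

lemma wh_Icc (v : ℝ) {δ : ℝ} (hδ : 0 ≤ δ) : BK.wh.real (Set.Icc (v - δ) (v + δ)) ≤ δ / π := by
  refine (real_Icc_le (H := (2 * π)⁻¹) (by positivity) (fun S => ?_) v hδ).trans_eq ?_
  · rw [BK.wh]
    simp only [Measure.smul_apply, smul_eq_mul]
    exact mul_le_mul_right (Measure.restrict_le_self S) _
  · field_simp

lemma wh_ball {δ : ℝ} (hδ : 0 ≤ δ) (h : δ ≤ π) : BK.wh.real (Set.Icc (-δ) δ) = δ / π := by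
  have h1 : nu1 (Set.Icc (-δ) δ) = ENNReal.ofReal (δ - -δ) := by
    rw [← Real.volume_Icc]
    exact Measure.restrict_eq_self _ (Set.Icc_subset_Icc (neg_le_neg h) h)
  rw [Measure.real, BK.wh, Measure.smul_apply, h1, smul_eq_mul,
    ← ENNReal.ofReal_mul (by positivity), ENNReal.toReal_ofReal (by
      rw [sub_neg_eq_add]; positivity)]
  field_simp
  ring

lemma nu_Icc (v : ℝ) {δ G : ℝ} (hδ : 0 ≤ δ) {g : ℕ → ℝ} (hg : HasSum g G)
    (h : ∀ k w, (ka (rho σ k) k).real (Set.Icc (w - δ) (w + δ)) ≤ g k) :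
    (nu σ).real (Set.Icc (v - δ) (v + δ)) ≤ 3 * (δ / π) + 2 * G := by
  rw [real_Icc]
  refine integral_nu_le σ (bd_ind _ _) (hg.mul_left 2) ?_ fun k => ?_
  · rw [← real_Icc]
    exact wh_Icc v hδ
  · rw [← real_Icc, mul_comm (bs σ k)]
    exact Per_Icc ae_ka hδ (h k) v

lemma real_mono {X Y : Measure ℝ} [IsFiniteMeasure Y] (h : X ≤ Y) (S : Set ℝ) :
    X.real S ≤ Y.real S := ENNReal.toReal_mono (measure_ne_top _ _) (h S)

lemma nu_O (v : ℝ) {δ : ℝ} (hδ : 0 ≤ δ) :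
    (nu σ).real (Set.Icc (v - δ) (v + δ)) ≤ 25 * (nu σ).real (Set.Icc (-δ) δ) := by
  have h0 : 0 ≤ (nu σ).real (Set.Icc (-δ) δ) := measureReal_nonneg
  rcases le_total δ π with h | h
  · have h1 := hasSum_nu σ (bd_ind (-δ) δ)
    simp only [← real_Icc] at h1
    have h2 := nu_Icc σ v hδ (h1.mul_left 11) fun k w => (ka_O (rho_nonneg σ k) w hδ).trans
      (mul_le_mul_of_nonneg_left (real_mono (le_Per _ _) _) (by norm_num))
    have h3 := real_mono (wh_le_nu σ) (Set.Icc (-δ) δ)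
    have h4 : 0 ≤ bw σ * BK.wh.real (Set.Icc (-δ) δ) :=
      mul_nonneg (zero_le_one.trans (one_le_bw σ)) measureReal_nonneg
    rw [wh_ball hδ h] at h3
    linarith
  · have h1 : (nu σ).real (Set.Icc (-δ) δ)ᶜ = 0 := by
      rw [measureReal_eq_zero_iff]
      exact measure_mono_null (Set.compl_subset_compl.2 (Set.Icc_subset_Icc (neg_le_neg h) h))
        (nu_supp σ)
    have h2 := measureReal_add_measureReal_compl (μ := nu σ) (measurableSet_Icc (a := -δ) (b := δ))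
    have h3 : (nu σ).real (Set.Icc (v - δ) (v + δ)) ≤ _ :=
      measureReal_mono (Set.subset_univ _) (measure_ne_top _ _)
    linarith

lemma nu_pos {δ : ℝ} (hδ : 0 < δ) : 0 < (nu σ).real (Set.Icc (-δ) δ) := by
  have h1 : 0 < min δ π := lt_min hδ pi_pos
  have h2 := real_mono (wh_le_nu σ) (Set.Icc (-min δ π) (min δ π))
  rw [wh_ball h1.le (min_le_right _ _)] at h2
  exact lt_of_lt_of_le (by positivity) (h2.trans (measureReal_mono
    (Set.Icc_subset_Icc (neg_le_neg (min_le_left _ _)) (min_le_left _ _)) (measure_ne_top _ _)))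

lemma nu_up {γ : ℝ} (g0 : 0 ≤ γ) (g1 : γ < alI σ) :
    ∃ C, 0 < C ∧ ∀ δ, 0 ≤ δ → δ ≤ 1 → (nu σ).real (Set.Icc (-δ) δ) ≤ C * δ ^ γ := by
  have g2 : γ ≤ 1 := by linarith [(al_mem σ 0).2.2]
  set r : ℝ := 16 ^ ((γ - alI σ) / 2) with hr
  have r0 : 0 ≤ r := by positivity
  have r1 : r < 1 := rpow_lt_one_of_one_lt_of_neg (by norm_num) (by linarith)
  have hw : ∀ k, 0 ≤ rho σ k * 16 ^ γ := fun k => mul_nonneg (rho_nonneg σ k) (by positivity)
  have hs : Summable fun k => wt (rho σ k * 16 ^ γ) k := by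
    refine Summable.of_norm_bounded_eventually_nat
      ((summable_geometric_of_lt_one r0 r1).mul_left (2 / (1 - r) + 1)) ?_
    filter_upwards [(tendsto_al σ).eventually (lt_mem_nhds (show (γ + alI σ) / 2 < alI σ by
      linarith)), (tendsto_pow_atTop_nhds_zero_of_lt_one r0 r1).eventually
      (gt_mem_nhds (show (0 : ℝ) < 1 / 2 by norm_num))] with k h1 h2
    rw [Real.norm_of_nonneg (wt_nonneg (hw k) k)]
    refine wt_le (hw k) ?_ r1 ((pow_le_pow_of_le_one r0 r1.le (Nat.le_succ k)).trans h2.le)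
    rw [rho, ← rpow_add (by norm_num)]
    exact rpow_le_rpow_of_exponent_le (by norm_num) (by linarith)
  have hG : 0 ≤ ∑' k, wt (rho σ k * 16 ^ γ) k := tsum_nonneg fun k => wt_nonneg (hw k) k
  refine ⟨3 + 2 * (2 ^ γ * ∑' k, wt (rho σ k * 16 ^ γ) k), by positivity, fun δ d0 d1 => ?_⟩
  have h1 := nu_Icc σ 0 d0 (hs.hasSum.mul_left ((2 * δ) ^ γ)) fun k w =>
    ka_up (rho_nonneg σ k) w d0 g0 g2
  have h2 : δ / π ≤ δ ^ γ :=
    (div_le_self d0 (by linarith [two_le_pi])).trans (Real.self_le_rpow_of_le_one d0 d1 g2)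
  rw [zero_sub, zero_add, mul_rpow zero_le_two d0] at h1
  linarith

lemma nu_low {β : ℝ} (hβ : alI σ < β) :
    ∃ δ₀, 0 < δ₀ ∧ ∀ δ, 0 < δ → δ < δ₀ → (δ / 16) ^ β ≤ (nu σ).real (Set.Icc (-δ) δ) := by
  obtain ⟨j₀, hj₀⟩ := exists_nat_one_div_lt (sub_pos.2 hβ)
  refine ⟨(1 / 16) ^ ss j₀, by positivity, fun δ d0 d1 => ?_⟩
  have ex1 : ∃ i : ℕ, 1 ≤ δ * 16 ^ i := by
    obtain ⟨i, hi⟩ := pow_unbounded_of_one_lt (1 / δ) (show (1 : ℝ) < 16 by norm_num)
    exact ⟨i, by rw [mul_comm]; exact ((div_lt_iff₀ d0).1 hi).le⟩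
  obtain ⟨i, i1, i2⟩ : ∃ i : ℕ, 1 ≤ δ * 16 ^ i ∧ ∀ i' < i, δ * 16 ^ i' < 1 :=
    ⟨Nat.find ex1, Nat.find_spec ex1, fun i' h => not_le.1 (Nat.find_min ex1 h)⟩
  have i3 : ss j₀ < i := by
    by_contra hh
    have h1 : (16 : ℝ) ^ i ≤ 16 ^ ss j₀ := pow_le_pow_right₀ (by norm_num) (not_lt.1 hh)
    rw [one_div_pow, lt_div_iff₀ (by positivity)] at d1
    linarith [mul_le_mul_of_nonneg_left h1 d0.le]
  have i4 : δ / 16 ≤ (16 : ℝ) ^ (-(i : ℝ)) := by
    obtain ⟨i', rfl⟩ := Nat.exists_eq_succ_of_ne_zero (show i ≠ 0 by omega)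
    rw [rpow_neg (by norm_num), rpow_natCast, inv_eq_one_div, le_div_iff₀ (by positivity), pow_succ]
    linarith [i2 i' (Nat.lt_succ_self _)]
  have ex2 : ∃ j, i < ss (j + 1) := ⟨i, (Nat.lt_succ_self i).trans_le ss_mono.le_apply⟩
  obtain ⟨j, j1, j2⟩ : ∃ j, i < ss (j + 1) ∧ ∀ j' < j, ss (j' + 1) ≤ i :=
    ⟨Nat.find ex2, Nat.find_spec ex2, fun j' h => not_lt.1 (Nat.find_min ex2 h)⟩
  have j3 : j₀ ≤ j := Nat.le_of_lt_succ (ss_mono.lt_iff_lt.1 (i3.trans j1))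
  have j4 : ss j ≤ i := by
    cases j with
    | zero => exact (ss_mono.monotone (Nat.zero_le _)).trans i3.le
    | succ j => exact j2 j (Nat.lt_succ_self _)
  obtain ⟨l, l1, l2⟩ := ka_low (rho_nonneg σ j) i1 j4 j1
  obtain ⟨a1, a2, a3⟩ := al_mem σ j
  refine le_trans ?_ (l2.trans (real_mono (ka_le_nu σ j) _))
  refine (rpow_le_rpow (by positivity) i4 (by linarith)).trans ?_
  rw [rho, ← rpow_mul (by norm_num), ← rpow_mul_natCast (by norm_num)]
  refine rpow_le_rpow_of_exponent_le (by norm_num) ?_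
  have l3 : ((j : ℝ) + 1) * l ≤ (j + 2) * i := by exact_mod_cast l1
  have l4 : (j₀ : ℝ) ≤ j := by exact_mod_cast j3
  have l5 : (0 : ℝ) ≤ i := Nat.cast_nonneg i
  have l6 : (0 : ℝ) ≤ j := Nat.cast_nonneg j
  rw [div_lt_iff₀ (by positivity)] at hj₀
  have l7 : al σ j * (j + 2) ≤ β * (j + 1) := by nlinarith
  have l8 := mul_le_mul_of_nonneg_left l3 (show 0 ≤ al σ j by linarith)
  have l9 := mul_le_mul_of_nonneg_right l7 l5
  have l10 : al σ j * l ≤ β * i :=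
    le_of_mul_le_mul_left (by linarith) (show (0 : ℝ) < j + 1 by positivity)
  linarith

lemma sy_ball (ν : Measure ℝ) [IsFiniteMeasure ν] (u : EuclideanSpace ℝ (Fin 1)) (δ : ℝ) :
    (BK.sy ν).real (Metric.closedBall u δ) =
      ν.real (Set.Icc (u 0 - δ) (u 0 + δ)) + ν.real (Set.Icc (-u 0 - δ) (-u 0 + δ)) := by
  rw [BK.sy_real ν measurableSet_closedBall]
  congr 2
  · ext t
    simp only [Set.mem_preimage, Metric.mem_closedBall, EuclideanSpace.dist_eq, Fin.sum_univ_one,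
      BK.pt, Real.dist_eq, sqrt_sq_eq_abs, abs_abs, abs_le, Set.mem_Icc]
    constructor <;> rintro ⟨a, b⟩ <;> constructor <;> linarith
  · ext t
    simp only [Set.mem_preimage, Metric.mem_closedBall, EuclideanSpace.dist_eq, Fin.sum_univ_one,
      BK.pt, Real.dist_eq, sqrt_sq_eq_abs, abs_abs, abs_le, Set.mem_Icc, PiLp.neg_apply]
    constructor <;> rintro ⟨a, b⟩ <;> constructor <;> linarith

lemma sy_ball_zero (ν : Measure ℝ) [IsFiniteMeasure ν] (δ : ℝ) :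
    (BK.sy ν).real (Metric.closedBall 0 δ) = 2 * ν.real (Set.Icc (-δ) δ) := by
  rw [sy_ball, two_mul]
  simp

lemma ball_pos (δ : ℝ) (h : 0 < δ) : 0 < (BK.sy (nu σ)).real (Metric.closedBall 0 δ) := by
  rw [sy_ball_zero]
  exact mul_pos two_pos (nu_pos σ h)

lemma cond_O (u : EuclideanSpace ℝ (Fin 1)) (δ : ℝ) (h : 0 < δ) :
    (BK.sy (nu σ)).real (Metric.closedBall u δ) ≤
      25 * (BK.sy (nu σ)).real (Metric.closedBall 0 δ) := by
  rw [sy_ball, sy_ball_zero]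
  linarith [nu_O σ (u 0) h.le, nu_O σ (-u 0) h.le]

lemma cond_D (δ : ℝ) (h : 0 < δ) : (BK.sy (nu σ)).real (Metric.closedBall 0 (2 * δ)) ≤
    50 * (BK.sy (nu σ)).real (Metric.closedBall 0 δ) := by
  have h1 : (nu σ).real (Set.Icc (-(2 * δ)) (2 * δ)) ≤
      (nu σ).real (Set.Icc (-δ - δ) (-δ + δ) ∪ Set.Icc (δ - δ) (δ + δ)) :=
    measureReal_mono (fun t ht => (le_total t 0).imp (fun h => ⟨by linarith [ht.1], by linarith⟩)
      fun h => ⟨by linarith, by linarith [ht.2]⟩) (measure_ne_top _ _)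
  rw [sy_ball_zero, sy_ball_zero]
  linarith [nu_O σ (-δ) h.le, nu_O σ δ h.le, h1.trans (measureReal_union_le _ _)]

lemma cond_S : Tendsto (fun δ : ℝ => log ((BK.sy (nu σ)).real (Metric.closedBall 0 δ)) / log δ)
    (𝓝[>] 0) (𝓝 (alI σ)) := by
  have hlim : ∀ c : ℝ, Tendsto (fun δ : ℝ => c / log δ) (𝓝[>] 0) (𝓝 0) := fun c =>
    (tendsto_const_nhds (x := c)).div_atBot tendsto_log_nhdsGT_zero
  have ha0 : 0 < alI σ := by linarith [(al_mem σ 0).1, (al_mem σ 0).2.1]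
  refine tendsto_order.2 ⟨fun a ha => ?_, fun a ha => ?_⟩
  · obtain ⟨γ, g1, g2⟩ := exists_between (max_lt ha ha0)
    obtain ⟨C, C0, hC⟩ := nu_up σ ((le_max_right _ _).trans g1.le) g2
    filter_upwards [(hlim (log (2 * C))).eventually (lt_mem_nhds (sub_neg.2
      ((le_max_left _ _).trans_lt g1))), Ioo_mem_nhdsGT (zero_lt_one' ℝ)] with δ h1 hδ
    have h2 := log_neg hδ.1 hδ.2
    have h3 := log_le_log (ball_pos σ δ hδ.1) (show _ ≤ 2 * C * δ ^ γ by
      rw [sy_ball_zero]; linarith [hC δ hδ.1.le hδ.2.le])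
    rw [log_mul (by positivity) (rpow_pos_of_pos hδ.1 _).ne', log_rpow hδ.1] at h3
    rw [lt_div_iff_of_neg h2] at h1 ⊢
    linarith
  · obtain ⟨β, g1, g2⟩ := exists_between ha
    obtain ⟨δ₀, d0, hd⟩ := nu_low σ g1
    filter_upwards [(hlim (-(β * log 16))).eventually (gt_mem_nhds (sub_pos.2 g2)),
      Ioo_mem_nhdsGT (zero_lt_one' ℝ), Ioo_mem_nhdsGT d0] with δ h1 hδ hδ'
    have h2 := log_neg hδ.1 hδ.2
    have h4 := hδ.1
    have h3 := log_le_log (by positivity) (show (δ / 16) ^ β ≤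
      (BK.sy (nu σ)).real (Metric.closedBall 0 δ) by
        rw [sy_ball_zero]; linarith [hd δ hδ.1 hδ'.2, nu_pos σ hδ.1])
    rw [log_rpow (by positivity), log_div h4.ne' (by norm_num)] at h3
    rw [div_lt_iff_of_neg h2] at h1 ⊢
    linarith

end Pool.Agent.Lib.MP_ecc084_pr.IN
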