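import Pool.Agent.Lib.MP_ecc084_pr.IN.H

/-!
The equilibrium potential is large somewhere in a window near the centre.
-/

open MeasureTheory Finset Real Filter Topology
open scoped InnerProductSpace

namespace Pool.Agent.Lib.MP_ecc084_pr.IN

lemma bd_const (c : ℝ) : Bd fun _ => c := ⟨measurable_const, |c|, fun _ => le_rfl⟩

lemma Bd.add {F G : ℝ → ℝ} (hF : Bd F) (hG : Bd G) : Bd fun t => F t + G t := by
  obtain ⟨C, hC⟩ := hF.2
  obtain ⟨C', hC'⟩ := hG.2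
  exact ⟨hF.1.add hG.1, C + C', fun t => (abs_add_le _ _).trans (add_le_add (hC t) (hC' t))⟩

lemma Bd.mul {F G : ℝ → ℝ} (hF : Bd F) (hG : Bd G) : Bd fun t => F t * G t := by
  obtain ⟨C, hC⟩ := hF.2
  obtain ⟨C', hC'⟩ := hG.2
  refine ⟨hF.1.mul hG.1, C * C', fun t => ?_⟩
  rw [abs_mul]
  exact mul_le_mul (hC t) (hC' t) (abs_nonneg _) ((abs_nonneg _).trans (hC t))

lemma bd_inner {P D : ℝ → ℂ} (hD : Continuous D) (hP : Continuous P) (D1 : ∀ t, ‖D t‖ ≤ 1)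
    (P1 : ∀ t, ‖P t‖ ≤ 1) : Bd fun t => ⟪D t, P t⟫_ℝ :=
  ⟨(hD.inner hP).measurable, 1, fun t => (abs_real_inner_le_norm _ _).trans
    (mul_le_one₀ (D1 t) (norm_nonneg _) (P1 t))⟩

lemma integral_le_half {F G H : ℝ → ℝ} (Y : Measure ℝ) [IsFiniteMeasure Y] (hF : Bd F)
    (hG : Bd G) (hH : Bd H) (h : ∀ t, 2 * F t ≤ G t + H t) :
    2 * ∫ t, F t ∂Y ≤ ∫ t, G t ∂Y + ∫ t, H t ∂Y := by
  rw [← integral_add (hG.integrable _) (hH.integrable _), ← integral_const_mul]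
  exact integral_mono ((hF.integrable _).const_mul _) ((hG.add hH).integrable _) h

lemma height_abs (X L C : Measure ℝ) [IsFiniteMeasure X] [IsFiniteMeasure L] [IsFiniteMeasure C]
    {P D : ℝ → ℂ} (hD : Continuous D) (hP : Continuous P) (D1 : ∀ t, ‖D t‖ ≤ 1)
    (P1 : ∀ t, ‖P t‖ ≤ 1) {T A m : ℝ} (hA : 0 ≤ A)
    (h1 : ∫ t, ‖P t‖ ^ 2 ∂(X + (L + C)) ≤ ∫ t, cos (t * T) * ⟪D t, P t⟫_ℝ ∂(X + (L + C)))
    (h2 : 2 / 25 * m ≤ ∫ t, ‖P t‖ ^ 2 ∂C) (h3 : ∫ t, (1 - A * cos (t * T)) ^ 2 ∂C ≤ m)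
    (h4 : ∫ t, ‖D t‖ ^ 2 ∂X ≤ m / 50) (h5 : L.real Set.univ ≤ 2 * m)
    (h6 : L.real Set.univ - m / 50 ≤ ∫ t, ‖P t‖ ^ 2 ∂L) :
    (A / 52 - 26) * ∫ t, ‖P t‖ ^ 2 ∂(X + (L + C)) ≤ ∫ t, ⟪D t, P t⟫_ℝ ∂(X + (L + C)) := by
  have b1 := bd_sq hD D1
  have b2 := bd_sq hP P1
  have b3 := bd_inner hD hP D1 P1
  have b4 := (bd_cos T).mul b3
  have b5 : Bd fun t => 1 + -A * cos (t * T) := (bd_const 1).add ((bd_const (-A)).mul (bd_cos T))
  have split : ∀ {F : ℝ → ℝ}, Bd F →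
      ∫ t, F t ∂(X + (L + C)) = ∫ t, F t ∂X + (∫ t, F t ∂L + ∫ t, F t ∂C) := fun hF => by
    rw [integral_add_measure (hF.integrable _) (hF.integrable _),
      integral_add_measure (hF.integrable _) (hF.integrable _)]
  have p0 : ∀ t, 2 * |⟪D t, P t⟫_ℝ| ≤ ‖D t‖ ^ 2 + ‖P t‖ ^ 2 := fun t => by
    nlinarith [abs_real_inner_le_norm (D t) (P t), sq_nonneg (‖D t‖ - ‖P t‖)]
  have p1 : ∀ t, 2 * (cos (t * T) * ⟪D t, P t⟫_ℝ) ≤ ‖D t‖ ^ 2 + ‖P t‖ ^ 2 := fun t => by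
    have := le_abs_self (cos (t * T) * ⟪D t, P t⟫_ℝ)
    rw [abs_mul] at this
    linarith [p0 t, mul_le_of_le_one_left (abs_nonneg ⟪D t, P t⟫_ℝ) (abs_cos_le_one (t * T))]
  have p2 : ∀ t, 2 * (-1 * ⟪D t, P t⟫_ℝ) ≤ ‖D t‖ ^ 2 + ‖P t‖ ^ 2 := fun t => by
    linarith [p0 t, neg_abs_le ⟪D t, P t⟫_ℝ]
  have p3 : ∀ t, 2 * (A * (cos (t * T) * ⟪D t, P t⟫_ℝ) + -1 * ⟪D t, P t⟫_ℝ) ≤
      (1 + -A * cos (t * T)) * (1 + -A * cos (t * T)) + ‖P t‖ ^ 2 := fun t => by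
    have q1 : |⟪D t, P t⟫_ℝ| ≤ ‖P t‖ :=
      (abs_real_inner_le_norm _ _).trans (mul_le_of_le_one_left (norm_nonneg _) (D1 t))
    have q2 := pow_le_pow_left₀ (abs_nonneg _) q1 2
    rw [sq_abs] at q2
    nlinarith [sq_nonneg (1 + -A * cos (t * T) + ⟪D t, P t⟫_ℝ)]
  have a1 := integral_le_half X b4 b1 b2 p1
  have a2 := integral_le_half L b4 b1 b2 p1
  have a3 := integral_le_half X ((bd_const (-1)).mul b3) b1 b2 p2
  have a4 := integral_le_half L ((bd_const (-1)).mul b3) b1 b2 p2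
  have a5 := integral_le_half C (((bd_const A).mul b4).add ((bd_const (-1)).mul b3)) (b5.mul b5)
    b2 p3
  rw [integral_add (((bd_const A).mul b4).integrable _) (((bd_const (-1)).mul b3).integrable _),
    integral_const_mul, integral_const_mul] at a5
  rw [integral_const_mul] at a3 a4
  have a6 : ∫ t, ‖D t‖ ^ 2 ∂L ≤ L.real Set.univ := by
    have := integral_mono (b1.integrable L) (bd_one.integrable L)
      fun t => pow_le_one₀ (norm_nonneg _) (D1 t)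
    simpa using this
  have a7 : ∫ t, (1 + -A * cos (t * T)) * (1 + -A * cos (t * T)) ∂C ≤ m :=
    le_of_eq_of_le (integral_congr_ae (Eventually.of_forall fun t => by ring)) h3
  have a8 : 0 ≤ ∫ t, ‖P t‖ ^ 2 ∂X := integral_nonneg fun _ => sq_nonneg _
  have a9 : 0 ≤ ∫ t, ‖P t‖ ^ 2 ∂L := integral_nonneg fun _ => sq_nonneg _
  have a10 : 0 ≤ m := by linarith [measureReal_nonneg (μ := L) (s := Set.univ)]
  rw [split b2, split b4] at h1
  rw [split b2, split b3]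
  have a11 : (∫ t, ‖P t‖ ^ 2 ∂X + (∫ t, ‖P t‖ ^ 2 ∂L + ∫ t, ‖P t‖ ^ 2 ∂C)) / 52 ≤
      ∫ t, cos (t * T) * ⟪D t, P t⟫_ℝ ∂C := by linarith
  have a12 := mul_le_mul_of_nonneg_left a11 hA
  linarith

lemma Dw_sq {W : ℕ} (hW : 1 ≤ W) {t : ℝ} (ht : |t| ≤ π) : t ^ 2 * ‖Dw W t‖ ^ 2 ≤ (π / W) ^ 2 := by
  rw [← sq_abs t, ← mul_pow]
  exact pow_le_pow_left₀ (by positivity) (Dw_far hW ht) 2

lemma integral_Dw_wh {W : ℕ} (hW : 1 ≤ W) : ∫ t, ‖Dw W t‖ ^ 2 ∂BK.wh = 1 / W := by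
  rw [integral_Dw _ hW fun z hz _ => by rw [BK.wh_cos, if_neg hz], probReal_univ]

variable (σ : ℕ → Bool)

lemma integral_Dw_st {W j : ℕ} (hW : 1 ≤ W) (h : W ≤ 2 * hh j + 1) :
    ∫ t, ‖Dw W t‖ ^ 2 ∂st σ j = bs σ j / W :=
  integral_Dw _ hW fun z hz h1 => st_cos σ j hz (by omega)

lemma integral_Dw_nu (k : ℕ) : ∫ t, ‖Dw (WW k) t‖ ^ 2 ∂nu σ ≤ rho σ k ^ qq k / 50 +
    (∫ t, ‖Dw (WW k) t‖ ^ 2 ∂low (rho σ k) k + ∫ t, ‖Dw (WW k) t‖ ^ 2 ∂cmb (rho σ k) k) := by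
  have hW := one_le_WW k
  have hW' : (0 : ℝ) < WW k := by exact_mod_cast hW
  have hB := bd_sq (continuous_Dw (WW k)) (norm_Dw_le hW)
  obtain ⟨r1, r2⟩ := rho_mem σ k
  have y0 : (4 : ℝ) ≤ 2 * π * 16 ^ ss k := by
    nlinarith [two_le_pi, one_le_pow₀ (n := ss k) (show (1 : ℝ) ≤ 16 by norm_num)]
  have y1 : 4 / (WW k : ℝ) ≤ 2 * π * 16 ^ ss k / WW k := div_le_div_of_nonneg_right y0 hW'.le
  have y2 : 1 / (WW k : ℝ) ≤ 4 / WW k := div_le_div_of_nonneg_right (by norm_num) hW'.le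
  have h1 := integral_nu_le σ hB (y := 2 * π * 16 ^ ss k / WW k)
    (hasSum_ite_eq k (∫ t, ‖Dw (WW k) t‖ ^ 2 ∂ka (rho σ k) k))
    ((integral_Dw_wh hW).trans_le (y2.trans y1)) fun j => by
      have b0 := bs_nonneg σ j
      rcases lt_trichotomy j k with hj | rfl | hj
      · rw [if_neg hj.ne, add_zero]
        refine (integral_Dw_le (by positivity) (st_le σ j) (ae_st σ j) hW).trans ?_
        rw [← mul_div_assoc, mul_left_comm]
        gcongr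
        · norm_num
        · exact ss_mono.monotone hj
      · rw [if_pos rfl, add_comm]
        refine (Per_far ae_ka hB hW' fun t ht => Dw_sq hW ht).trans (add_le_add le_rfl ?_)
        rw [mul_comm]
        refine mul_le_mul_of_nonneg_left (le_trans ?_ y1) b0
        have c1 : ((2 * hh j + 1 : ℕ) : ℝ) ≤ WW j := by exact_mod_cast MM_le_WW j
        rw [div_le_div_iff₀ (by positivity) hW']
        nlinarith
      · have c1 := TT_le_hh hj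
        have c2 := WW_le_TT k
        rw [if_neg hj.ne', add_zero, integral_Dw_st σ hW (by omega), div_eq_mul_one_div]
        exact mul_le_mul_of_nonneg_left (y2.trans y1) b0
  have h2 : ∫ t, ‖Dw (WW k) t‖ ^ 2 ∂top (rho σ k) k ≤ _ :=
    um_Dw r1 (fun i hi => (Finset.mem_Icc.1 hi).2) hW
  have h3 : (16 : ℝ) ^ ss k ≤ (16 * rho σ k) ^ pp k := by
    refine le_trans ?_ (pow_le_pow_left₀ (show (0 : ℝ) ≤ 4 by norm_num) (by linarith) _)
    rw [show (16 : ℝ) = 4 ^ 2 by norm_num, ← pow_mul]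
    exact pow_le_pow_right₀ (by norm_num) (by have := (idx k).1; omega)
  have h4 : (16 * rho σ k) ^ pp k / WW k ≤ rho σ k ^ qq k / 4096 := by
    have c1 := pow_le_pow_left₀ (by norm_num) r1 (2 * cc k + 6)
    have c2 : (WW k : ℝ) * (1 / 4) ^ (2 * cc k + 6) = 16 ^ pp k * 4096 := by
      rw [WW, pow_add (1 / 4 : ℝ), pow_mul, one_div_pow, one_div_pow, one_div_pow]
      push_cast
      rw [pow_add, pow_add]
      field_simp
      norm_num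
      ring
    have c3 := mul_le_mul_of_nonneg_left c1
      (show 0 ≤ rho σ k ^ pp k * WW k from mul_nonneg (pow_nonneg (by linarith) _) hW'.le)
    rw [mul_assoc, c2] at c3
    rw [div_le_div_iff₀ hW' (by norm_num), ← (idx k).2.1, pow_add, mul_pow]
    linarith
  have h5 := div_le_div_of_nonneg_right h3 hW'.le
  have h6 := mul_le_mul_of_nonneg_left (h5.trans h4) pi_pos.le
  have h7 := mul_le_mul_of_nonneg_left h4 pi_pos.le
  have h8 := mul_le_mul_of_nonneg_right pi_le_four (pow_nonneg (rho_nonneg σ k) (qq k))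
  have h9 := pow_nonneg (rho_nonneg σ k) (qq k)
  rw [integral_ka hB, mul_div_assoc] at h1
  linarith

lemma TT_qq (k : ℕ) : 400 * TT k ≤ 16 ^ qq k := by
  refine le_trans ?_ (cc_WW k)
  have h1 : 200 ≤ JJ k := Nat.le_mul_of_pos_right _ (pow_pos (one_le_RR k) _)
  have h2 : 50 ≤ 3 * JJ k * (NN k + 2) :=
    le_trans (by omega) (Nat.le_mul_of_pos_right _ (by positivity))
  have h3 : cc k * WW k = 3 * JJ k * (NN k + 2) * TT k := by
    rw [cc, TT]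
    ring
  have h4 := Nat.mul_le_mul_right (TT k) h2
  omega

lemma window_sum (ν : Measure ℝ) [IsFiniteMeasure ν] (D : Finset (Fin 1 → ℤ))
    (p : (Fin 1 → ℤ) → ℝ) (W : ℕ) (s : ℤ) :
    ∑ i ∈ range W, (W : ℝ)⁻¹ * ∑ y ∈ D, p y * Kc (BK.sy ν) ((fun _ => (i : ℤ) + s) - y) =
      2 * ∫ t, ⟪ex (t * s) * Dw W t, tr D p (fun y => y 0) t⟫_ℝ ∂ν := by
  have h := sum_Kc ν (range W) (fun _ => (W : ℝ)⁻¹) (fun i _ => (i : ℤ) + s) D p fun y => y
  simp only [Int.cast_add, Int.cast_natCast, tr_shift] at h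
  simp only [mul_sum, ← mul_assoc]
  exact h

lemma energy_eq (ν : Measure ℝ) [IsFiniteMeasure ν] {ι : Type*} (I : Finset ι) (c : ι → ℝ)
    (a : ι → Fin 1 → ℤ) : ∑ x ∈ I, ∑ y ∈ I, c x * c y * Kc (BK.sy ν) (a x - a y) =
      2 * ∫ t, ‖tr I c (fun x => a x 0) t‖ ^ 2 ∂ν := by
  rw [sum_Kc]
  simp only [real_inner_self_eq_norm_sq]

lemma cmb_energy {ρ : ℝ} (r0 : 0 ≤ ρ) (k : ℕ) {ι : Type*} {I : Finset ι} {c : ι → ℝ} {a : ι → ℤ}
    (h0 : ∀ x ∈ I, 0 ≤ c x) (h1 : ∑ x ∈ I, c x = 1) (ha : ∀ x ∈ I, |a x| ≤ TT k + WW k) :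
    2 / 25 * ρ ^ qq k ≤ ∫ t, ‖tr I c (fun x => a x) t‖ ^ 2 ∂cmb ρ k := by
  rw [cmb]
  exact comb_energy (one_le_AA k) (one_le_WW k) (by rw [TT]) (by rw [JJ]) (NN_spec k).1
    (pow_nonneg r0 _) (uu_spec k).1 (uu_spec k).2.1 (uu_spec k).2.2 h0 h1 ha

lemma cmb_err {ρ : ℝ} (r0 : 0 ≤ ρ) (k : ℕ) :
    ∫ t, (1 - AA k * cos (t * TT k)) ^ 2 ∂cmb ρ k ≤ ρ ^ qq k := by
  rw [cmb]
  exact comb_err (by exact_mod_cast one_le_AA k) (one_le_TT k) (one_le_JJ k) (NN_spec k).2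
    (pow_nonneg r0 _) (uu_spec k).1 (uu_spec k).2.1 (uu_spec k).2.2

lemma low_energy {ρ : ℝ} (r0 : 0 ≤ ρ) (r2 : ρ ≤ 1 / 2) (k : ℕ) {ι : Type*} {I : Finset ι}
    {c : ι → ℝ} {a : ι → ℤ} (h0 : ∀ x ∈ I, 0 ≤ c x) (h1 : ∑ x ∈ I, c x = 1)
    (ha : ∀ x ∈ I, |a x| ≤ TT k + WW k) : (low ρ k).real Set.univ - ρ ^ qq k / 50 ≤
      ∫ t, ‖tr I c (fun x => a x) t‖ ^ 2 ∂low ρ k := by
  have hWT := WW_le_TT k
  have b1 : ∫ _t, (99 / 100 : ℝ) ∂low ρ k ≤ ∫ t, ‖tr I c (fun x => a x) t‖ ^ 2 ∂low ρ k := by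
    refine integral_mono_ae (integrable_const _)
      ((bd_sq (continuous_tr _ _ _) (norm_tr_le _ h0 h1)).integrable _)
      ((ae_um fun i hi => (Finset.mem_Ico.1 hi).1).mono fun t ht => ?_)
    have c1 : 1 - 1 / 200 ≤ ‖tr I c (fun x => a x) t‖ := le_norm_tr h0 h1 fun x hx => by
      have d1 : |(a x : ℝ)| ≤ 2 * TT k := by
        exact_mod_cast (show |a x| ≤ 2 * TT k by have := ha x hx; omega)
      have d2 : 400 * (TT k : ℝ) ≤ 16 ^ qq k := by exact_mod_cast TT_qq k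
      rw [abs_mul]
      refine (mul_le_mul ht d1 (abs_nonneg _) (by positivity)).trans ?_
      rw [one_div_pow, div_mul_eq_mul_div, div_le_iff₀ (by positivity)]
      linarith
    show (99 / 100 : ℝ) ≤ ‖tr I c (fun x => a x) t‖ ^ 2
    nlinarith
  rw [integral_const, smul_eq_mul] at b1
  linarith [low_univ (k := k) r0 r2]

theorem height (k : ℕ) {D : Finset (Fin 1 → ℤ)} (hD : ∀ x, x ∈ D ↔ |x 0| ≤ TT k + WW k)
    {p : (Fin 1 → ℤ) → ℝ} {e : ℝ} (h : Equi (Kc (BK.sy (nu σ))) D p e) :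
    ∃ i < WW k, 64 * 8 ^ k ≤ (∑ y ∈ D, p y * Kc (BK.sy (nu σ)) ((fun _ => (i : ℤ)) - y)) / e := by
  obtain ⟨h0, h1, he, h2, h3⟩ := h
  have hW := one_le_WW k
  have hW' : (0 : ℝ) < WW k := by exact_mod_cast hW
  have hWT := WW_le_TT k
  obtain ⟨r1, r2⟩ := rho_mem σ k
  have r0 := rho_nonneg σ k
  rw [energy_eq _ D p fun x => x] at h2
  set P := tr D p fun y => (y 0 : ℝ) with hP
  have Pc : Continuous P := continuous_tr _ _ _
  have P1 : ∀ t, ‖P t‖ ≤ 1 := norm_tr_le _ h0 h1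
  have hB := bd_sq (continuous_Dw (WW k)) (norm_Dw_le hW)
  have win : ∀ s : ℤ, |s| ≤ TT k →
      e ≤ 2 * ∫ t, ⟪ex (t * s) * Dw (WW k) t, P t⟫_ℝ ∂nu σ := by
    intro s hs
    rw [← window_sum, ← one_mul e, ← sum_win hW, sum_mul]
    refine sum_le_sum fun i hi => mul_le_mul_of_nonneg_left (h3 _ ((hD _).2 ?_)) (by positivity)
    have := mem_range.1 hi
    rw [abs_le] at hs ⊢
    constructor <;> omega
  have bex : ∀ s : ℝ, Integrable (fun t => ⟪ex (t * s) * Dw (WW k) t, P t⟫_ℝ) (nu σ) := fun s =>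
    (bd_inner (D := fun t => ex (t * s) * Dw (WW k) t)
      ((continuous_ex.comp (by fun_prop)).mul (continuous_Dw _)) Pc (fun t => by
      rw [norm_mul, norm_ex, one_mul]; exact norm_Dw_le hW t) P1).integrable _
  have a1 : ∫ t, ‖P t‖ ^ 2 ∂nu σ ≤ ∫ t, cos (t * TT k) * ⟪Dw (WW k) t, P t⟫_ℝ ∂nu σ := by
    have w1 := win (TT k) (by simp)
    have w2 := win (-TT k) (by simp)
    have w3 := integral_add (bex (TT k)) (bex (-TT k))
    simp only [mul_neg, inner_ex_add, integral_const_mul] at w3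
    simp only [Int.cast_neg, Int.cast_natCast, mul_neg] at w1 w2
    linarith
  have hle : low (rho σ k) k + cmb (rho σ k) k ≤ nu σ :=
    (Measure.le_add_left le_rfl).trans (ka_le_nu σ k)
  have hX := Measure.sub_add_cancel_of_le hle
  have a2 := height_abs (nu σ - (low (rho σ k) k + cmb (rho σ k) k)) (low (rho σ k) k)
    (cmb (rho σ k) k) (continuous_Dw (WW k)) Pc (norm_Dw_le hW) P1 (T := TT k) (A := AA k)
    (m := rho σ k ^ qq k) (Nat.cast_nonneg _) (by rw [hX]; exact a1)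
    (cmb_energy r0 k h0 h1 fun x hx => (hD x).1 hx) (cmb_err r0 k)
    (by
      have b1 := integral_Dw_nu σ k
      rw [← hX, integral_add_measure (hB.integrable _) (hB.integrable _),
        integral_add_measure (hB.integrable _) (hB.integrable _)] at b1
      linarith)
    (low_univ r0 r2) (low_energy r0 r2 k h0 h1 fun x hx => (hD x).1 hx)
  rw [hX] at a2
  have a3 := window_sum (nu σ) D p (WW k) 0
  simp only [add_zero, Int.cast_zero, mul_zero, ex, Complex.ofReal_zero, Complex.exp_zero,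
    one_mul] at a3
  have a4 : (64 : ℝ) * 8 ^ k ≤ AA k / 52 - 26 := by
    rw [AA]
    push_cast
    linarith [one_le_pow₀ (n := k) (show (1 : ℝ) ≤ 8 by norm_num)]
  have a5 := mul_le_mul_of_nonneg_right a4 he.le
  obtain ⟨i, hi, hi2⟩ := exists_le_of_sum_le (s := range (WW k)) (nonempty_range_iff.2 (by omega))
    (f := fun _ => (WW k : ℝ)⁻¹ * (64 * 8 ^ k * e))
    (g := fun i : ℕ => (WW k : ℝ)⁻¹ * ∑ y ∈ D, p y * Kc (BK.sy (nu σ)) ((fun _ => (i : ℤ)) - y)) (by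
      rw [a3, ← sum_mul, sum_win hW, one_mul]
      rw [← h2] at a5 ⊢
      linarith)
  exact ⟨i, mem_range.1 hi, (le_div_iff₀ he).2 (le_of_mul_le_mul_left hi2 (by positivity))⟩

end Pool.Agent.Lib.MP_ecc084_pr.IN
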