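import Pool.Agent.Lib.MP_ecc084_pr.IN.I

/-!
The condition (C).
-/

open MeasureTheory Finset Real Filter Topology

namespace Pool.Agent.Lib.MP_ecc084_pr.IN

lemma integral_le_affine {X : Measure ℝ} [IsFiniteMeasure X] {F G : ℝ → ℝ} (hF : Bd F) (hG : Bd G)
    {a β : ℝ} (h : ∀ᵐ t ∂X, F t ≤ a * G t + β) :
    ∫ t, F t ∂X ≤ a * ∫ t, G t ∂X + β * X.real Set.univ := by
  refine (integral_mono_ae (hF.integrable X)
    ((((bd_const a).mul hG).add (bd_const β)).integrable X) h).trans_eq ?_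
  rw [integral_add ((hG.integrable X).const_mul a) (integrable_const β), integral_const_mul,
    integral_const, smul_eq_mul, mul_comm β]

lemma sq_le_split {x a b κ : ℝ} (hκ : 0 < κ) (h0 : 0 ≤ x) (h : x ≤ a + b) :
    x ^ 2 ≤ (1 + κ) * a ^ 2 + (1 + 1 / κ) * b ^ 2 := by
  have h1 : (1 + κ) * a ^ 2 + (1 + 1 / κ) * b ^ 2 - (a + b) ^ 2 = (κ * a - b) ^ 2 / κ := by
    field_simp
    ring
  have h2 : 0 ≤ (κ * a - b) ^ 2 / κ := by positivity
  linarith [pow_le_pow_left₀ h0 h 2]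

lemma mix_spread {ι : Type*} {I : Finset ι} {c l : ι → ℝ} {n : ℕ} (hc : ∀ x ∈ I, 0 ≤ c x)
    {F G : ℝ → ℝ} (hF : Bd F) (hG : Bd G) (Gc : Continuous G) (G0 : ∀ t, 0 ≤ G t) {κ θ β : ℝ}
    (hκ : 0 < κ) (h1 : 0 < θ) (h2 : θ ≤ 1) (h3 : 1 ≤ (1 + κ) * θ ^ (n + 1))
    (h : ∀ᵐ t ∂mix I c l n, F t ≤ (1 + κ) * G (θ * t) + β) :
    ∫ t, F t ∂mix I c l n ≤ (1 + κ) ^ 2 * ∫ t, G t ∂mix I c l n +
      β * (mix I c l n).real Set.univ := by
  have a1 := integral_le_affine hF (hG.comp (g := fun t => θ * t) (by fun_prop)) h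
  have a2 := mul_le_mul_of_nonneg_left (mix_dil (l := l) (n := n) hc Gc hG G0 h1 h2)
    (show 0 ≤ 1 + κ by positivity)
  have a3 := mul_le_mul_of_nonneg_right h3
    (show 0 ≤ ∫ t, G (θ * t) ∂mix I c l n from integral_nonneg fun _ => G0 _)
  have a4 := mul_le_mul_of_nonneg_left (show ∫ t, G (θ * t) ∂mix I c l n ≤
    (1 + κ) * ∫ t, G t ∂mix I c l n by linarith) (show 0 ≤ 1 + κ by positivity)
  linarith

lemma ka_spread {ρ : ℝ} (r0 : 0 ≤ ρ) (k : ℕ) {F G : ℝ → ℝ} (hF : Bd F) (hG : Bd G)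
    (Gc : Continuous G) (G0 : ∀ t, 0 ≤ G t) {κ θ β T : ℝ} (hκ : 0 < κ) (h1 : 0 < θ) (h2 : θ ≤ 1)
    (hT : 4 ≤ T) (h3 : ∀ n : ℕ, 4 ^ n ≤ T → 1 ≤ (1 + κ) * θ ^ n)
    (h4 : ∀ t, |t| ≤ 1 → F t ≤ (1 + κ) * G (θ * t) + β)
    (h5 : ∀ t, |t| ≤ 1 / T ^ 2 → F t ≤ (1 + κ) * G t + β) :
    ∫ t, F t ∂ka ρ k ≤ (1 + κ) ^ 2 * ∫ t, G t ∂ka ρ k + β * (ka ρ k).real Set.univ := by
  have a0 : ∀ I : Finset ℕ,
      ∫ t, F t ∂um ρ I ≤ (1 + κ) ^ 2 * ∫ t, G t ∂um ρ I + β * (um ρ I).real Set.univ := fun I =>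
    mix_spread (fun _ _ => pow_nonneg r0 _) hF hG Gc G0 hκ h1 h2 (h3 1 (by linarith))
      ((ae_um (ρ := ρ) fun i _ => Nat.zero_le i).mono fun t ht => h4 t (by simpa using ht))
  have a1 : ∫ t, F t ∂top ρ k ≤ (1 + κ) ^ 2 * ∫ t, G t ∂top ρ k +
    β * (top ρ k).real Set.univ := a0 _
  have a2 : ∫ t, F t ∂low ρ k ≤ (1 + κ) ^ 2 * ∫ t, G t ∂low ρ k +
    β * (low ρ k).real Set.univ := a0 _
  have a3 : ∫ t, F t ∂cmb ρ k ≤ (1 + κ) ^ 2 * ∫ t, G t ∂cmb ρ k +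
      β * (cmb ρ k).real Set.univ := by
    rcases le_total (4 ^ (NN k + 1 + 1) : ℝ) T with h | h
    · have b1 : ∀ᵐ t ∂cmb ρ k, F t ≤ (1 + κ) * G (θ * t) + β := ae_cmb.mono fun t ht =>
        h4 t (ht.trans (pow_le_one₀ (by norm_num) (by norm_num)))
      rw [cmb, comb] at b1 ⊢
      exact mix_spread (fun _ _ => pow_nonneg r0 _) hF hG Gc G0 hκ h1 h2 (h3 _ h) b1
    · have b1 : T ^ 2 ≤ 16 ^ pp k := by
        refine (pow_le_pow_left₀ (by linarith) h 2).trans ?_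
        rw [← pow_mul, mul_comm, pow_mul]
        have := (idx k).1
        have := (le_cc k).2.1
        exact (pow_le_pow_left₀ (by norm_num) (by norm_num) _).trans
          (pow_le_pow_right₀ (by norm_num) (by omega))
      have b2 := integral_le_affine (X := cmb ρ k) hF hG (ae_cmb.mono fun t ht => h5 t
        (ht.trans (by rw [one_div_pow]; exact one_div_le_one_div_of_le (by positivity) b1)))
      have b3 := mul_le_mul_of_nonneg_right (show 1 + κ ≤ (1 + κ) ^ 2 by nlinarith)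
        (show 0 ≤ ∫ t, G t ∂cmb ρ k from integral_nonneg G0)
      linarith
  rw [integral_ka hF, integral_ka hG, ka_real]
  linarith

variable (σ : ℕ → Bool)

lemma spread {ι : Type*} {I : Finset ι} {c a b : ι → ℝ} (h0 : ∀ x ∈ I, 0 ≤ c x)
    (h1 : ∑ x ∈ I, c x = 1) {κ θ T : ℝ} {W : ℕ} (hκ : 0 < κ) (t0 : 0 < θ) (t1 : θ ≤ 1)
    (hT : 4 ≤ T) (hW : 1 ≤ W) (hWT : W ≤ T) (h3 : ∀ n : ℕ, 4 ^ n ≤ T → 1 ≤ (1 + κ) * θ ^ n)
    (ha : ∀ x ∈ I, |a x| ≤ 2 * T) (hb : ∀ x ∈ I, |b x - θ * a x| ≤ 1) :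
    ∫ t, ‖tr I c b t * Dw W t‖ ^ 2 ∂nu σ ≤ 3 * (((1 + 1 / κ) * 36 + 4) / W) +
      (1 + κ) ^ 2 * ∫ t, ‖tr I c a t‖ ^ 2 ∂nu σ := by
  have hW' : (1 : ℝ) ≤ W := by exact_mod_cast hW
  have Q1 := norm_tr_le b h0 h1
  have D1 := norm_Dw_le hW
  have hG := bd_sq (continuous_tr I c a) (norm_tr_le a h0 h1)
  have hD := bd_sq (continuous_Dw W) D1
  have F1 : ∀ t, ‖tr I c b t * Dw W t‖ ≤ ‖Dw W t‖ := fun t => by
    rw [norm_mul]
    exact mul_le_of_le_one_left (norm_nonneg _) (Q1 t)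
  have hF : Bd fun t => ‖tr I c b t * Dw W t‖ ^ 2 :=
    bd_sq ((continuous_tr I c b).mul (continuous_Dw W)) fun t => (F1 t).trans (D1 t)
  have F2 : ∀ t, ‖tr I c b t * Dw W t‖ ^ 2 ≤ ‖Dw W t‖ ^ 2 := fun t =>
    pow_le_pow_left₀ (norm_nonneg _) (F1 t) 2
  have F3 : ∀ (X : Measure ℝ) [IsFiniteMeasure X],
      ∫ t, ‖tr I c b t * Dw W t‖ ^ 2 ∂X ≤ ∫ t, ‖Dw W t‖ ^ 2 ∂X := fun X _ =>
    integral_mono (hF.integrable X) (hD.integrable X) F2
  have F4 : ∀ t, |t| ≤ 1 → ‖tr I c b t * Dw W t‖ ≤ ‖tr I c a (θ * t)‖ + 4 / W := by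
    intro t ht
    have b1 : ‖tr I c b t - tr I c a (θ * t)‖ ≤ |t| := norm_tr_sub_le h0 h1 fun x hx => by
      rw [mul_comm θ, mul_assoc, ← mul_sub, abs_mul]
      exact mul_le_of_le_one_right (abs_nonneg _) (hb x hx)
    have b2 := norm_sub_norm_le (tr I c b t) (tr I c a (θ * t))
    have b3 := Dw_far hW (ht.trans (by linarith [two_le_pi]))
    have b4 : π / W ≤ 4 / W := div_le_div_of_nonneg_right pi_le_four (by positivity)
    have b5 := mul_le_mul_of_nonneg_right (show ‖tr I c b t‖ ≤ ‖tr I c a (θ * t)‖ + |t| by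
      linarith) (norm_nonneg (Dw W t))
    have b6 := mul_le_of_le_one_right (norm_nonneg (tr I c a (θ * t))) (D1 t)
    rw [norm_mul]
    linarith
  have y0 : (6 / W : ℝ) ^ 2 ≤ 36 / W := by
    rw [div_pow, div_le_div_iff₀ (by positivity) (by positivity)]
    nlinarith
  have y1 := mul_le_mul_of_nonneg_left y0 (show 0 ≤ 1 + 1 / κ by positivity)
  have y2 : (6 / W : ℝ) = 4 / W + 2 / W := by ring
  have y3 : (0 : ℝ) ≤ 2 / W := by positivity
  have y4 : (0 : ℝ) ≤ (1 + 1 / κ) * (36 / W) := by positivity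
  have y5 : ((1 + 1 / κ) * 36 + 4) / W = (1 + 1 / κ) * (36 / W) + 4 * (1 / W) := by ring
  have y6 : (0 : ℝ) ≤ 1 / W := by positivity
  have hk : ∀ j, ∫ t, ‖tr I c b t * Dw W t‖ ^ 2 ∂ka (rho σ j) j ≤
      (1 + κ) ^ 2 * ∫ t, ‖tr I c a t‖ ^ 2 ∂ka (rho σ j) j +
        (1 + 1 / κ) * (36 / W) * (ka (rho σ j) j).real Set.univ := fun j =>
    ka_spread (rho_nonneg σ j) j hF hG ((continuous_tr I c a).norm.pow 2) (fun _ => sq_nonneg _)
      hκ t0 t1 hT h3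
      (fun t ht => (sq_le_split (b := 6 / W) hκ (norm_nonneg _) (by linarith [F4 t ht])).trans
        (add_le_add le_rfl y1))
      fun t ht => by
        have b0 : 1 / T ^ 2 ≤ 1 := by
          rw [div_le_one (by positivity)]
          nlinarith
        have b1 : ‖tr I c a (θ * t) - tr I c a t‖ ≤ 2 / W := norm_tr_sub_le h0 h1 fun x hx => by
          have c1 : θ * t * a x - t * a x = -((1 - θ) * (t * a x)) := by ring
          have c2 := mul_le_mul ht (ha x hx) (abs_nonneg _) (by positivity)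
          have c3 : 1 / T ^ 2 * (2 * T) = 2 / T := by field_simp
          rw [c1, abs_neg, abs_mul, abs_of_nonneg (sub_nonneg.2 t1), abs_mul]
          refine (mul_le_of_le_one_left (by positivity) (by linarith)).trans (c2.trans ?_)
          rw [c3]
          exact div_le_div_of_nonneg_left zero_le_two (by positivity) hWT
        have b2 := norm_sub_norm_le (tr I c a (θ * t)) (tr I c a t)
        exact (sq_le_split (b := 6 / W) hκ (norm_nonneg _)
          (by linarith [F4 t (ht.trans b0)])).trans (add_le_add le_rfl y1)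
  refine (integral_nu_le σ hF ((hasSum_nu σ hG).mul_left ((1 + κ) ^ 2))
    ((F3 _).trans ((integral_Dw_wh hW).trans_le (by linarith))) fun j => ?_).trans
    (add_le_add le_rfl (mul_le_mul_of_nonneg_left (sub_le_self _ (mul_nonneg
      (zero_le_one.trans (one_le_bw σ)) (integral_nonneg fun _ => sq_nonneg _))) (sq_nonneg _)))
  have b0 := bs_nonneg σ j
  rcases le_total W (2 * hh j + 1) with h | h
  · refine le_add_of_le_of_nonneg ((F3 _).trans ?_)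
      (mul_nonneg (sq_nonneg _) (integral_nonneg fun _ => sq_nonneg _))
    rw [integral_Dw_st σ hW h, div_eq_mul_one_div]
    exact mul_le_mul_of_nonneg_left (by linarith) b0
  · have b1 : ∫ t, ‖tr I c b t * Dw W t‖ ^ 2 ∂st σ j ≤ _ + _ * bs σ j :=
      Per_far ae_ka hF (show (0 : ℝ) < W by positivity) fun t ht =>
        (mul_le_mul_of_nonneg_left (F2 t) (sq_nonneg t)).trans (Dw_sq hW ht)
    have b2 : 4 * ((2 * hh j + 1 : ℕ) : ℝ) / W ^ 2 ≤ 4 * (1 / W) := by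
      have c1 : ((2 * hh j + 1 : ℕ) : ℝ) ≤ W := by exact_mod_cast h
      rw [mul_one_div, div_le_div_iff₀ (by positivity) (by positivity)]
      nlinarith
    have b3 := mul_le_mul_of_nonneg_right b2 b0
    have b4 : (ka (rho σ j) j).real Set.univ ≤ bs σ j := real_mono (Y := st σ j) (le_Per _ _) _
    have b5 := mul_le_mul_of_nonneg_left b4 y4
    have b6 : ∫ t, ‖tr I c a t‖ ^ 2 ∂ka (rho σ j) j ≤ ∫ t, ‖tr I c a t‖ ^ 2 ∂st σ j :=
      integral_mono_measure (le_Per _ _) (Eventually.of_forall fun _ => sq_nonneg _)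
        (hG.integrable _)
    have b7 := mul_le_mul_of_nonneg_left b6 (sq_nonneg (1 + κ))
    rw [y5]
    linarith [hk j]

lemma energy_low (ν : Measure ℝ) [IsFiniteMeasure ν] {ι : Type*} {I : Finset ι} {c a : ι → ℝ}
    (h0 : ∀ x ∈ I, 0 ≤ c x) (h1 : ∑ x ∈ I, c x = 1) {T : ℝ} (hT : 0 < T)
    (ha : ∀ x ∈ I, |a x| ≤ 2 * T) :
    ν.real (Set.Icc (-(1 / (4 * T))) (1 / (4 * T))) ≤ 4 * ∫ t, ‖tr I c a t‖ ^ 2 ∂ν := by
  rw [real_Icc, ← integral_const_mul]
  refine integral_mono ((bd_ind _ _).integrable _)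
    (((bd_sq (continuous_tr I c a) (norm_tr_le a h0 h1)).integrable _).const_mul _) fun t => ?_
  by_cases ht : t ∈ Set.Icc (-(1 / (4 * T))) (1 / (4 * T))
  · have c1 : 1 - 1 / 2 ≤ ‖tr I c a t‖ := le_norm_tr h0 h1 fun x hx => by
      rw [abs_mul]
      refine (mul_le_mul (abs_le.2 ht) (ha x hx) (abs_nonneg _) (by positivity)).trans_eq ?_
      field_simp
      norm_num
    simp only [Set.indicator_of_mem ht, Pi.one_apply]
    nlinarith
  · simp only [Set.indicator_of_notMem ht]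
    positivity

/-- The lattice ball as a finite set. -/
noncomputable def lb (T : ℝ) : Finset (Fin 1 → ℤ) := (BK.finite_latBall_one T).toFinset

lemma coe_lb (T : ℝ) : (lb T : Set (Fin 1 → ℤ)) = latBall 1 T := Set.Finite.coe_toFinset _

lemma mem_lb {T : ℝ} {x : Fin 1 → ℤ} : x ∈ lb T ↔ |(x 0 : ℝ)| ≤ T :=
  (Set.Finite.mem_toFinset _).trans BK.mem_latBall_one

lemma lb_nonempty {T : ℝ} (h : 0 ≤ T) : (lb T).Nonempty := ⟨0, mem_lb.2 (by simpa using h)⟩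

lemma cap_pos {T : ℝ} (h : 0 ≤ T) : 0 < cap (BK.sy (nu σ)) (latBall 1 T) := by
  obtain ⟨p, e, hp⟩ := exists_equi _ (BK.sy_symm _) (ball_pos σ) (lb_nonempty h)
  rw [← coe_lb, hp.cap_eq _ (BK.sy_symm _) (ball_pos σ)]
  exact one_div_pos.2 hp.2.2.1

lemma cap_ratio_le {κ T L T' : ℝ} (hκ : 0 < κ) (hT : 4 ≤ T) (hL : 1 ≤ L) (hLT : 2 * L < T)
    (h0 : 0 ≤ T') (h1 : T' ≤ T + L) (h3 : ∀ n : ℕ, 4 ^ n ≤ T → 1 ≤ (1 + κ) * (1 - 2 * L / T) ^ n) :
    cap (BK.sy (nu σ)) (latBall 1 T') / cap (BK.sy (nu σ)) (latBall 1 T) ≤ (1 + κ) ^ 2 +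
      24 * ((1 + 1 / κ) * 36 + 4) /
        (L * (nu σ).real (Set.Icc (-(1 / (4 * T))) (1 / (4 * T)))) := by
  obtain ⟨p, e, hp⟩ := exists_equi _ (BK.sy_symm _) (ball_pos σ) (lb_nonempty h0)
  have hc := hp.cap_eq _ (BK.sy_symm _) (ball_pos σ)
  obtain ⟨p0, p1, he, p2, -⟩ := hp
  have T0 : 0 < T := by linarith
  have hW : 1 ≤ ⌊L⌋₊ := Nat.one_le_floor_iff _ |>.2 hL
  have w1 : (⌊L⌋₊ : ℝ) ≤ L := Nat.floor_le (by linarith)
  have w2 : L ≤ 2 * ⌊L⌋₊ := by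
    have : (1 : ℝ) ≤ ⌊L⌋₊ := by exact_mod_cast hW
    linarith [Nat.lt_floor_add_one L]
  set W := ⌊L⌋₊
  have t0 : 0 < 1 - 2 * L / T := sub_pos.2 ((div_lt_one T0).2 hLT)
  have t1 : 1 - 2 * L / T ≤ 1 := sub_le_self _ (by positivity)
  have t2 : (1 - 2 * L / T) * (T + L) ≤ T - L := by
    have : 2 * L / T * T = 2 * L := div_mul_cancel₀ _ T0.ne'
    nlinarith [show 0 ≤ 2 * L / T * L by positivity]
  set θ := 1 - 2 * L / T
  have ha : ∀ x ∈ lb T', |(x 0 : ℝ)| ≤ 2 * T := fun x hx => by linarith [mem_lb.1 hx]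
  have a1 := one_le_cap_mul _ (BK.sy_symm _) (ball_pos σ) (I := lb T' ×ˢ range W)
    (c := fun x => p x.1 * (W : ℝ)⁻¹) (a := fun x _ => ⌊θ * x.1 0⌋ + x.2) (D := lb T)
    (fun x hx => mul_nonneg (p0 _ (mem_product.1 hx).1) (by positivity))
    (by rw [sum_product, ← p1]; exact sum_congr rfl fun x _ => by
          simp only [← mul_sum, sum_win hW, mul_one])
    fun x hx => mem_lb.2 (by
      have b1 := mul_le_mul_of_nonneg_left ((mem_lb.1 (mem_product.1 hx).1).trans h1) t0.le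
      have b2 : (x.2 : ℝ) ≤ W := by exact_mod_cast (mem_range.1 (mem_product.1 hx).2).le
      have b3 := Int.floor_le (θ * x.1 0)
      have b4 := Int.lt_floor_add_one (θ * x.1 0)
      have b5 := mul_le_mul_of_nonneg_left (le_abs_self (x.1 0 : ℝ)) t0.le
      have b6 := mul_le_mul_of_nonneg_left (neg_abs_le (x.1 0 : ℝ)) t0.le
      have b7 : (0 : ℝ) ≤ x.2 := Nat.cast_nonneg _
      simp only [Int.cast_add, Int.cast_natCast]
      rw [abs_le]
      constructor <;> linarith)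
  have a2 := spread σ p0 p1 (b := fun x => (⌊θ * x 0⌋ : ℝ)) hκ t0 t1 hT hW (by linarith) h3 ha
    fun x _ => by
      rw [abs_le]
      constructor <;> linarith [Int.floor_le (θ * x 0), Int.lt_floor_add_one (θ * x 0)]
  have a3 := energy_low (nu σ) p0 p1 T0 ha
  have a4 := nu_pos σ (show 0 < 1 / (4 * T) by positivity)
  have a5 := fun t => tr_prod (lb T') p (fun x => (⌊θ * x 0⌋ : ℝ)) (range W) (fun _ => (W : ℝ)⁻¹)
    (fun i => (i : ℝ)) t
  rw [energy_eq] at a1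
  simp only [Int.cast_add, Int.cast_natCast, a5] at a1
  rw [energy_eq _ _ p fun x => x] at p2
  rw [coe_lb] at a1 hc
  have c0 := cap_pos σ T0.le
  have W0 : (0 : ℝ) < W := by exact_mod_cast hW
  set B := (nu σ).real (Set.Icc (-(1 / (4 * T))) (1 / (4 * T)))
  set C := (1 + 1 / κ) * 36 + 4 with hC
  have C0 : 0 < C := by positivity
  have a6 : 6 * (C / W) ≤ 24 * C / (L * B) * e := by
    rw [div_mul_eq_mul_div, ← mul_div_assoc, div_le_div_iff₀ W0 (by positivity)]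
    have := mul_le_mul w2 (show B ≤ 2 * e by linarith) a4.le (by positivity)
    nlinarith
  rw [hc, div_div, div_le_iff₀ (by positivity)]
  refine a1.trans ?_
  rw [mul_comm e, mul_left_comm (_ + _)]
  refine mul_le_mul_of_nonneg_left ?_ c0.le
  have a7 : ∫ t, ‖tr (lb T') p (fun x => (⌊θ * x 0⌋ : ℝ)) t *
    tr (range W) (fun _ => (W : ℝ)⁻¹) (fun i => (i : ℝ)) t‖ ^ 2 ∂nu σ ≤ _ := a2
  rw [add_mul, ← p2]
  rw [← p2] at a6
  linarith

theorem cond_C {ε : ℝ} (hε : 0 < ε) : Tendsto (fun T : ℝ =>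
    cap (BK.sy (nu σ)) (latBall 1 (T + T ^ (1 - ε))) / cap (BK.sy (nu σ)) (latBall 1 T))
    atTop (𝓝 1) := by
  refine tendsto_order.2 ⟨fun a ha => ?_, fun a ha => ?_⟩
  · filter_upwards [eventually_ge_atTop 0] with T hT
    refine ha.trans_le ((one_le_div (cap_pos σ hT)).2 ?_)
    rw [← coe_lb, ← coe_lb]
    exact cap_mono _ (BK.sy_symm _) (ball_pos σ) fun x hx =>
      mem_lb.2 ((mem_lb.1 hx).trans (le_add_of_nonneg_right (rpow_nonneg hT _)))
  obtain ⟨κ, hκ, k1⟩ : ∃ κ : ℝ, 0 < κ ∧ (1 + κ) ^ 2 < a :=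
    ⟨min 1 ((a - 1) / 4), lt_min one_pos (by linarith), by
      have b1 := min_le_left 1 ((a - 1) / 4)
      have b2 := min_le_right 1 ((a - 1) / 4)
      have b3 : 0 < min 1 ((a - 1) / 4) := lt_min one_pos (by linarith)
      nlinarith⟩
  obtain ⟨δ₀, d0, hd⟩ := nu_low σ (show alI σ < 2 / 3 by linarith [(al_mem σ 0).2.2])
  set η := min ε (1 / 4)
  have e0 : 0 < η := lt_min hε (by norm_num)
  have l1 : Tendsto (fun T : ℝ => log T / T ^ η) atTop (𝓝 0) :=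
    (isLittleO_log_rpow_atTop e0).tendsto_div_nhds_zero
  have l2 : Tendsto (fun T : ℝ => 24 * ((1 + 1 / κ) * 36 + 4) /
      ((1 / 64) ^ (2 / 3 : ℝ) * T ^ (1 / 12 : ℝ))) atTop (𝓝 0) :=
    tendsto_const_nhds.div_atTop
      ((tendsto_rpow_atTop (by norm_num)).const_mul_atTop (by positivity))
  filter_upwards [eventually_ge_atTop 4, eventually_gt_atTop (1 / (4 * δ₀)),
    (tendsto_rpow_atTop e0).eventually_gt_atTop 2,
    l1.eventually (gt_mem_nhds (show 0 < κ / (1 + κ) / 2 by positivity)),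
    l2.eventually (gt_mem_nhds (sub_pos.2 k1))] with T h1 h2 h3 h4 h5
  have T0 : 0 < T := by linarith
  have T1 : 1 ≤ T := by linarith
  have b1 : 2 * T ^ (1 - η) / T = 2 / T ^ η := by
    rw [rpow_sub T0, rpow_one]
    field_simp
  have b2 : 2 / T ^ η < 1 := (div_lt_one (by linarith)).2 h3
  have b3 : T ^ (3 / 4 : ℝ) ≤ T ^ (1 - η) :=
    rpow_le_rpow_of_exponent_le T1 (by linarith [min_le_right ε (1 / 4)])
  have b4 := hd (1 / (4 * T)) (by positivity) (by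
    rw [div_lt_iff₀ (by positivity)] at h2 ⊢
    linarith)
  have b5 : (1 / 64) ^ (2 / 3 : ℝ) * T ^ (1 / 12 : ℝ) =
      T ^ (3 / 4 : ℝ) * (1 / (4 * T) / 16) ^ (2 / 3 : ℝ) := by
    have c1 : 1 / (4 * T) / 16 = 1 / 64 * T⁻¹ := by
      field_simp
      norm_num
    rw [c1, mul_rpow (by norm_num) (by positivity), inv_rpow T0.le, ← rpow_neg T0.le,
      mul_left_comm, ← rpow_add T0]
    norm_num
  refine (cap_ratio_le σ (L := T ^ (1 - η)) hκ h1
    (one_le_rpow T1 (by linarith [min_le_right ε (1 / 4)])) ((div_lt_one T0).1 (b1 ▸ b2))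
    (by positivity) (add_le_add le_rfl
      (rpow_le_rpow_of_exponent_le T1 (by linarith [min_le_left ε (1 / 4)])))
    fun n hn => ?_).trans_lt ?_
  · have c1 := log_le_log (by positivity) hn
    have c2 : (1 : ℝ) ≤ log 4 := by
      rw [le_log_iff_exp_le (by norm_num)]
      linarith [exp_one_lt_d9]
    rw [log_pow] at c1
    have c3 : (n : ℝ) ≤ log T := by nlinarith [Nat.cast_nonneg (α := ℝ) n]
    have c4 := one_add_mul_le_pow (show -2 ≤ -(2 / T ^ η) by linarith) n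
    have c5 : (n : ℝ) / T ^ η ≤ log T / T ^ η := div_le_div_of_nonneg_right c3 (by linarith)
    have c6 : (n : ℝ) * -(2 / T ^ η) = -(2 * (n / T ^ η)) := by ring
    have c7 : (1 + κ) * (1 - κ / (1 + κ)) = 1 := by
      field_simp
      ring
    rw [b1, sub_eq_add_neg]
    refine c7.ge.trans (mul_le_mul_of_nonneg_left ?_ (by positivity))
    linarith
  · rw [← lt_sub_iff_add_lt']
    refine lt_of_le_of_lt (div_le_div_of_nonneg_left (by positivity) (by positivity) ?_) h5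
    rw [b5]
    exact mul_le_mul b3 b4 (by positivity) (by positivity)

end Pool.Agent.Lib.MP_ecc084_pr.IN
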